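import Mathlib

set_option autoImplicit false

namespace Pool.Agent.MP_c481b3_nt.H81

open WeierstrassCurve

/-- the curve `y^2 = x^3 + A x + B` -/
def Wc {R : Type*} [CommRing R] (A B : R) : WeierstrassCurve R := ⟨0, 0, 0, A, B⟩

/-- its points -/
abbrev Pt {R : Type*} [CommRing R] (A B : R) := (Wc A B).toAffine.Point

/-- the curve is nonsingular -/
structure Good {L : Type*} [Field L] (A B : L) : Prop where
  two : (2 : L) ≠ 0
  disc : 4 * A ^ 3 + 27 * B ^ 2 ≠ 0

lemma Wc_disc {R : Type*} [CommRing R] (A B : R) :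
    (Wc A B).Δ = -16 * (4 * A ^ 3 + 27 * B ^ 2) := by
  simp only [Wc, Δ, b₂, b₄, b₆, b₈]; ring

/-- three points on the line `y = l x + n` -/
structure ColAt {R : Type*} [CommRing R] (A B l n x1 y1 x2 y2 x3 y3 : R) : Prop where
  h1 : y1 = l * x1 + n
  h2 : y2 = l * x2 + n
  h3 : y3 = l * x3 + n
  e1 : x1 + x2 + x3 = l ^ 2
  e2 : x1 * x2 + x1 * x3 + x2 * x3 = A - 2 * l * n
  e3 : x1 * x2 * x3 = n ^ 2 - B

lemma ColAt.map {R S : Type*} [CommRing R] [CommRing S] (φ : R →+* S)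
    {A B l n x1 y1 x2 y2 x3 y3 : R} (h : ColAt A B l n x1 y1 x2 y2 x3 y3) :
    ColAt (φ A) (φ B) (φ l) (φ n) (φ x1) (φ y1) (φ x2) (φ y2) (φ x3) (φ y3) :=
  ⟨by simpa using congrArg φ h.h1, by simpa using congrArg φ h.h2, by simpa using congrArg φ h.h3,
    by simpa using congrArg φ h.e1, by simpa [map_ofNat] using congrArg φ h.e2,
    by simpa using congrArg φ h.e3⟩

lemma ColAt.of_map {R S : Type*} [CommRing R] [CommRing S] (φ : R →+* S)
    (hφ : Function.Injective φ) {A B l n x1 y1 x2 y2 x3 y3 : R}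
    (h : ColAt (φ A) (φ B) (φ l) (φ n) (φ x1) (φ y1) (φ x2) (φ y2) (φ x3) (φ y3)) :
    ColAt A B l n x1 y1 x2 y2 x3 y3 :=
  ⟨hφ (by simpa using h.h1), hφ (by simpa using h.h2), hφ (by simpa using h.h3),
    hφ (by simpa using h.e1), hφ (by simpa [map_ofNat] using h.e2), hφ (by simpa using h.e3)⟩

lemma ColAt.rot {R : Type*} [CommRing R] {A B l n x1 y1 x2 y2 x3 y3 : R}
    (h : ColAt A B l n x1 y1 x2 y2 x3 y3) : ColAt A B l n x2 y2 x3 y3 x1 y1 :=
  ⟨h.h2, h.h3, h.h1, by linear_combination h.e1, by linear_combination h.e2,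
    by linear_combination h.e3⟩

lemma ColAt.slope {R : Type*} [CommRing R] {A B l n x1 y1 x2 y2 x3 y3 : R}
    (h : ColAt A B l n x1 y1 x2 y2 x3 y3) :
    l * (y1 + y2) = x1 ^ 2 + x1 * x2 + x2 ^ 2 + A := by
  rw [h.h1, h.h2]
  linear_combination h.e2 - (x1 + x2) * h.e1

lemma ColAt.sym {R : Type*} [CommRing R] {A B l n x1 y1 x2 y2 x3 y3 : R}
    (h : ColAt A B l n x1 y1 x2 y2 x3 y3) :
    (A - (x1 * x2 + x1 * x3 + x2 * x3)) ^ 2 = 4 * (x1 + x2 + x3) * (x1 * x2 * x3 + B) := by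
  rw [h.e1, h.e2, h.e3]; ring

lemma ColAt.zsum {R : Type*} [CommRing R] {A B l n x1 y1 x2 y2 x3 y3 : R}
    (h : ColAt A B l n x1 y1 x2 y2 x3 y3) :
    x1 * y2 * y3 + x2 * y1 * y3 + x3 * y1 * y2 = 2 * A * l * n - 3 * B * l ^ 2 := by
  rw [h.h1, h.h2, h.h3]
  linear_combination 3 * l ^ 2 * h.e3 + 2 * l * n * h.e2 + n ^ 2 * h.e1

variable {L : Type*} [Field L] {A B : L}

lemma Good.ne (hG : Good A B) : (Wc A B).Δ ≠ 0 := by
  rw [Wc_disc]
  have h16 : (-16 : L) = -(2 ^ 4) := by norm_num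
  rw [h16]
  exact mul_ne_zero (neg_ne_zero.2 (pow_ne_zero _ hG.two)) hG.disc

lemma good_of_ne (h : (Wc A B).Δ ≠ 0) : Good A B := by
  rw [Wc_disc] at h
  refine ⟨fun h2 => h ?_, fun h2 => h (by rw [h2, mul_zero])⟩
  have h16 : (-16 : L) = -(2 ^ 4) := by norm_num
  rw [h16, h2]; simp

lemma Good.not_sing (hG : Good A B) {x : L} (h1 : x ^ 3 + A * x + B = 0)
    (h2 : 3 * x ^ 2 + A = 0) : False :=
  hG.disc (by
    linear_combination (27 * B - 18 * A * x) * h1
      + (6 * A * x ^ 2 - 9 * B * x + 4 * A ^ 2) * h2)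

lemma eqn_iff (x y : L) : (Wc A B).toAffine.Equation x y ↔ y ^ 2 = x ^ 3 + A * x + B := by
  rw [Affine.equation_iff]; simp [Wc]

lemma ns_iff (hG : Good A B) (x y : L) :
    (Wc A B).toAffine.Nonsingular x y ↔ y ^ 2 = x ^ 3 + A * x + B := by
  rw [← Affine.equation_iff_nonsingular_of_Δ_ne_zero hG.ne, eqn_iff]

/-- first coordinate -/
def xc : Pt A B → L
  | .zero => 0
  | .some x _ _ => x

/-- second coordinate -/
def yc : Pt A B → L
  | .zero => 0
  | .some _ y _ => y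

open Classical in
/-- the point with given coordinates -/
noncomputable def pt (A B x y : L) : Pt A B :=
  if h : (Wc A B).toAffine.Nonsingular x y then .some x y h else 0

@[simp] lemma xc_zero : xc (0 : Pt A B) = 0 := rfl
@[simp] lemma yc_zero : yc (0 : Pt A B) = 0 := rfl

lemma pt_some {x y : L} (h : (Wc A B).toAffine.Nonsingular x y) : pt A B x y = .some x y h := by
  simp [pt, h]

lemma pt_ne (hG : Good A B) {x y : L} (h : y ^ 2 = x ^ 3 + A * x + B) : pt A B x y ≠ 0 := by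
  rw [pt_some ((ns_iff hG x y).2 h)]; exact Affine.Point.some_ne_zero _

lemma xc_pt (hG : Good A B) {x y : L} (h : y ^ 2 = x ^ 3 + A * x + B) : xc (pt A B x y) = x := by
  rw [pt_some ((ns_iff hG x y).2 h)]; rfl

lemma yc_pt (hG : Good A B) {x y : L} (h : y ^ 2 = x ^ 3 + A * x + B) : yc (pt A B x y) = y := by
  rw [pt_some ((ns_iff hG x y).2 h)]; rfl

lemma eqn {P : Pt A B} (hP : P ≠ 0) : yc P ^ 2 = xc P ^ 3 + A * xc P + B := by
  rcases P with _ | ⟨x, y, h⟩
  · exact absurd rfl hP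
  · exact (eqn_iff x y).1 h.1

lemma pt_self {P : Pt A B} (hP : P ≠ 0) : pt A B (xc P) (yc P) = P := by
  rcases P with _ | ⟨x, y, h⟩
  · exact absurd rfl hP
  · exact pt_some h

lemma pt_ext {P Q : Pt A B} (hP : P ≠ 0) (hQ : Q ≠ 0) (hx : xc P = xc Q) (hy : yc P = yc Q) :
    P = Q := by
  rw [← pt_self hP, ← pt_self hQ, hx, hy]

@[simp] lemma xc_neg (P : Pt A B) : xc (-P) = xc P := by
  rcases P with _ | ⟨x, y, h⟩ <;> rfl

@[simp] lemma yc_neg (P : Pt A B) : yc (-P) = -yc P := by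
  rcases P with _ | ⟨x, y, h⟩
  · exact neg_zero.symm
  · change (Wc A B).toAffine.negY x y = -y
    simp [Wc, Affine.negY]

variable [DecidableEq L]

lemma eq_or_neg {P Q : Pt A B} (hP : P ≠ 0) (hQ : Q ≠ 0) (hx : xc P = xc Q) : P = Q ∨ P = -Q := by
  have h : (yc P - yc Q) * (yc P + yc Q) = 0 := by
    have h1 := eqn hP
    have h2 := eqn hQ
    rw [hx] at h1
    linear_combination h1 - h2
  rcases mul_eq_zero.1 h with h | h
  · exact Or.inl (pt_ext hP hQ hx (by linear_combination h))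
  · exact Or.inr (pt_ext hP (neg_ne_zero.2 hQ) (by simpa using hx)
      (by rw [yc_neg]; linear_combination h))

lemma col_of_sum {P Q R : Pt A B} (hP : P ≠ 0) (hQ : Q ≠ 0) (hR : R ≠ 0) (h : P + Q + R = 0) :
    ∃ l n : L, ColAt A B l n (xc P) (yc P) (xc Q) (yc Q) (xc R) (yc R) := by
  have hR' : R = -(P + Q) := by rw [eq_neg_iff_add_eq_zero, add_comm, h]
  have hPQ : P + Q ≠ 0 := fun h0 => hR (by rw [hR', h0, neg_zero])
  have e1 := eqn hP
  have e2 := eqn hQ
  rcases P with _ | ⟨x1, y1, h1⟩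
  · exact absurd rfl hP
  rcases Q with _ | ⟨x2, y2, h2⟩
  · exact absurd rfl hQ
  have hxy : ¬(x1 = x2 ∧ y1 = (Wc A B).toAffine.negY x2 y2) := fun hxy =>
    hPQ (Affine.Point.add_of_Y_eq hxy.1 hxy.2)
  rw [Affine.Point.add_some hxy] at hR'
  set l := (Wc A B).toAffine.slope x1 x2 y1 y2 with hl
  have hx3 : xc R = l ^ 2 - x1 - x2 := by
    rw [hR', xc_neg]
    change (Wc A B).toAffine.addX x1 x2 l = _
    simp [Wc, Affine.addX]
  have hy3 : yc R = l * (xc R - x1) + y1 := by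
    rw [hx3, hR', yc_neg]
    change -(Wc A B).toAffine.addY x1 x2 y1 l = _
    simp [Wc, Affine.addY, Affine.negAddY, Affine.negY, Affine.addX]
  change y1 ^ 2 = x1 ^ 3 + A * x1 + B at e1
  change y2 ^ 2 = x2 ^ 3 + A * x2 + B at e2
  change ∃ l n : L, ColAt A B l n x1 y1 x2 y2 (xc R) (yc R)
  have hneg : (Wc A B).toAffine.negY x2 y2 = -y2 := by simp [Wc, Affine.negY]
  have key : y2 = l * x2 + (y1 - l * x1) ∧ l * (y1 + y2) = x1 ^ 2 + x1 * x2 + x2 ^ 2 + A := by
    by_cases hx : x1 = x2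
    · have hy : y1 ≠ (Wc A B).toAffine.negY x2 y2 := fun hy => hxy ⟨hx, hy⟩
      have hyy : y1 = y2 := Affine.Y_eq_of_Y_ne h1.1 h2.1 hx hy
      have hl' := Affine.slope_of_Y_ne (W := (Wc A B).toAffine) hx hy
      rw [← hl] at hl'
      subst hx hyy
      rw [hneg] at hy hl'
      have hy' : y1 - -y1 ≠ 0 := sub_ne_zero.2 hy
      refine ⟨by ring, ?_⟩
      rw [eq_div_iff hy'] at hl'
      simp only [Wc] at hl'
      linear_combination hl'
    · have hl' := Affine.slope_of_X_ne (W := (Wc A B).toAffine) (y₁ := y1) (y₂ := y2) hx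
      rw [← hl, eq_div_iff (sub_ne_zero.2 hx)] at hl'
      refine ⟨by linear_combination hl', ?_⟩
      refine mul_left_cancel₀ (sub_ne_zero.2 hx) ?_
      linear_combination (y1 + y2) * hl' + e1 - e2
  refine ⟨l, y1 - l * x1, by ring, key.1, by rw [hy3]; ring, by rw [hx3]; ring, ?_, ?_⟩
  · rw [hx3]; linear_combination key.2 - l * key.1
  · rw [hx3]; linear_combination x1 * key.2 - x1 * l * key.1 - e1

lemma sum_of_col (hG : Good A B) {P Q R : Pt A B} (hP : P ≠ 0) (hQ : Q ≠ 0) (hR : R ≠ 0)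
    {l n : L} (h : ColAt A B l n (xc P) (yc P) (xc Q) (yc Q) (xc R) (yc R)) : P + Q + R = 0 := by
  have hy : xc P = xc Q → yc P + yc Q ≠ 0 := by
    intro hx hy
    have h1 : yc P = yc Q := by rw [h.h1, h.h2, hx]
    have h2 : yc P = 0 := by
      refine mul_left_cancel₀ hG.two ?_
      linear_combination hy + h1
    have h3 := h.slope
    have h4 := eqn hP
    rw [hy, ← hx] at h3
    rw [h2] at h4
    exact hG.not_sing (x := xc P) (by linear_combination -h4) (by linear_combination -h3)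
  have hPQ : P + Q ≠ 0 := by
    intro h0
    have h1 : P = -Q := eq_neg_of_add_eq_zero_left h0
    exact hy (by rw [h1, xc_neg]) (by rw [h1, yc_neg]; ring)
  obtain ⟨l', n', h'⟩ := col_of_sum hP hQ (neg_ne_zero.2 hPQ) (add_neg_cancel (P + Q))
  have hl : l = l' := by
    by_cases hx : xc P = xc Q
    · refine mul_right_cancel₀ (hy hx) ?_
      rw [h.slope, h'.slope]
    · refine mul_right_cancel₀ (sub_ne_zero.2 hx) ?_
      linear_combination h'.h1 - h'.h2 - h.h1 + h.h2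
  have hn : n = n' := by linear_combination h'.h1 - h.h1 - xc P * hl
  have hx : xc R = xc (-(P + Q)) := by linear_combination h.e1 - h'.e1 + (l + l') * hl
  have hR' : R = -(P + Q) := pt_ext hR (neg_ne_zero.2 hPQ) hx (by rw [h.h3, h'.h3, hx, hl, hn])
  rw [hR', add_neg_cancel]

/-- a map that respects zero, negation and collinear triples is additive -/
def homOf {G H : Type*} [AddCommGroup G] [AddCommGroup H] (g : G → H) (h0 : g 0 = 0)
    (hn : ∀ P, g (-P) = -g P)
    (h3 : ∀ P Q R, P ≠ 0 → Q ≠ 0 → R ≠ 0 → P + Q + R = 0 → g P + g Q + g R = 0) : G →+ H where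
  toFun := g
  map_zero' := h0
  map_add' P Q := by
    by_cases hP : P = 0
    · simp [hP, h0]
    by_cases hQ : Q = 0
    · simp [hQ, h0]
    by_cases hPQ : P + Q = 0
    · rw [hPQ, h0, eq_neg_of_add_eq_zero_left hPQ, hn, neg_add_cancel]
    have := h3 P Q (-(P + Q)) hP hQ (neg_ne_zero.2 hPQ) (add_neg_cancel _)
    rw [hn, ← sub_eq_add_neg, sub_eq_zero] at this
    exact this.symm

lemma pt_neg (hG : Good A B) {x y : L} (h : y ^ 2 = x ^ 3 + A * x + B) :
    pt A B x (-y) = -pt A B x y := by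
  have h' : (-y) ^ 2 = x ^ 3 + A * x + B := by rw [neg_sq, h]
  exact pt_ext (pt_ne hG h') (neg_ne_zero.2 (pt_ne hG h))
    (by rw [xc_neg, xc_pt hG h', xc_pt hG h]) (by rw [yc_neg, yc_pt hG h', yc_pt hG h])

section mapU
variable {M : Type*} [Field M] [DecidableEq M] {A' B' : M}

/-- data of a field embedding followed by a scaling -/
structure Sc (A B : L) (A' B' : M) where
  σ : L →+* M
  u : M
  hu : u ≠ 0
  hA : σ A = u ^ 4 * A'
  hB : σ B = u ^ 6 * B'
  good : Good A' B'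

omit [DecidableEq L] [DecidableEq M] in
lemma Sc.eqn (s : Sc A B A' B') {P : Pt A B} (hP : P ≠ 0) :
    (s.σ (yc P) / s.u ^ 3) ^ 2
      = (s.σ (xc P) / s.u ^ 2) ^ 3 + A' * (s.σ (xc P) / s.u ^ 2) + B' := by
  have h := congrArg s.σ (H81.eqn hP)
  simp only [map_pow, map_add, map_mul, s.hA, s.hB] at h
  have := s.hu
  field_simp
  linear_combination h

/-- the induced map on points -/
noncomputable def Sc.map (s : Sc A B A' B') : Pt A B →+ Pt A' B' :=
  homOf (fun P => if P = 0 then 0 else pt A' B' (s.σ (xc P) / s.u ^ 2) (s.σ (yc P) / s.u ^ 3))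
    (by simp)
    (by
      intro P
      by_cases hP : P = 0
      · simp [hP]
      · simp only [neg_eq_zero, hP, if_false, xc_neg, yc_neg, map_neg, neg_div]
        exact pt_neg s.good (s.eqn hP))
    (by
      intro P Q R hP hQ hR h
      simp only [hP, hQ, hR, if_false]
      obtain ⟨l, n, hc⟩ := col_of_sum hP hQ hR h
      have hc' := hc.map s.σ
      have hu := s.hu
      refine sum_of_col s.good (pt_ne s.good (s.eqn hP)) (pt_ne s.good (s.eqn hQ))
        (pt_ne s.good (s.eqn hR)) (l := s.σ l / s.u) (n := s.σ n / s.u ^ 3) ?_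
      simp only [xc_pt s.good (s.eqn hP), yc_pt s.good (s.eqn hP), xc_pt s.good (s.eqn hQ),
        yc_pt s.good (s.eqn hQ), xc_pt s.good (s.eqn hR), yc_pt s.good (s.eqn hR)]
      rw [s.hA, s.hB] at hc'
      refine ⟨?_, ?_, ?_, ?_, ?_, ?_⟩
      · field_simp; linear_combination hc'.h1
      · field_simp; linear_combination hc'.h2
      · field_simp; linear_combination hc'.h3
      · field_simp; linear_combination hc'.e1
      · field_simp; linear_combination hc'.e2
      · field_simp; linear_combination hc'.e3)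

lemma Sc.map_of_ne (s : Sc A B A' B') {P : Pt A B} (hP : P ≠ 0) :
    s.map P = pt A' B' (s.σ (xc P) / s.u ^ 2) (s.σ (yc P) / s.u ^ 3) := by
  simp [Sc.map, homOf, hP]

lemma Sc.map_ne (s : Sc A B A' B') {P : Pt A B} (hP : P ≠ 0) : s.map P ≠ 0 := by
  rw [s.map_of_ne hP]; exact pt_ne s.good (s.eqn hP)

lemma Sc.map_eq_zero (s : Sc A B A' B') {P : Pt A B} : s.map P = 0 ↔ P = 0 :=
  ⟨fun h => by_contra fun hP => s.map_ne hP h, fun h => by rw [h, map_zero]⟩

lemma Sc.injective (s : Sc A B A' B') : Function.Injective s.map :=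
  (injective_iff_map_eq_zero _).2 fun _ h => s.map_eq_zero.1 h

lemma Sc.xc_map (s : Sc A B A' B') (P : Pt A B) : xc (s.map P) = s.σ (xc P) / s.u ^ 2 := by
  by_cases hP : P = 0
  · simp [hP]
  · rw [s.map_of_ne hP, xc_pt s.good (s.eqn hP)]

lemma Sc.yc_map (s : Sc A B A' B') (P : Pt A B) : yc (s.map P) = s.σ (yc P) / s.u ^ 3 := by
  by_cases hP : P = 0
  · simp [hP]
  · rw [s.map_of_ne hP, yc_pt s.good (s.eqn hP)]

/-- a plain field embedding -/
def Sc.ofHom (σ : L →+* M) (hA : σ A = A') (hB : σ B = B') (hG : Good A' B') : Sc A B A' B' :=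
  ⟨σ, 1, one_ne_zero, by simp [hA], by simp [hB], hG⟩

lemma xc_ofHom (σ : L →+* M) (hA : σ A = A') (hB : σ B = B') (hG : Good A' B') (P : Pt A B) :
    xc ((Sc.ofHom σ hA hB hG).map P) = σ (xc P) := by
  rw [Sc.xc_map]; simp [Sc.ofHom]

lemma yc_ofHom (σ : L →+* M) (hA : σ A = A') (hB : σ B = B') (hG : Good A' B') (P : Pt A B) :
    yc ((Sc.ofHom σ hA hB hG).map P) = σ (yc P) := by
  rw [Sc.yc_map]; simp [Sc.ofHom]

omit [DecidableEq L] [DecidableEq M] in
lemma Good.map (hG : Good A B) (σ : L →+* M) : Good (σ A) (σ B) :=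
  ⟨by simpa [map_ofNat] using (map_ne_zero σ).2 hG.two,
    by simpa [map_ofNat] using (map_ne_zero σ).2 hG.disc⟩

end mapU

end Pool.Agent.MP_c481b3_nt.H81
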