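import Pool.Agent.MP_c481b3_nt.H81.Val

set_option autoImplicit false

namespace Pool.Agent.MP_c481b3_nt.H81

open Polynomial

variable {k : Type*} [Field k]

/-- polynomials as rational functions -/
noncomputable abbrev ap : k[X] →+* RatFunc k := algebraMap k[X] (RatFunc k)

lemma ap_inj : Function.Injective (ap : k[X] → RatFunc k) := IsFractionRing.injective _ _

lemma ap_ne {p : k[X]} (hp : p ≠ 0) : ap p ≠ 0 := (map_ne_zero_iff _ ap_inj).2 hp

lemma num_eq (r : RatFunc k) : ap r.num = r * ap r.denom := by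
  conv_rhs => rw [← r.num_div_denom]
  rw [RatFunc.num_div_denom, ← div_eq_iff (ap_ne r.denom_ne_zero), RatFunc.num_div_denom]

/-! ## The derivative of a rational function -/

/-- derivative -/
noncomputable def DD (r : RatFunc k) : RatFunc k :=
  ap (derivative r.num * r.denom - r.num * derivative r.denom) / ap r.denom ^ 2

lemma DD_div (p q : k[X]) (hq : q ≠ 0) :
    DD (ap p / ap q) = (ap (derivative p) * ap q - ap p * ap (derivative q)) / ap q ^ 2 := by
  set r : RatFunc k := ap p / ap q with hr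
  have h0 : r.num * q = p * r.denom := (RatFunc.num_mul_eq_mul_denom_iff hq).2 rfl
  have h1 := congrArg derivative h0
  rw [derivative_mul, derivative_mul] at h1
  rw [DD, div_eq_div_iff (pow_ne_zero _ (ap_ne r.denom_ne_zero)) (pow_ne_zero _ (ap_ne hq))]
  rw [← map_mul, ← map_mul, ← map_sub, ← map_pow, ← map_pow, ← map_mul, ← map_mul]
  congr 1
  linear_combination (r.denom * q) * h1
    - (derivative r.denom * q + derivative q * r.denom) * h0

lemma DD_ap (p : k[X]) : DD (ap p) = ap (derivative p) := by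
  have := DD_div p 1 one_ne_zero
  simpa using this

lemma DD_C (a : k) : DD (RatFunc.C a) = 0 := by
  rw [← RatFunc.algebraMap_C, DD_ap]; simp

lemma DD_zero : DD (0 : RatFunc k) = 0 := by simpa using DD_C (0 : k)

lemma DD_X : DD (RatFunc.X : RatFunc k) = 1 := by
  rw [← RatFunc.algebraMap_X, DD_ap]; simp

lemma DD_add (r s : RatFunc k) : DD (r + s) = DD r + DD s := by
  induction r using RatFunc.induction_on with | f p q hq => ?_
  induction s using RatFunc.induction_on with | f p' q' hq' => ?_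
  have h1 := ap_ne hq
  have h2 := ap_ne hq'
  have e : (ap p / ap q + ap p' / ap q' : RatFunc k) = ap (p * q' + q * p') / ap (q * q') := by
    simp only [map_add, map_mul]; field_simp
  rw [e, DD_div _ _ hq, DD_div _ _ hq', DD_div _ _ (mul_ne_zero hq hq')]
  simp only [derivative_add, derivative_mul, map_add, map_mul]
  field_simp
  ring

lemma DD_mul (r s : RatFunc k) : DD (r * s) = DD r * s + r * DD s := by
  induction r using RatFunc.induction_on with | f p q hq => ?_
  induction s using RatFunc.induction_on with | f p' q' hq' => ?_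
  have h1 := ap_ne hq
  have h2 := ap_ne hq'
  have e : (ap p / ap q * (ap p' / ap q') : RatFunc k) = ap (p * p') / ap (q * q') := by
    simp only [map_mul]; field_simp
  rw [e, DD_div _ _ hq, DD_div _ _ hq', DD_div _ _ (mul_ne_zero hq hq')]
  simp only [derivative_mul, map_add, map_mul]
  field_simp
  ring

lemma DD_C_mul (a : k) (r : RatFunc k) : DD (RatFunc.C a * r) = RatFunc.C a * DD r := by
  rw [DD_mul, DD_C]; ring

lemma DD_neg (r : RatFunc k) : DD (-r) = -DD r := by
  have := DD_add r (-r)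
  rw [add_neg_cancel, DD_zero] at this
  linear_combination -this

lemma DD_sub (r s : RatFunc k) : DD (r - s) = DD r - DD s := by
  rw [sub_eq_add_neg, DD_add, DD_neg, sub_eq_add_neg]

lemma DD_sum {ι : Type*} (s : Finset ι) (g : ι → RatFunc k) :
    DD (∑ i ∈ s, g i) = ∑ i ∈ s, DD (g i) := by
  classical
  induction s using Finset.induction_on with
  | empty => simpa using DD_zero
  | insert a s ha ih => rw [Finset.sum_insert ha, Finset.sum_insert ha, DD_add, ih]

lemma DD_sq (r : RatFunc k) : DD (r ^ 2) = 2 * r * DD r := by rw [sq, DD_mul]; ring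

lemma DD_two_mul (r : RatFunc k) : DD (2 * r) = 2 * DD r := by
  rw [two_mul, DD_add, two_mul]

variable [DecidableEq (RatFunc k)]

/-- the valuation at infinity -/
noncomputable abbrev vi : Valuation (RatFunc k) (WithZero (Multiplicative ℤ)) :=
  RatFunc.inftyValuation k

lemma vi_ap {p : k[X]} (hp : p ≠ 0) : vi (ap p) = WithZero.exp (p.natDegree : ℤ) :=
  RatFunc.inftyValuation.polynomial k hp

lemma vi_C (a : k) : vi (RatFunc.C a) ≤ 1 := by
  by_cases ha : a = 0
  · simp [ha]
  · exact (RatFunc.inftyValuation.C k ha).le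

lemma vi_X : vi (RatFunc.X : RatFunc k) = WithZero.exp 1 := RatFunc.inftyValuation.X k

lemma one_lt_vi_X : 1 < vi (RatFunc.X : RatFunc k) := by
  rw [vi_X, ← WithZero.exp_zero, WithZero.exp_lt_exp]; norm_num

lemma vi_eq {r : RatFunc k} (hr : r ≠ 0) :
    vi r = WithZero.exp ((r.num.natDegree : ℤ) - r.denom.natDegree) :=
  RatFunc.inftyValuation_of_nonzero k hr

lemma vi_deriv (p : k[X]) : vi (ap (derivative p)) * vi (RatFunc.X : RatFunc k) ≤ vi (ap p) := by
  by_cases h : derivative p = 0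
  · simp [h]
  have hp : p ≠ 0 := by rintro rfl; simp at h
  have h0 : p.natDegree ≠ 0 := by
    intro h0
    exact h (derivative_of_natDegree_zero h0)
  have := natDegree_derivative_lt h0
  rw [vi_ap h, vi_ap hp, vi_X, ← WithZero.exp_add, WithZero.exp_le_exp]
  omega

lemma vi_DD (r : RatFunc k) : vi (DD r) * vi (RatFunc.X : RatFunc k) ≤ vi r := by
  induction r using RatFunc.induction_on with | f p q hq => ?_
  have h0 : 0 < vi (ap q) := (vi (k := k)).pos_iff.2 (ap_ne hq)
  rw [DD_div _ _ hq, map_div₀, map_div₀, map_pow, div_mul_eq_mul_div, div_le_div_iff₀ (pow_pos h0 2) h0,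
    ← map_mul, sub_mul, sq, ← mul_assoc]
  refine mul_le_mul_of_nonneg_right ((vi (k := k)).map_sub_le ?_ ?_) h0.le
  · rw [map_mul, map_mul, mul_right_comm]
    exact mul_le_mul_of_nonneg_right (vi_deriv p) h0.le
  · rw [map_mul, map_mul, mul_assoc]
    exact mul_le_mul_of_nonneg_left (vi_deriv q) zero_le

omit [DecidableEq (RatFunc k)] in
/-- the cubic -/
noncomputable def ff (A B : k) : RatFunc k :=
  RatFunc.X ^ 3 + RatFunc.C A * RatFunc.X + RatFunc.C B

variable {A B : k}

lemma vi_ff : vi (ff A B) = vi (RatFunc.X : RatFunc k) ^ 3 :=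
  v_cubic vi (vi_C A) (vi_C B) one_lt_vi_X

lemma ff_ne : ff A B ≠ 0 := by
  intro h
  have := vi_ff (A := A) (B := B)
  rw [h, map_zero] at this
  exact (pow_pos (lt_trans zero_lt_one one_lt_vi_X) 3).ne this

/-- points of the quadratic twist by the cubic -/
abbrev Tw (A B : k) := Pt (RatFunc.C A * ff A B ^ 2) (RatFunc.C B * ff A B ^ 3)

lemma Good.tw (hG : Good A B) : Good (RatFunc.C A * ff A B ^ 2) (RatFunc.C B * ff A B ^ 3) := by
  have h := hG.map (RatFunc.C (K := k))
  refine ⟨h.two, ?_⟩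
  have : 4 * (RatFunc.C A * ff A B ^ 2) ^ 3 + 27 * (RatFunc.C B * ff A B ^ 3) ^ 2
      = (4 * RatFunc.C A ^ 3 + 27 * RatFunc.C B ^ 2) * ff A B ^ 6 := by ring
  rw [this]
  exact mul_ne_zero h.disc (pow_ne_zero _ ff_ne)

omit [DecidableEq (RatFunc k)] in
/-- first coordinate of the rational map -/
noncomputable def Rr (h : Tw A B) : RatFunc k := xc h / ff A B

omit [DecidableEq (RatFunc k)] in
/-- second coordinate of the rational map, divided by `y` -/
noncomputable def Ss (h : Tw A B) : RatFunc k := yc h / ff A B ^ 2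

omit [DecidableEq (RatFunc k)] in
@[simp] lemma Rr_zero : Rr (0 : Tw A B) = 0 := by simp [Rr]
omit [DecidableEq (RatFunc k)] in
@[simp] lemma Ss_zero : Ss (0 : Tw A B) = 0 := by simp [Ss]
omit [DecidableEq (RatFunc k)] in
@[simp] lemma Rr_neg (h : Tw A B) : Rr (-h) = Rr h := by simp [Rr]
omit [DecidableEq (RatFunc k)] in
@[simp] lemma Ss_neg (h : Tw A B) : Ss (-h) = -Ss h := by simp [Ss, neg_div]

lemma eqnT {h : Tw A B} (h0 : h ≠ 0) :
    ff A B * Ss h ^ 2 = Rr h ^ 3 + RatFunc.C A * Rr h + RatFunc.C B := by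
  have := eqn h0
  have hf := ff_ne (A := A) (B := B)
  simp only [Rr, Ss]
  field_simp
  linear_combination this

lemma colT {h1 h2 h3 : Tw A B} (n1 : h1 ≠ 0) (n2 : h2 ≠ 0) (n3 : h3 ≠ 0) (h : h1 + h2 + h3 = 0) :
    ∃ l m : RatFunc k, Ss h1 = l * Rr h1 + m ∧ Ss h2 = l * Rr h2 + m ∧ Ss h3 = l * Rr h3 + m ∧
      Rr h1 + Rr h2 + Rr h3 = ff A B * l ^ 2 ∧
      Rr h1 * Rr h2 + Rr h1 * Rr h3 + Rr h2 * Rr h3 = RatFunc.C A - 2 * (ff A B * (l * m)) ∧
      Rr h1 * Rr h2 * Rr h3 = ff A B * m ^ 2 - RatFunc.C B := by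
  obtain ⟨l, n, hc⟩ := col_of_sum n1 n2 n3 h
  have hf := ff_ne (A := A) (B := B)
  refine ⟨l / ff A B, n / ff A B ^ 2, ?_, ?_, ?_, ?_, ?_, ?_⟩ <;> simp only [Rr, Ss] <;> field_simp
  · exact hc.h1
  · exact hc.h2
  · exact hc.h3
  · exact hc.e1
  · linear_combination hc.e2
  · linear_combination hc.e3

/-- rational maps fixing the origin -/
noncomputable def Hinf (A B : k) : AddSubgroup (Tw A B) where
  carrier := {h | h = 0 ∨ 1 < vi (Rr h)}
  zero_mem' := Or.inl rfl
  neg_mem' := by
    rintro h (rfl | hh)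
    · exact Or.inl neg_zero
    · exact Or.inr (by rwa [Rr_neg])
  add_mem' := by
    intro h1 h2 a1 a2
    by_cases n1 : h1 = 0
    · simpa [n1] using a2
    by_cases n2 : h2 = 0
    · simpa [n2] using a1
    by_cases n3 : h1 + h2 = 0
    · exact Or.inl n3
    have b1 := a1.resolve_left n1
    have b2 := a2.resolve_left n2
    obtain ⟨l, m, -, -, -, e1, e2, e3⟩ := colT n1 n2 (neg_ne_zero.2 n3) (add_neg_cancel _)
    rw [Rr_neg] at e1 e2 e3
    exact Or.inr (lt_of_lt_of_le (lt_min b1 b2) (closure vi (vi_C A) (vi_C B)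
      (by rw [e1, e2, e3]; ring) (lt_min b1 b2) (min_le_left _ _) (min_le_right _ _)))

lemma Hinf.lt {h : Tw A B} (hh : h ∈ Hinf A B) (h0 : h ≠ 0) : 1 < vi (Rr h) :=
  Or.resolve_left hh h0

lemma Hinf.S_ne {h : Tw A B} (hh : h ∈ Hinf A B) (h0 : h ≠ 0) : Ss h ≠ 0 := by
  intro hS
  have h1 := eqnT h0
  have h2 := v_cubic vi (vi_C A) (vi_C B) (Hinf.lt hh h0)
  rw [← h1, hS] at h2
  simp only [ne_eq, OfNat.ofNat_ne_zero, not_false_eq_true, zero_pow, mul_zero, map_zero] at h2
  exact (pow_pos (lt_trans zero_lt_one (Hinf.lt hh h0)) 3).ne h2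

lemma Hinf.R_ne {h : Tw A B} (hh : h ∈ Hinf A B) (h0 : h ≠ 0) : Rr h ≠ 0 := by
  intro hR
  have := Hinf.lt hh h0
  rw [hR, map_zero] at this
  exact absurd this (not_lt.2 zero_le)

lemma Hinf.deg_lt {h : Tw A B} (hh : h ∈ Hinf A B) (h0 : h ≠ 0) :
    (Rr h).denom.natDegree < (Rr h).num.natDegree := by
  have := Hinf.lt hh h0
  rw [vi_eq (Hinf.R_ne hh h0), ← WithZero.exp_zero, WithZero.exp_lt_exp] at this
  omega

omit [DecidableEq (RatFunc k)] in
/-- action on the invariant differential -/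
noncomputable def cc (h : Tw A B) : RatFunc k := DD (Rr h) / Ss h

/-- additivity of the action on the invariant differential -/
noncomputable def ccHom (A B : k) : Hinf A B →+ RatFunc k :=
  homOf (fun h => cc h.1) (by simp [cc]) (by intro h; simp [cc, div_neg])
    (by
      rintro ⟨h1, a1⟩ ⟨h2, a2⟩ ⟨h3, a3⟩ n1 n2 n3 h
      have n1' : h1 ≠ 0 := fun e => n1 (Subtype.ext e)
      have n2' : h2 ≠ 0 := fun e => n2 (Subtype.ext e)
      have n3' : h3 ≠ 0 := fun e => n3 (Subtype.ext e)
      obtain ⟨l, m, s1, s2, s3, e1, e2, e3⟩ := colT n1' n2' n3' (congrArg Subtype.val h)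
      have d1 := congrArg DD e1
      have d2 := congrArg DD e2
      have d3 := congrArg DD e3
      simp only [DD_add, DD_sub, DD_mul (Rr _), DD_mul (Rr _ * Rr _), DD_mul (ff A B), DD_two_mul,
        DD_sq, DD_C, DD_mul l] at d1 d2 d3
      have t1 := Hinf.S_ne a1 n1'
      have t2 := Hinf.S_ne a2 n2'
      have t3 := Hinf.S_ne a3 n3'
      simp only [cc]
      field_simp
      rw [s1, s2, s3]
      linear_combination l ^ 2 * d3 + l * m * d2 + m ^ 2 * d1)

lemma cc_sub_zsmul {h g : Tw A B} (hh : h ∈ Hinf A B) (hg : g ∈ Hinf A B) (t : ℤ) :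
    cc (h - t • g) = cc h - t * cc g := by
  have := (ccHom A B).map_sub ⟨h, hh⟩ (t • ⟨g, hg⟩)
  rw [map_zsmul, zsmul_eq_mul] at this
  exact this

/-! ## Degrees -/

omit [DecidableEq (RatFunc k)] in
lemma dvd_of_three [IsAlgClosed k] {p q r t u : k[X]}
    (h : ∀ x, p.eval x = 0 → q.eval x = 0 → r.eval x = 0 → False)
    (h1 : u ∣ p * t) (h2 : u ∣ q * t) (h3 : u ∣ r * t) : u ∣ t := by
  classical
  set g := EuclideanDomain.gcd (EuclideanDomain.gcd p q) r with hg
  have hu : IsUnit g := by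
    rw [isUnit_iff_degree_eq_zero]
    by_contra hd
    obtain ⟨x, hx⟩ := IsAlgClosed.exists_root g hd
    have a := EuclideanDomain.gcd_dvd_left (EuclideanDomain.gcd p q) r
    exact h x (hx.dvd (a.trans (EuclideanDomain.gcd_dvd_left p q)))
      (hx.dvd (a.trans (EuclideanDomain.gcd_dvd_right p q)))
      (hx.dvd (EuclideanDomain.gcd_dvd_right _ r))
  rw [← hu.dvd_mul_left, hg, EuclideanDomain.gcd_eq_gcd_ab, EuclideanDomain.gcd_eq_gcd_ab p q]
  generalize EuclideanDomain.gcdA _ r = a
  generalize EuclideanDomain.gcdB _ r = b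
  generalize EuclideanDomain.gcdA p q = c
  generalize EuclideanDomain.gcdB p q = d
  have : ((p * c + q * d) * a + r * b) * t = (p * t) * (c * a) + (q * t) * (d * a) + (r * t) * b := by
    ring
  rw [this]
  exact dvd_add (dvd_add (h1.mul_right _) (h2.mul_right _)) (h3.mul_right _)

omit [DecidableEq (RatFunc k)] in
lemma cop_eval {a b : k[X]} (h : IsCoprime a b) (x : k) (ha : a.eval x = 0) (hb : b.eval x = 0) :
    False := by
  obtain ⟨u, v, e⟩ := h
  have := congrArg (eval x) e
  simp [ha, hb] at this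

omit [DecidableEq (RatFunc k)] in
lemma deg_par [IsAlgClosed k] (hG : Good A B) {a b c d e g e' g' : k[X]} (ab : IsCoprime a b)
    (cd : IsCoprime c d) (eg : IsCoprime e g) (eg' : IsCoprime e' g')
    (hb : b.natDegree < a.natDegree) (hd : d.natDegree < c.natDegree) (he : e ≠ 0) (he' : e' ≠ 0)
    (h0 : (a * d - b * c) ^ 2 * (e * e')
      = ((a * c - C A * (b * d)) ^ 2 - C (4 * B) * ((b * d) * (a * d + b * c))) * (g * g'))
    (h1 : (2 * (a * c + C A * (b * d)) * (a * d + b * c) + 4 * C B * (b * d) ^ 2) * (e * e')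
      = ((a * c - C A * (b * d)) ^ 2 - C (4 * B) * ((b * d) * (a * d + b * c)))
        * (e * g' + e' * g)) :
    e.natDegree + e'.natDegree = 2 * a.natDegree + 2 * c.natDegree := by
  set s2 := (a * c - C A * (b * d)) ^ 2 - C (4 * B) * ((b * d) * (a * d + b * c)) with hs2
  have d1 : s2 ∣ e * e' := by
    refine dvd_of_three (p := (a * d - b * c) ^ 2)
      (q := 2 * (a * c + C A * (b * d)) * (a * d + b * c) + 4 * C B * (b * d) ^ 2) (r := s2) ?_
      (by rw [h0]; exact dvd_mul_right _ _) (by rw [h1]; exact dvd_mul_right _ _)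
      (dvd_mul_right _ _)
    intro x x0 x1 x2
    simp only [hs2, eval_pow, eval_sub, eval_mul, eval_add, eval_C, eval_ofNat] at x0 x1 x2
    have x0' := pow_eq_zero_iff two_ne_zero |>.1 x0
    by_cases hbx : b.eval x = 0
    · have hax : a.eval x ≠ 0 := fun h => cop_eval ab x h hbx
      rw [hbx] at x0' x2
      have hdx : d.eval x = 0 := by simpa [hax] using x0'
      have hcx : c.eval x ≠ 0 := fun h => cop_eval cd x h hdx
      simp [hax, hcx] at x2
    · have hdx : d.eval x ≠ 0 := by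
        intro hdx
        rw [hdx] at x0'
        exact cop_eval cd x (by simpa [hbx] using x0') hdx
      obtain ⟨z, hz⟩ : ∃ z, a.eval x = z * b.eval x := ⟨a.eval x / b.eval x, by field_simp⟩
      have hz' : c.eval x = z * d.eval x := by
        refine mul_left_cancel₀ hbx ?_
        rw [hz] at x0'
        linear_combination -x0'
      rw [hz, hz'] at x1 x2
      have hbd := pow_ne_zero 2 (mul_ne_zero hbx hdx)
      have y1 : z ^ 3 + A * z + B = 0 := by
        refine mul_left_cancel₀ (mul_ne_zero (pow_ne_zero 2 hG.two) hbd) ?_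
        linear_combination x1
      have y2 : (3 * z ^ 2 + A) ^ 2 = 0 := by
        refine mul_left_cancel₀ hbd ?_
        linear_combination x2 + 8 * z * (eval x b * eval x d) ^ 2 * y1
      exact hG.not_sing y1 (pow_eq_zero_iff two_ne_zero |>.1 y2)
  have d2 : e * e' ∣ s2 := by
    refine dvd_of_three (p := g * g') (q := e * g' + e' * g) (r := e * e') ?_
      (by rw [mul_comm (g * g'), ← h0]; exact dvd_mul_left _ _)
      (by rw [mul_comm (e * g' + e' * g), ← h1]; exact dvd_mul_left _ _) (dvd_mul_right _ _)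
    intro x x0 x1 x2
    simp only [eval_mul, eval_add] at x0 x1 x2
    rcases mul_eq_zero.1 x2 with h | h
    · have hg : g.eval x ≠ 0 := fun h' => cop_eval eg x h h'
      rw [h] at x1
      exact cop_eval eg' x (by simpa [hg] using x1) (by simpa [hg] using x0)
    · have hg : g'.eval x ≠ 0 := fun h' => cop_eval eg' x h h'
      rw [h] at x1
      exact cop_eval eg x (by simpa [hg] using x1) (by simpa [hg] using x0)
  have ha : a ≠ 0 := by rintro rfl; simp at hb
  have hc : c ≠ 0 := by rintro rfl; simp at hd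
  have g1 : (b * d).natDegree ≤ b.natDegree + d.natDegree := natDegree_mul_le
  have g2 : (a * c - C A * (b * d)).natDegree = a.natDegree + c.natDegree := by
    rw [natDegree_sub_eq_left_of_natDegree_lt, natDegree_mul ha hc]
    rw [natDegree_mul ha hc]
    exact lt_of_le_of_lt (natDegree_C_mul_le _ _) (by omega)
  have g3 : (a * d + b * c).natDegree ≤ a.natDegree + c.natDegree := by
    refine (natDegree_add_le _ _).trans (max_le ?_ ?_)
    · exact natDegree_mul_le.trans (by omega)
    · exact natDegree_mul_le.trans (by omega)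
  have g4 : s2.natDegree = 2 * (a.natDegree + c.natDegree) := by
    rw [hs2, natDegree_sub_eq_left_of_natDegree_lt, natDegree_pow, g2]
    rw [natDegree_pow, g2]
    exact lt_of_le_of_lt ((natDegree_C_mul_le _ _).trans natDegree_mul_le) (by omega)
  have hs0 : s2 ≠ 0 := by
    intro h
    rw [h, natDegree_zero] at g4
    omega
  have g5 := natDegree_le_of_dvd d1 (mul_ne_zero he he')
  have g6 := natDegree_le_of_dvd d2 hs0
  rw [natDegree_mul he he'] at g5 g6
  omega

omit [DecidableEq (RatFunc k)] in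
/-- degree of a rational map -/
noncomputable def dg (h : Tw A B) : ℕ := (Rr h).num.natDegree

lemma dg_double [IsAlgClosed k] (hG : Good A B) {h : Tw A B} (hh : h ∈ Hinf A B) (h0 : h ≠ 0) :
    dg (h + h) = 4 * dg h := by
  have n3 : h + h ≠ 0 := by
    intro e
    have e1 : h = -h := eq_neg_of_add_eq_zero_left e
    have e2 : Ss h = -Ss h := by rw [← Ss_neg, ← e1]
    exact mul_ne_zero hG.tw.two (Hinf.S_ne hh h0) (by linear_combination e2)
  obtain ⟨l, m, s1, -, -, e1, e2, -⟩ := colT h0 h0 (neg_ne_zero.2 n3) (add_neg_cancel _)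
  rw [Rr_neg] at e1 e2
  have q := eqnT h0
  have rel : (2 * (Rr h * Rr h + RatFunc.C A) * (Rr h + Rr h) + 4 * RatFunc.C B) * Rr (h + h)
      = (Rr h * Rr h - RatFunc.C A) ^ 2 - 4 * RatFunc.C B * (Rr h + Rr h) := by
    have sl : ff A B * l * (2 * Ss h) = 3 * Rr h ^ 2 + RatFunc.C A := by
      rw [s1]; linear_combination e2 - 2 * Rr h * e1
    have e3 : Rr (h + h) = ff A B * l ^ 2 - 2 * Rr h := by linear_combination e1
    rw [e3]
    linear_combination (ff A B * l * (2 * Ss h) + (3 * Rr h ^ 2 + RatFunc.C A)) * sl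
      - 4 * (ff A B * l ^ 2) * q
  have := deg_par hG (Rr h).isCoprime_num_denom (Rr h).isCoprime_num_denom
    (Rr (h + h)).isCoprime_num_denom (isCoprime_one_left (x := (0 : k[X]))) (Hinf.deg_lt hh h0)
    (Hinf.deg_lt hh h0) (RatFunc.num_ne_zero (Hinf.R_ne (add_mem hh hh) n3)) one_ne_zero
    (by ring)
    (by
      apply ap_inj
      simp only [map_add, map_sub, map_mul, map_pow, num_eq, RatFunc.algebraMap_C, map_ofNat,
        map_one, map_zero]
      linear_combination ap (Rr h).denom ^ 4 * ap (Rr (h + h)).denom * rel)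
  simp only [dg]
  rw [natDegree_one] at this
  omega

lemma dg_par [IsAlgClosed k] (hG : Good A B) {h g : Tw A B} (hh : h ∈ Hinf A B)
    (hg : g ∈ Hinf A B) : dg (h + g) + dg (h - g) = 2 * dg h + 2 * dg g := by
  have z : dg (0 : Tw A B) = 0 := by simp [dg]
  have ng : ∀ x : Tw A B, dg (-x) = dg x := fun x => by simp only [dg, Rr_neg]
  by_cases h0 : h = 0
  · subst h0; rw [zero_add, zero_sub, ng, z]; omega
  by_cases g0 : g = 0
  · subst g0; rw [add_zero, sub_zero, z]; omega
  by_cases n4 : h - g = 0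
  · obtain rfl := sub_eq_zero.1 n4
    rw [n4, z, dg_double hG hh h0]; omega
  by_cases n3 : h + g = 0
  · obtain rfl := eq_neg_of_add_eq_zero_right n3
    rw [n3, z, sub_neg_eq_add, ng, dg_double hG hh h0]; omega
  obtain ⟨l, m, s1, s2, -, e1, -, -⟩ := colT h0 g0 (neg_ne_zero.2 n3) (add_neg_cancel _)
  obtain ⟨l', m', s1', s2', -, e1', -, -⟩ := colT h0 (neg_ne_zero.2 g0) (neg_ne_zero.2 n4)
    (by abel)
  simp only [Rr_neg, Ss_neg] at e1 e1' s2'
  have q1 := eqnT h0
  have q2 := eqnT g0
  have hne : Rr h - Rr g ≠ 0 := by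
    intro e
    have hf := ff_ne (A := A) (B := B)
    have : xc h = xc g := by
      have := sub_eq_zero.1 e
      simp only [Rr] at this
      field_simp at this
      exact this
    rcases eq_or_neg h0 g0 this with e' | e'
    · exact n4 (by rw [e', sub_self])
    · exact n3 (by rw [e', neg_add_cancel])
  have t1 : l * (Rr h - Rr g) = Ss h - Ss g := by linear_combination s2 - s1
  have t2 : l' * (Rr h - Rr g) = Ss h + Ss g := by linear_combination s2' - s1'
  have u1 : (Rr h - Rr g) ^ 2 * Rr (h + g)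
      = ff A B * (Ss h - Ss g) ^ 2 - (Rr h + Rr g) * (Rr h - Rr g) ^ 2 := by
    rw [← t1]; linear_combination (Rr h - Rr g) ^ 2 * e1
  have u2 : (Rr h - Rr g) ^ 2 * Rr (h - g)
      = ff A B * (Ss h + Ss g) ^ 2 - (Rr h + Rr g) * (Rr h - Rr g) ^ 2 := by
    rw [← t2]; linear_combination (Rr h - Rr g) ^ 2 * e1'
  have r1 : (Rr h - Rr g) ^ 2 * (Rr (h + g) + Rr (h - g))
      = 2 * (Rr h * Rr g + RatFunc.C A) * (Rr h + Rr g) + 4 * RatFunc.C B := by
    linear_combination u1 + u2 + 2 * q1 + 2 * q2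
  have r2 : (Rr h - Rr g) ^ 2 * (Rr (h + g) * Rr (h - g))
      = (Rr h * Rr g - RatFunc.C A) ^ 2 - 4 * RatFunc.C B * (Rr h + Rr g) := by
    refine mul_left_cancel₀ (pow_ne_zero 2 hne) ?_
    have w1 : (Rr h - Rr g) ^ 2 * Rr (h + g) = (Rr h * Rr g + RatFunc.C A) * (Rr h + Rr g)
        + 2 * RatFunc.C B - 2 * ff A B * Ss h * Ss g := by linear_combination u1 + q1 + q2
    have w2 : (Rr h - Rr g) ^ 2 * Rr (h - g) = (Rr h * Rr g + RatFunc.C A) * (Rr h + Rr g)
        + 2 * RatFunc.C B + 2 * ff A B * Ss h * Ss g := by linear_combination u2 + q1 + q2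
    have w3 : (Rr h - Rr g) ^ 2 * ((Rr h - Rr g) ^ 2 * (Rr (h + g) * Rr (h - g)))
        = ((Rr h - Rr g) ^ 2 * Rr (h + g)) * ((Rr h - Rr g) ^ 2 * Rr (h - g)) := by ring
    rw [w3, w1, w2]
    linear_combination -4 * (ff A B * Ss g ^ 2) * q1
      - 4 * (Rr h ^ 3 + RatFunc.C A * Rr h + RatFunc.C B) * q2
  have := deg_par hG (Rr h).isCoprime_num_denom (Rr g).isCoprime_num_denom
    (Rr (h + g)).isCoprime_num_denom (Rr (h - g)).isCoprime_num_denom (Hinf.deg_lt hh h0)
    (Hinf.deg_lt hg g0) (RatFunc.num_ne_zero (Hinf.R_ne (add_mem hh hg) n3))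
    (RatFunc.num_ne_zero (Hinf.R_ne (sub_mem hh hg) n4))
    (by
      apply ap_inj
      simp only [map_add, map_sub, map_mul, map_pow, num_eq, RatFunc.algebraMap_C, map_ofNat]
      linear_combination ap (Rr h).denom ^ 2 * ap (Rr g).denom ^ 2 * ap (Rr (h + g)).denom
        * ap (Rr (h - g)).denom * r2)
    (by
      apply ap_inj
      simp only [map_add, map_sub, map_mul, map_pow, num_eq, RatFunc.algebraMap_C, map_ofNat]
      linear_combination ap (Rr h).denom ^ 2 * ap (Rr g).denom ^ 2 * ap (Rr (h + g)).denom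
        * ap (Rr (h - g)).denom * ((Rr (h + g) + Rr (h - g)) * r2
          - (Rr (h + g) * Rr (h - g)) * r1))
  exact this

lemma dg_quad [IsAlgClosed k] (hG : Good A B) {h g : Tw A B} (hh : h ∈ Hinf A B)
    (hg : g ∈ Hinf A B) (t : ℤ) :
    (dg (h - t • g) : ℤ) = dg h - t * (dg h + dg g - dg (h - g)) + t ^ 2 * dg g := by
  have hrec : ∀ t : ℤ, (dg (h - (t - 1) • g) : ℤ) + dg (h - (t + 1) • g)
      = 2 * dg (h - t • g) + 2 * dg g := by
    intro t
    have := dg_par hG (sub_mem hh (zsmul_mem hg t)) hg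
    rw [show h - t • g + g = h - (t - 1) • g by rw [sub_smul, one_smul]; abel,
      show h - t • g - g = h - (t + 1) • g by rw [add_one_zsmul]; abel] at this
    exact_mod_cast this
  have key : ∀ t : ℤ, ((dg (h - t • g) : ℤ) = dg h - t * (dg h + dg g - dg (h - g)) + t ^ 2 * dg g)
      ∧ ((dg (h - (t + 1) • g) : ℤ)
        = dg h - (t + 1) * (dg h + dg g - dg (h - g)) + (t + 1) ^ 2 * dg g) := by
    intro t
    induction t using Int.induction_on with
    | zero => simp; ring
    | succ i ih =>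
      refine ⟨ih.2, ?_⟩
      have := hrec (i + 1)
      rw [add_sub_cancel_right] at this
      linear_combination this - ih.1 + 2 * ih.2
    | pred i ih =>
      refine ⟨?_, by rw [sub_add_cancel]; exact ih.1⟩
      have := hrec (-i)
      linear_combination this - ih.2 + 2 * ih.1
  exact (key t).1

end Pool.Agent.MP_c481b3_nt.H81
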