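import Pool.Agent.MP_c481b3_nt.H81.Ind

set_option autoImplicit false

namespace Pool.Agent.MP_c481b3_nt.H81

open Polynomial

variable {k : Type*} [Field k] {A B : k}

/-- Every nonconstant map `(x, y) ↦ (r₁(x)/r₂(x), y s₁(x)/s₂(x))` of `y^2 = x^3 + A x + B` to itself
that fixes the point at infinity is multiplication by an integer. -/
def NoCM {k : Type*} [Field k] [DecidableEq k] (A B : k) : Prop :=
  ∀ r₁ r₂ s₁ s₂ : k[X], r₂ ≠ 0 → s₂ ≠ 0 → r₂.natDegree < r₁.natDegree →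
    (X ^ 3 + C A * X + C B) * s₁ ^ 2 * r₂ ^ 3
      = s₂ ^ 2 * (r₁ ^ 3 + C A * r₁ * r₂ ^ 2 + C B * r₂ ^ 3) →
    ∃ n : ℤ, ∀ (x y : k) (h : (Wc A B).toAffine.Nonsingular x y), r₂.eval x ≠ 0 → s₂.eval x ≠ 0 →
      ∃ h' : (Wc A B).toAffine.Nonsingular (r₁.eval x / r₂.eval x) (y * (s₁.eval x / s₂.eval x)),
        n • WeierstrassCurve.Affine.Point.some x y h
          = WeierstrassCurve.Affine.Point.some (r₁.eval x / r₂.eval x)
            (y * (s₁.eval x / s₂.eval x)) h'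

section aux
variable [DecidableEq (RatFunc k)]

lemma cc_zsmul (hG : Good A B) (t : ℤ) : cc (t • g1 A B) = RatFunc.C (t : k) := by
  have := cc_sub_zsmul (zero_mem _) (g1_mem hG) (-t)
  rw [cc_g1 hG, neg_smul, zero_sub, neg_neg] at this
  rw [this]; simp [cc]

lemma dg_zsmul [IsAlgClosed k] (hG : Good A B) (t : ℤ) : (dg (t • g1 A B) : ℤ) = t ^ 2 := by
  have := dg_quad hG (zero_mem _) (g1_mem hG) (-t)
  have z : dg (0 : Tw A B) = 0 := by simp [dg]
  have ng : dg (-g1 A B) = 1 := by rw [← dg_g1 hG]; simp only [dg, Rr_neg]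
  rw [neg_smul, zero_sub, neg_neg, zero_sub, z, ng, dg_g1 hG] at this
  rw [this]; push_cast; ring

end aux

variable [DecidableEq k] [IsAlgClosed k]

theorem torsion_card (hG : Good A B) (h3 : (3 : k) ≠ 0) {t : ℤ} (ht : (t : k) ≠ 0) :
    ∃ C : Finset (Pt A B), (∀ P, P ∈ C ↔ t • P = 0) ∧ (C.card : ℤ) = t ^ 2 := by
  classical
  obtain ⟨C, h1, h2, -⟩ := (Ind.zsmul hG t).kernel (zsmul_mem (g1_mem hG) t) ht (cc_zsmul hG t) h3
  exact ⟨C, by simpa using h1, by rw [h2, dg_zsmul hG]⟩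

theorem frob_kernel (hG : Good A B) (h3 : (3 : k) ≠ 0) (p n : ℕ) [Fact p.Prime] [CharP k p]
    (hn : n ≠ 0) (hA : A ^ p ^ n = A) (hB : B ^ p ^ n = B) {t : ℤ} (ht : (t : k) ≠ 0) :
    ∃ C : Finset (Pt A B), IsSub C ∧ (C.card : ℤ) = t ^ 2
      - (p ^ n + 1 - Nat.card {P : Pt A B // xc P ^ p ^ n = xc P ∧ yc P ^ p ^ n = yc P}) * t + p ^ n
      ∧ vA C = t ^ 4 * A ∧ vB C = t ^ 6 * B := by
  classical
  have hp2 : p ≠ 2 := by
    rintro rfl
    exact hG.two (by simpa using CharP.cast_eq_zero k 2)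
  obtain ⟨m, hm⟩ : Odd (p ^ n) := ((Fact.out : p.Prime).odd_of_ne_two hp2).pow
  have q1 : 1 < p ^ n := Nat.one_lt_pow hn (Fact.out : p.Prime).one_lt
  have q0 : ((p ^ n : ℕ) : k) = 0 := by simp [hn]
  have hA' : (cL A) ^ p ^ n = cL A := by rw [← map_pow, hA]
  have hB' : (cL B) ^ p ^ n = cL B := by rw [← map_pow, hB]
  set φ := (Sc.ofHom (iterateFrobenius k p n) hA hB hG).map with hφ
  set ψ := (Sc.ofHom (iterateFrobenius (LL k) p n) hA' hB' (hG.map cL)).map with hψ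
  have x1 : ∀ P, xc (φ P) = xc P ^ p ^ n := xc_ofHom _ _ _ _
  have y1 : ∀ P, yc (φ P) = yc P ^ p ^ n := yc_ofHom _ _ _ _
  have x2 : ∀ P, xc (ψ P) = xc P ^ p ^ n := xc_ofHom _ _ _ _
  have y2 : ∀ P, yc (ψ P) = yc P ^ p ^ n := yc_ofHom _ _ _ _
  have n1 : ∀ {P}, P ≠ 0 → φ P ≠ 0 := Sc.map_ne _
  have n2 : ∀ {P}, P ≠ 0 → ψ P ≠ 0 := Sc.map_ne _
  obtain ⟨g0, gR, gS⟩ := tw_spec hG (R := RatFunc.X ^ p ^ n) (S := ff A B ^ m) (by
    rw [← pow_mul, ← pow_succ', mul_comm m, ← hm, ff, add_pow_char_pow, add_pow_char_pow, mul_pow,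
      ← map_pow, ← map_pow, hA, hB, ← pow_mul, ← pow_mul, mul_comm 3])
  set g := tw A B (RatFunc.X ^ p ^ n) (ff A B ^ m) with hg
  have gm : g ∈ Hinf A B := Or.inr (by
    rw [gR, map_pow]; exact one_lt_pow₀ one_lt_vi_X (by omega))
  have gc : cc g = 0 := by
    rw [cc, gR, ← RatFunc.algebraMap_X, ← map_pow, DD_ap, derivative_X_pow, q0]; simp
  have gd : dg g = p ^ n := by
    rw [dg, gR, ← RatFunc.algebraMap_X, ← map_pow, RatFunc.num_algebraMap, natDegree_X_pow]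
  have ind : Ind hG g φ ψ := by
    refine ⟨fun P => ?_, fun a => ?_, fun π x0 a Q => ?_⟩
    · by_cases hP : P = 0
      · simp [hP]
      exact pt_ext (n2 (io_ne hG hP)) (io_ne hG (n1 hP)) (by rw [x2, xc_io, xc_io, x1, map_pow])
        (by rw [y2, yc_io, yc_io, y1, map_pow])
    · exact pt_ext (n2 (a.pt_ne hG)) (a.ev_ne hG g0) (by rw [x2, a.xc_pt, a.xc_ev, gR, map_pow])
        (by rw [y2, a.yc_pt, a.yc_ev, gS, map_pow, ← a.hη, ← pow_mul, ← pow_succ', hm])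
    · by_cases hQ : Q = 0
      · simp [hQ]
      by_cases hx : xc Q ∈ π.O
      · have hx' : xc (ψ Q) ∈ π.O := by rw [x2]; exact pow_mem hx _
        exact pt_ext (Rd.red_ne _ (n2 hQ) hx') (n1 (Rd.red_ne _ hQ hx))
          (by rw [Rd.xc_red _ (n2 hQ) hx', x1, Rd.xc_red _ hQ hx, x2, π.ev_pow hx])
          (by rw [Rd.yc_red _ (n2 hQ) hx', y1, Rd.yc_red _ hQ hx, y2,
            π.ev_pow ((a.rd hG).y_mem hx)])
      · rw [Rd.red_of_not _ hx, map_zero, Rd.red_of_not]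
        rw [x2]
        exact fun h => hx (π.mem_of_pow (by omega) h)
  have key : ∀ {t : ℤ}, (t : k) ≠ 0 → ∃ C : Finset (Pt A B), (∀ P, P ∈ C ↔ φ P - t • P = 0) ∧
      C.card = dg (g - t • g1 A B) ∧ vA C = t ^ 4 * A ∧ vB C = t ^ 6 * B := by
    intro t ht
    obtain ⟨C, h1, h2, h4, h5⟩ := (ind.sub (Ind.zsmul hG t)).kernel
      (sub_mem gm (zsmul_mem (g1_mem hG) t)) (neg_ne_zero.2 ht)
      (by rw [cc_sub_zsmul gm (g1_mem hG), gc, cc_g1 hG]; simp) h3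
    exact ⟨C, by simpa using h1, h2, by rw [h4]; ring, by rw [h5]; ring⟩
  obtain ⟨C1, a1, a2, -⟩ := key (t := 1) (by simp)
  obtain ⟨C, b1, b2, b3⟩ := key ht
  have hc : Nat.card {P : Pt A B // xc P ^ p ^ n = xc P ∧ yc P ^ p ^ n = yc P} = C1.card := by
    refine Nat.subtype_card C1 fun P => ?_
    rw [a1, one_smul, sub_eq_zero]
    refine ⟨fun h => by rw [← x1, ← y1, h]; exact ⟨rfl, rfl⟩, fun h => ?_⟩
    by_cases hP : P = 0
    · simp [hP]
    exact pt_ext (n1 hP) hP (by rw [x1, h.1]) (by rw [y1, h.2])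
  refine ⟨C, ⟨(b1 0).2 (by simp), fun P hP Q hQ => (b1 _).2 ?_⟩, ?_, b3⟩
  · rw [map_sub, smul_sub, sub_sub_sub_comm, (b1 P).1 hP, (b1 Q).1 hQ, sub_zero]
  · rw [hc, b2, dg_quad hG gm (g1_mem hG), a2, one_smul, gd, dg_g1 hG]
    push_cast; ring

lemma NoCM.eq [DecidableEq (RatFunc k)] (H : NoCM A B) (hG : Good A B) {h : Tw A B}
    (hh : h ∈ Hinf A B) (h0 : h ≠ 0) : ∃ n : ℤ, h = n • g1 A B := by
  classical
  obtain ⟨n, hn⟩ := H (Rr h).num (Rr h).denom (Ss h).num (Ss h).denom (Rr h).denom_ne_zero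
    (Ss h).denom_ne_zero (Hinf.deg_lt hh h0) (by
      apply ap_inj
      change ap (fp A B * _ * _) = _
      rw [map_mul, map_mul, ap_fp]
      simp only [map_add, map_mul, map_pow, num_eq, RatFunc.algebraMap_C]
      linear_combination ap (Ss h).denom ^ 2 * ap (Rr h).denom ^ 3 * eqnT h0)
  refine ⟨n, by_contra fun h1 => ?_⟩
  have h2 : h - n • g1 A B ≠ 0 := sub_ne_zero.2 h1
  have d0 : (Rr h).denom * (Ss h).denom * (Rr (h - n • g1 A B)).denom ≠ 0 :=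
    mul_ne_zero (mul_ne_zero (Rr h).denom_ne_zero (Ss h).denom_ne_zero) (RatFunc.denom_ne_zero _)
  obtain ⟨x0, hx⟩ := Infinite.exists_notMem_finset
    ((Rr h).denom * (Ss h).denom * (Rr (h - n • g1 A B)).denom).roots.toFinset
  rw [Multiset.mem_toFinset, mem_roots d0, IsRoot, eval_mul, eval_mul, mul_eq_zero, mul_eq_zero,
    not_or, not_or] at hx
  obtain ⟨⟨d1, d2⟩, d3⟩ := hx
  obtain ⟨π, a⟩ := exists_at x0
  obtain ⟨n0, x1⟩ := red_G0 hG a
  have mx : xc ((G0 A B).pt hG) ∈ π.O := by rw [Gp.xc_pt]; exact a.x_mem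
  have my := (a.rd hG).y_mem mx
  have y1 := (a.rd hG).yc_red (Gp.pt_ne _ hG) mx
  rw [Gp.yc_pt] at my y1
  have m1 : xc ((G0 A B).ev hG h) ∈ π.O := by rw [Gp.xc_ev]; exact (a.mem_iff _).2 d1
  refine (a.rd hG).red_ne ((G0 A B).ev_ne hG h2) (by rw [Gp.xc_ev]; exact (a.mem_iff _).2 d3) ?_
  rw [map_sub, map_sub, map_zsmul, map_zsmul, sub_eq_zero]
  change _ = n • (a.rd hG).red ((G0 A B).pt hG)
  have ns := (ns_iff hG _ _).2 (eqn n0)
  obtain ⟨h', e⟩ := hn _ _ ns (by rwa [x1]) (by rwa [x1])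
  rw [← pt_some, ← pt_some, pt_self n0, x1] at e
  rw [e, Rd.red_of_mem _ (Gp.ev_ne _ hG h0) m1, Gp.xc_ev, Gp.yc_ev, G0_σ, G0_σ,
    π.ev_mul my ((a.mem_iff _).2 d2), a.ev_eq _ d1, a.ev_eq _ d2, y1]

variable [CharZero k]

lemma NoCM.ne (H : NoCM A B) (hG : Good A B) : A ≠ 0 ∧ B ≠ 0 := by
  classical
  constructor
  · rintro rfl
    obtain ⟨s, hs⟩ := IsAlgClosed.exists_pow_nat_eq (-3 : k) two_pos
    obtain ⟨w, hw⟩ : ∃ w : k, w ^ 2 + w + 1 = 0 :=
      ⟨(s - 1) / 2, by field_simp; linear_combination hs⟩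
    have w0 : w ≠ 0 := by rintro rfl; simp at hw
    have w3 : RatFunc.C w ^ 3 = 1 := by
      rw [← map_pow, show w ^ 3 = 1 by linear_combination (w - 1) * hw, map_one]
    obtain ⟨g0, gR, gS⟩ := tw_spec hG (R := RatFunc.C w * RatFunc.X) (S := 1) (by
      rw [ff, mul_pow, w3]; simp)
    obtain ⟨n, hn⟩ := H.eq hG (Or.inr (by
      rw [gR, map_mul, show vi (RatFunc.C w) = 1 from RatFunc.inftyValuation.C k w0, one_mul]
      exact one_lt_vi_X)) g0
    have := cc_zsmul hG n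
    rw [← hn, cc, gR, gS, DD_C_mul, DD_X, mul_one, div_one] at this
    rw [(RatFunc.C (K := k)).injective this] at hw
    have : n ^ 2 + n + 1 = 0 := by exact_mod_cast hw
    nlinarith [sq_nonneg (2 * n + 1)]
  · rintro rfl
    obtain ⟨s, hs⟩ := IsAlgClosed.exists_pow_nat_eq (-1 : k) two_pos
    have s0 : s ≠ 0 := by rintro rfl; simp at hs
    obtain ⟨g0, gR, gS⟩ := tw_spec hG (R := -RatFunc.X) (S := RatFunc.C s) (by
      rw [ff, ← map_pow, hs]; simp; ring)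
    obtain ⟨n, hn⟩ := H.eq hG (Or.inr (by rw [gR, Valuation.map_neg]; exact one_lt_vi_X)) g0
    have := cc_zsmul hG n
    rw [← hn, cc, gR, gS, DD_neg, DD_X, div_eq_iff ((_root_.map_ne_zero _).2 s0), ← map_mul,
      ← map_one RatFunc.C, ← map_neg] at this
    have h1 := (RatFunc.C (K := k)).injective this
    have h2 : (n : k) ^ 2 + 1 = 0 := by linear_combination (n * s - 1) * h1 + (n : k) ^ 2 * hs
    have : n ^ 2 + 1 = 0 := by exact_mod_cast h2
    nlinarith [sq_nonneg n]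

lemma NoCM.sq (H : NoCM A B) (hG : Good A B) {C : Finset (Pt A B)} (hC : IsSub C) {u : k}
    (hu : u ≠ 0) (hA : vA C = u ^ 4 * A) (hB : vB C = u ^ 6 * B) : IsSquare C.card := by
  classical
  have u0 : RatFunc.C u ≠ 0 := (_root_.map_ne_zero _).2 hu
  obtain ⟨g0, gR, gS⟩ := tw_spec hG (R := RatFunc.C (u ^ 2)⁻¹ * vX C RatFunc.C RatFunc.X)
    (S := RatFunc.C (u ^ 3)⁻¹ * vS C RatFunc.C RatFunc.X) (by
      have := velu_ode hG hC
      rw [hA, hB] at this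
      simp only [map_mul, map_pow, map_inv₀] at this ⊢
      field_simp
      linear_combination this)
  obtain ⟨n, hn⟩ := H.eq hG (Or.inr (by
    rw [gR, map_mul, show vi (RatFunc.C (u ^ 2)⁻¹) = 1 from
      RatFunc.inftyValuation.C k (inv_ne_zero (pow_ne_zero 2 hu)), one_mul, vi_vX]
    exact one_lt_vi_X)) g0
  rw [hn] at g0 gR gS
  have n0 : n ≠ 0 := by rintro rfl; simp at g0
  obtain ⟨D, h1, h2⟩ := torsion_card hG three_ne_zero (t := n) (Int.cast_ne_zero.2 n0)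
  have e : C = D := by
    ext P
    rw [h1]
    constructor
    · intro hP
      obtain ⟨g, hg⟩ := exists_gen hG P
      obtain ⟨e1, e2⟩ := velu_gen hG hC hP hg
      have : g.ev hG (n • g1 A B) = (G0 A B).ev hG (n • g1 A B) :=
        pt_ext (g.ev_ne hG g0) (Gp.ev_ne _ hG g0)
          (by rw [Gp.xc_ev, Gp.xc_ev, gR, map_mul, map_mul, e1, Gp.σ_C, Gp.σ_C, G0_σ])
          (by rw [Gp.yc_ev, Gp.yc_ev, gS, map_mul, map_mul, Gp.σ_C, Gp.σ_C, G0_σ,
            mul_left_comm, e2, mul_left_comm])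
      rw [map_zsmul, map_zsmul] at this
      change n • g.pt hG = n • (G0 A B).pt hG at this
      rw [hg, zsmul_add, add_eq_left, ← map_zsmul] at this
      exact by_contra fun h => io_ne hG h this
    · intro hP
      by_contra hP'
      have p0 : P ≠ 0 := fun h => hP' (h ▸ hC.zero)
      have := ((Ind.zsmul hG n).ker_iff g0 p0).1 (by simpa using hP)
      obtain ⟨π, a⟩ := exists_at (xc P)
      refine (a.mem_iff _).1 ?_ this
      rw [gR, map_mul, aL_C]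
      refine mul_mem (a.c_mem _) (velu_mem a fun Q hQ hx => hP' ?_).1
      rw [Finset.mem_erase] at hQ
      rcases eq_or_neg p0 hQ.1 hx.symm with e | e
      · rw [e]; exact hQ.2
      · rw [e]; exact hC.neg hQ.2
  refine ⟨n.natAbs, ?_⟩
  rw [e]
  have : ((n.natAbs * n.natAbs : ℕ) : ℤ) = n ^ 2 := by rw [Int.natAbs_mul_self, _root_.sq]
  exact_mod_cast h2.trans this.symm

/-- vanishes when the quotient curve has the same invariant as the curve -/
noncomputable def dl {k : Type*} [Field k] [DecidableEq k] {A B : k} (C : Finset (Pt A B)) : k :=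
  vA C ^ 3 * B ^ 2 - A ^ 3 * vB C ^ 2

theorem NoCM.dl_ne (H : NoCM A B) (hG : Good A B) {C : Finset (Pt A B)} (hC : IsSub C)
    (h1 : ¬IsSquare C.card) (h2 : ¬(vA C = 0 ∧ vB C = 0)) : dl C ≠ 0 := by
  intro h
  obtain ⟨a0, b0⟩ := H.ne hG
  rw [dl, sub_eq_zero] at h
  have a1 : vA C ≠ 0 := fun e => h2 ⟨e, by
    rw [e] at h
    simpa [a0] using h.symm⟩
  have b1 : vB C ≠ 0 := fun e => h2 ⟨by
    rw [e] at h
    simpa [b0] using h, e⟩
  obtain ⟨u, hu⟩ := IsAlgClosed.exists_pow_nat_eq (vB C * A / (vA C * B)) two_pos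
  have u0 : u ≠ 0 := by
    rintro rfl
    exact div_ne_zero (mul_ne_zero b1 a0) (mul_ne_zero a1 b0) (by simpa using hu.symm)
  have e1 : vA C = u ^ 4 * A := by
    rw [show u ^ 4 = (u ^ 2) ^ 2 by ring, hu]
    field_simp
    linear_combination h
  refine h1 (H.sq hG hC u0 e1 ?_)
  rw [show u ^ 6 = (u ^ 2) ^ 3 by ring, hu]
  field_simp
  linear_combination h

end Pool.Agent.MP_c481b3_nt.H81
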