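import Mathlib

set_option autoImplicit false

namespace Pool.Agent.MP_c481b3_nt.H81

lemma two_gen {H : Type*} [AddCommGroup H] [Fintype H] [DecidableEq H] {N : ℕ} (hN : N ≠ 0)
    (h0 : ∀ z : H, N • z = 0) (hc : Fintype.card H = N ^ 2)
    (h1 : ∀ n : ℕ, n ≠ 0 → (Finset.univ.filter fun z : H => n • z = 0).card ≤ n ^ 2) :
    ∃ x y : H, ∀ z, ∃ i j : ℤ, z = i • x + j • y := by
  classical
  obtain ⟨y, hy⟩ := AddMonoid.exists_addOrderOf_eq_exponent (AddMonoid.ExponentExists.of_finite (G := H))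
  have e0 : AddMonoid.exponent H ≠ 0 := AddMonoid.exponent_ne_zero_of_finite
  have e1 : AddMonoid.exponent H ≤ N :=
    Nat.le_of_dvd (Nat.pos_of_ne_zero hN) (AddMonoid.exponent_dvd_of_forall_nsmul_eq_zero h0)
  have e2 := h1 _ e0
  rw [Finset.filter_true_of_mem (fun z _ => AddMonoid.exponent_nsmul_eq_zero z), Finset.card_univ,
    hc, Nat.pow_le_pow_iff_left two_ne_zero] at e2
  have oy : addOrderOf y = N := hy.trans (le_antisymm e1 e2)
  have cyc : IsAddCyclic (H ⧸ AddSubgroup.zmultiples y) := by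
    refine isAddCyclic_of_card_nsmul_eq_zero_le fun n hn => ?_
    obtain ⟨e, he⟩ := Nat.gcd_dvd_right n N
    have g0 : 0 < n.gcd N := Nat.gcd_pos_of_pos_left N hn
    have e0 : e ≠ 0 := by rintro rfl; exact hN (by simpa using he)
    refine le_trans (Nat.le_of_mul_le_mul_left ?_ g0) (Nat.gcd_le_left N hn)
    refine le_trans (Finset.mul_card_image_le_card_of_maps_to
      (f := fun z : H => (QuotientAddGroup.mk z : H ⧸ AddSubgroup.zmultiples y))
      (s := Finset.univ.filter fun z : H => n.gcd N • z = 0) ?_ _ ?_) ((h1 _ g0.ne').trans (sq _).le)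
    · intro z hz
      obtain ⟨c, hc⟩ := Nat.gcd_dvd_left n N
      rw [Finset.mem_filter] at hz ⊢
      refine ⟨Finset.mem_univ _, ?_⟩
      rw [← QuotientAddGroup.mk_nsmul, hc, mul_nsmul, hz.2, nsmul_zero, QuotientAddGroup.mk_zero]
    · intro a ha
      obtain ⟨z, rfl⟩ := QuotientAddGroup.mk_surjective a
      have a1 := (Finset.mem_filter.1 ha).2
      have a2 : N • (QuotientAddGroup.mk z : H ⧸ AddSubgroup.zmultiples y) = 0 := by
        rw [← QuotientAddGroup.mk_nsmul, h0, QuotientAddGroup.mk_zero]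
      have a3 : n.gcd N • (QuotientAddGroup.mk z : H ⧸ AddSubgroup.zmultiples y) = 0 :=
        addOrderOf_dvd_iff_nsmul_eq_zero.1 (Nat.dvd_gcd (addOrderOf_dvd_iff_nsmul_eq_zero.2 a1)
          (addOrderOf_dvd_iff_nsmul_eq_zero.2 a2))
      rw [← QuotientAddGroup.mk_nsmul, QuotientAddGroup.eq_zero_iff,
        AddSubgroup.mem_zmultiples_iff] at a3
      obtain ⟨j, hj⟩ := a3
      generalize n.gcd N = g at *
      have a4 : ((e : ℤ) * j) • y = 0 := by
        rw [mul_zsmul, hj, natCast_zsmul, ← mul_nsmul, ← he, h0]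
      rw [← addOrderOf_dvd_iff_zsmul_eq_zero, oy, he, Nat.cast_mul, mul_comm,
        mul_dvd_mul_iff_left (by exact_mod_cast e0)] at a4
      obtain ⟨u, rfl⟩ := a4
      conv_lhs => rw [← Finset.card_range g]
      refine Finset.card_le_card_of_injOn (fun i => z - u • y + (e * i) • y) ?_ ?_
      · intro i _
        simp only [Finset.coe_filter, Finset.mem_filter, Finset.mem_univ, true_and, Set.mem_setOf_eq]
        constructor
        · rw [nsmul_add, nsmul_sub, ← hj, mul_zsmul, natCast_zsmul, sub_self, zero_add, ← mul_nsmul,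
            mul_right_comm, mul_comm e, ← he, mul_nsmul, h0, nsmul_zero]
        · rw [QuotientAddGroup.eq]
          have : -(z - u • y + (e * i) • y) + z = u • y - (e * i) • y := by abel
          rw [this]
          exact sub_mem (zsmul_mem (AddSubgroup.mem_zmultiples y) _)
            (nsmul_mem (AddSubgroup.mem_zmultiples y) _)
      · intro i hi i' hi' h
        have h' : (e * i) • y = (e * i') • y := add_left_cancel h
        rw [nsmul_eq_nsmul_iff_modEq, oy, he, mul_comm g] at h'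
        exact (Nat.ModEq.mul_left_cancel' e0 h').eq_of_lt_of_lt (by simpa using hi) (by simpa using hi')
  obtain ⟨a, ha⟩ := IsAddCyclic.exists_generator (α := H ⧸ AddSubgroup.zmultiples y)
  obtain ⟨x, rfl⟩ := QuotientAddGroup.mk_surjective a
  refine ⟨x, y, fun z => ?_⟩
  obtain ⟨i, hi⟩ := AddSubgroup.mem_zmultiples_iff.1 (ha (QuotientAddGroup.mk z))
  rw [← QuotientAddGroup.mk_zsmul, QuotientAddGroup.eq, AddSubgroup.mem_zmultiples_iff] at hi
  obtain ⟨j, hj⟩ := hi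
  exact ⟨i, j, by rw [hj]; abel⟩

lemma hnf {H : Type*} [AddCommGroup H] [Finite H] (x y : H)
    (hxy : ∀ z, ∃ i j : ℤ, z = i • x + j • y) (K : AddSubgroup H) :
    ∃ a d b : ℕ, a * d * Nat.card K = Nat.card H ∧ b < d ∧
      ∀ i j : ℤ, i • x + j • y ∈ K ↔ ∃ u : ℤ, i = u * a ∧ (d : ℤ) ∣ j - u * b := by
  set φ : H →+ H ⧸ K := QuotientAddGroup.mk' K with hφ
  set ψ : H ⧸ K →+ (H ⧸ K) ⧸ AddSubgroup.zmultiples (φ y) := QuotientAddGroup.mk' _ with hψ
  have k1 : ∀ z, φ z = 0 ↔ z ∈ K := fun z => QuotientAddGroup.eq_zero_iff z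
  have k2 : ∀ z, ψ z = 0 ↔ z ∈ AddSubgroup.zmultiples (φ y) := fun z =>
    QuotientAddGroup.eq_zero_iff z
  have y0 : ψ (φ y) = 0 := (k2 _).2 (AddSubgroup.mem_zmultiples _)
  have d0 : 0 < addOrderOf (φ y) := addOrderOf_pos _
  have ca : addOrderOf (ψ (φ x)) = Nat.card ((H ⧸ K) ⧸ AddSubgroup.zmultiples (φ y)) := by
    refine addOrderOf_eq_card_of_forall_mem_zmultiples fun w => ?_
    obtain ⟨w, rfl⟩ := QuotientAddGroup.mk'_surjective _ w
    obtain ⟨w, rfl⟩ := QuotientAddGroup.mk'_surjective _ w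
    obtain ⟨i, j, rfl⟩ := hxy w
    rw [← hφ, ← hψ]
    simp only [map_add, map_zsmul, y0, zsmul_zero, add_zero]
    exact zsmul_mem (AddSubgroup.mem_zmultiples _) i
  obtain ⟨c, hc⟩ := AddSubgroup.mem_zmultiples_iff.1 ((k2 (addOrderOf (ψ (φ x)) • φ x)).1 (by
    rw [map_nsmul, addOrderOf_nsmul_eq_zero]))
  have d0' : (0 : ℤ) < addOrderOf (φ y) := by exact_mod_cast d0
  have b0 := Int.emod_nonneg (-c) d0'.ne'
  have b1 := Int.emod_lt_of_pos (-c) d0'
  have b2 : ((-c % addOrderOf (φ y)).toNat : ℤ) • φ y = -(addOrderOf (ψ (φ x)) • φ x) := by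
    rw [Int.toNat_of_nonneg b0, mod_addOrderOf_zsmul, neg_zsmul, hc]
  refine ⟨addOrderOf (ψ (φ x)), addOrderOf (φ y), (-c % addOrderOf (φ y)).toNat, ?_, by omega, ?_⟩
  · rw [ca, ← Nat.card_zmultiples, ← AddSubgroup.card_eq_card_quotient_mul_card_addSubgroup,
      ← AddSubgroup.card_eq_card_quotient_mul_card_addSubgroup]
  · intro i j
    have e : ∀ u : ℤ, φ ((u * addOrderOf (ψ (φ x))) • x + j • y)
        = (j - u * ((-c % addOrderOf (φ y)).toNat : ℤ)) • φ y := by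
      intro u
      rw [map_add, map_zsmul, map_zsmul, sub_zsmul, mul_zsmul, mul_zsmul, b2, natCast_zsmul,
        zsmul_neg, neg_neg, add_comm]
    rw [← k1]
    constructor
    · intro h
      have h1 := congrArg ψ h
      simp only [map_add, map_zsmul, y0, zsmul_zero, add_zero, map_zero] at h1
      obtain ⟨u, rfl⟩ := addOrderOf_dvd_iff_zsmul_eq_zero.2 h1
      rw [mul_comm, e] at h
      exact ⟨u, mul_comm _ _, addOrderOf_dvd_iff_zsmul_eq_zero.2 h⟩
    · rintro ⟨u, rfl, h⟩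
      rw [e]
      exact addOrderOf_dvd_iff_zsmul_eq_zero.1 h

theorem subs_card {G : Type*} [AddCommGroup G]
    (hT : ∀ n : ℕ, n ≠ 0 → ∃ C : Finset G, (∀ P, P ∈ C ↔ n • P = 0) ∧ C.card = n ^ 2) {N : ℕ}
    (hN : N ≠ 0) : ∃ S : Finset (Finset G),
      (∀ C, C ∈ S ↔ (0 ∈ C ∧ ∀ P ∈ C, ∀ Q ∈ C, P - Q ∈ C) ∧ C.card = N) ∧
      S.card ≤ ∑ d ∈ N.divisors, d := by
  classical
  obtain ⟨D, hD, cD⟩ := hT N hN
  let sg : ∀ C : Finset G, (0 ∈ C ∧ ∀ P ∈ C, ∀ Q ∈ C, P - Q ∈ C) → AddSubgroup G := fun C h =>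
    AddSubgroup.ofSub C ⟨0, h.1⟩ fun P hP Q hQ => sub_eq_add_neg P Q ▸ h.2 P hP Q hQ
  have sm : ∀ C h P, P ∈ sg C h ↔ P ∈ C := fun _ _ _ => Iff.rfl
  have sc : ∀ C h, Nat.card (sg C h) = C.card := fun C h => Nat.subtype_card C fun _ => Iff.rfl
  have sub : ∀ C : Finset G, (0 ∈ C ∧ ∀ P ∈ C, ∀ Q ∈ C, P - Q ∈ C) → C.card = N → C ⊆ D := by
    intro C h hc P hP
    have := card_nsmul_eq_zero' (x := (⟨P, hP⟩ : sg C h))
    rw [sc C h, hc] at this
    exact (hD P).2 (congrArg Subtype.val this)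
  have hD' : 0 ∈ D ∧ ∀ P ∈ D, ∀ Q ∈ D, P - Q ∈ D := ⟨(hD 0).2 (nsmul_zero N), fun P hP Q hQ =>
    (hD _).2 (by rw [nsmul_sub, (hD P).1 hP, (hD Q).1 hQ, sub_zero])⟩
  set T := sg D hD' with hTd
  haveI : Fintype T := Fintype.subtype D fun _ => Iff.rfl
  have cT : Nat.card T = N ^ 2 := (sc D hD').trans cD
  obtain ⟨x, y, hxy⟩ := two_gen (H := T) hN (fun z => Subtype.ext ((hD _).1 z.2))
    (by rw [← cT, Nat.card_eq_fintype_card]) (by
      intro n hn
      obtain ⟨C, h1, h2⟩ := hT n hn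
      rw [← h2]
      refine Finset.card_le_card_of_injOn Subtype.val (fun z hz => ?_) Subtype.val_injective.injOn
      exact (h1 _).2 (congrArg Subtype.val (Finset.mem_filter.1 hz).2))
  have key : ∀ C : Finset G, ∃ db : (_ : ℕ) × ℕ, ∀ h : (0 ∈ C ∧ ∀ P ∈ C, ∀ Q ∈ C, P - Q ∈ C),
      C.card = N → db.1 ∣ N ∧ db.2 < db.1 ∧ ∀ i j : ℤ, ((i • x + j • y : T) : G) ∈ C ↔
        ∃ u : ℤ, i = u * (N / db.1 : ℕ) ∧ (db.1 : ℤ) ∣ j - u * db.2 := by
    intro C
    by_cases h : (0 ∈ C ∧ ∀ P ∈ C, ∀ Q ∈ C, P - Q ∈ C) ∧ C.card = N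
    · obtain ⟨a, d, b, e1, e2, e3⟩ := hnf x y hxy ((sg C h.1).addSubgroupOf T)
      rw [Nat.card_congr (AddSubgroup.addSubgroupOfEquivOfLe (sub C h.1 h.2)).toEquiv, sc C h.1, h.2,
        cT, sq, mul_left_inj' hN] at e1
      refine ⟨⟨d, b⟩, fun _ _ => ⟨Dvd.intro_left a e1, e2, ?_⟩⟩
      rw [← e1, Nat.mul_div_cancel a (by omega)]
      exact e3
    · exact ⟨⟨0, 0⟩, fun h1 h2 => absurd ⟨h1, h2⟩ h⟩
  choose F hF using key
  refine ⟨D.powerset.filter fun C => (0 ∈ C ∧ ∀ P ∈ C, ∀ Q ∈ C, P - Q ∈ C) ∧ C.card = N,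
    fun C => ?_, ?_⟩
  · rw [Finset.mem_filter, Finset.mem_powerset]
    exact ⟨fun h => h.2, fun h => ⟨sub C h.1 h.2, h⟩⟩
  · have : ∑ d ∈ N.divisors, d = (N.divisors.sigma fun d => Finset.range d).card := by simp
    rw [this]
    refine Finset.card_le_card_of_injOn F ?_ ?_
    · intro C hC
      have h := (Finset.mem_filter.1 hC).2
      obtain ⟨h1, h2, -⟩ := hF C h.1 h.2
      simpa [hN] using ⟨h1, h2⟩
    · intro C hC C' hC' e
      have h := (Finset.mem_filter.1 hC).2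
      have h' := (Finset.mem_filter.1 hC').2
      have t : ∀ z : T, (z : G) ∈ C ↔ (z : G) ∈ C' := by
        intro z
        obtain ⟨i, j, rfl⟩ := hxy z
        rw [(hF C h.1 h.2).2.2, (hF C' h'.1 h'.2).2.2, e]
      ext P
      exact ⟨fun hP => (t ⟨P, sub C h.1 h.2 hP⟩).1 hP, fun hP => (t ⟨P, sub C' h'.1 h'.2 hP⟩).2 hP⟩

end Pool.Agent.MP_c481b3_nt.H81
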