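import Pool.Agent.MP_c481b3_nt.H81.Lift
import Pool.Agent.MP_c481b3_nt.H81.Count

set_option autoImplicit false

namespace Pool.Agent.MP_c481b3_nt.H81

open NumberField

theorem local_thm {R L : Type*} [CommRing R] [Field L] [IsAlgClosed L] [CharZero L] [DecidableEq L]
    (ψ : R →+* L) (hψ : Function.Injective ψ) {A B : R} (hG : Good (ψ A) (ψ B))
    (H : NoCM (ψ A) (ψ B)) (P : Ideal R) [hP : P.IsMaximal] [Finite (R ⧸ P)]
    (hΔ : (Wc A B).Δ ∉ P) {m : ℕ} (hm : ((((m + 1) ^ 2).factorial : ℕ) : R) ∉ P) {a : ℤ}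
    (ha : a = Nat.card (R ⧸ P) + 1
      - Nat.card ((Wc A B).map (Ideal.Quotient.mk P)).toAffine.Point)
    (h0 : 0 < 4 * (Nat.card (R ⧸ P) : ℤ) - a ^ 2) (h1 : 4 * (Nat.card (R ⧸ P) : ℤ) - a ^ 2 ≤ m ^ 2) :
    ∃ O : ValuationSubring L, (∀ r, ψ r ∈ O) ∧ (∀ r, O.valuation (ψ r) < 1 ↔ r ∈ P) ∧
      ∃ C : Finset (Pt (ψ A) (ψ B)), IsSub C ∧ m ^ 2 < C.card ∧ C.card < (m + 1) ^ 2 ∧ dl C ≠ 0 ∧
        O.valuation (dl C) < 1 := by
  classical
  obtain ⟨O, o1, o2⟩ := exists_val ψ hψ P hP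
  refine ⟨O, o1, o2, ?_⟩
  letI := Ideal.Quotient.field P
  letI := Fintype.ofFinite (R ⧸ P)
  haveI := resid_closed O
  set π := resPlc O with hπ
  set j : R ⧸ P →+* IsLocalRing.ResidueField O := Ideal.Quotient.lift P
    (π.ρ.comp (ψ.codRestrict O.toSubring o1)) (fun r hr => (π.loc ⟨ψ r, o1 r⟩).2 ((o2 r).2 hr))
    with hj
  have ej : ∀ r, π.ev (ψ r) = j (Ideal.Quotient.mk P r) := fun r => π.ev_coe ⟨ψ r, o1 r⟩
  have eW : (Wc A B).map (Ideal.Quotient.mk P)
      = Wc (Ideal.Quotient.mk P A) (Ideal.Quotient.mk P B) := by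
    ext <;> simp [Wc]
  have g0 : Good (Ideal.Quotient.mk P A) (Ideal.Quotient.mk P B) := good_of_ne (by
    rw [← eW, WeierstrassCurve.map_Δ, Ne, Ideal.Quotient.eq_zero_iff_mem]; exact hΔ)
  have g1 := g0.map j
  have r : Rd π (ψ A) (ψ B) _ _ := ⟨o1 A, o1 B, ej A, ej B, g1⟩
  obtain ⟨p, hp, n, pp, hq⟩ := FiniteField.card' (R ⧸ P)
  haveI := Fact.mk pp
  haveI : CharP (IsLocalRing.ResidueField O) p := charP_of_injective_ringHom j.injective p
  have nz : ∀ N : ℕ, N ≠ 0 → N ≤ (m + 1) ^ 2 → (N : IsLocalRing.ResidueField O) ≠ 0 := by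
    intro N n0 hN e
    obtain ⟨c, hc⟩ := Nat.dvd_factorial (Nat.pos_of_ne_zero n0) hN
    refine hm (Ideal.Quotient.eq_zero_iff_mem.1 (j.injective ?_))
    rw [map_natCast, map_natCast, hc, Nat.cast_mul, e, zero_mul, map_zero]
  have m0 : m ≠ 0 := by
    rintro rfl
    simp only [Nat.cast_zero] at h1
    omega
  have h3 : (3 : IsLocalRing.ResidueField O) ≠ 0 := by
    simpa using nz 3 (by norm_num) (by nlinarith [Nat.pos_of_ne_zero m0])
  obtain ⟨t, t1, t2⟩ := exists_t h0 h1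
  rw [Nat.card_eq_fintype_card, hq] at t1 t2 ha
  obtain ⟨N, hN⟩ : ∃ N : ℕ, (N : ℤ) = t ^ 2 - a * t + (p ^ (n : ℕ) : ℕ) :=
    ⟨_, Int.toNat_of_nonneg ((sq_nonneg _).trans t1.le)⟩
  rw [← hN] at t1 t2
  have t1' : m ^ 2 < N := by exact_mod_cast t1
  have t2' : N < (m + 1) ^ 2 := by exact_mod_cast t2
  have N0 := nz N (by omega) t2'.le
  have t0 : (t : IsLocalRing.ResidueField O) ≠ 0 := by
    intro e
    have := congrArg (Int.cast : ℤ → IsLocalRing.ResidueField O) hN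
    simp [e] at this
    exact N0 this
  have fx : ∀ x, j x ^ p ^ (n : ℕ) = j x := fun x => by
    rw [← map_pow, ← hq, FiniteField.pow_card]
  obtain ⟨C', c1, c2, c3, c4⟩ := frob_kernel g1 h3 p n n.ne_zero (fx _) (fx _) t0
  have cf := card_fixed j rfl rfl g1
  rw [hq] at cf
  rw [cf] at c2
  rw [eW] at ha
  have c5 : C'.card = N := by
    have : (C'.card : ℤ) = N := by rw [c2, hN, ha]; push_cast; ring
    exact_mod_cast this
  obtain ⟨D, d1, d2⟩ := torsion_card hG three_ne_zero (t := N) (by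
    simp only [Int.cast_natCast, Nat.cast_ne_zero]; omega)
  obtain ⟨D', d3, d4⟩ := torsion_card g1 h3 (t := N) (by simpa using N0)
  obtain ⟨C, e1, e2, e3, e4, e5, e6⟩ := lift_sub r N0 (D := D) (by simpa using d1) (D' := D')
    (by simpa using d3) (by omega) c1 c5
  refine ⟨C, e1, by omega, by omega, H.dl_ne hG e1 ?_ ?_, ?_⟩
  · rintro ⟨s, hs⟩
    rw [e2, ← sq] at hs
    rw [hs, Nat.pow_lt_pow_iff_left two_ne_zero] at t1' t2'
    omega
  · rintro ⟨z1, z2⟩
    have z : π.ev 0 = 0 := by simpa using π.ev_nat 0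
    rw [z1, z, c3] at e5
    rw [z2, z, c4] at e6
    refine g1.disc ?_
    rw [(mul_eq_zero.1 e5.symm).resolve_left (pow_ne_zero _ t0),
      (mul_eq_zero.1 e6.symm).resolve_left (pow_ne_zero _ t0)]
    simp
  · have m1 := mul_mem (pow_mem e3 3) (pow_mem r.mB 2)
    have m2 := mul_mem (pow_mem r.mA 3) (pow_mem e4 2)
    refine (π.ev_eq_zero (sub_mem m1 m2)).1 ?_
    rw [π.ev_sub m1 m2, π.ev_mul (pow_mem e3 3) (pow_mem r.mB 2),
      π.ev_mul (pow_mem r.mA 3) (pow_mem e4 2), π.ev_pow e3, π.ev_pow e4, π.ev_pow r.mA,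
      π.ev_pow r.mB, e5, e6, c3, c4, r.hA, r.hB]
    ring

variable {K : Type*} [Field K] [NumberField K]

/-- the inclusion of the integers of `K` in an algebraic closure -/
noncomputable abbrev iK : 𝓞 K →+* AlgebraicClosure K := algebraMap (𝓞 K) (AlgebraicClosure K)

omit [NumberField K] in
lemma iK_eq (r : 𝓞 K) : iK r = algebraMap K (AlgebraicClosure K) r := rfl

omit [NumberField K] in
lemma iK_inj : Function.Injective (iK (K := K)) := fun _ _ h =>
  RingOfIntegers.ext ((algebraMap K (AlgebraicClosure K)).injective h)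

theorem exists_delta [DecidableEq (AlgebraicClosure K)] {A B : 𝓞 K} (hG : Good (iK A) (iK B))
    {H : ℝ} (hH : 1 ≤ H) (hA : ∀ τ : K →+* ℂ, ‖τ A‖ ≤ H) (hB : ∀ τ : K →+* ℂ, ‖τ B‖ ≤ H) {N : ℕ}
    (hN : N ≠ 0) : ∃ d : 𝓞 K, d ≠ 0 ∧
      (∀ O : ValuationSubring (AlgebraicClosure K), (∀ r, iK r ∈ O) →
        ∀ C : Finset (Pt (iK A) (iK B)), IsSub C → C.card = N → dl C ≠ 0 → O.valuation (dl C) < 1 →
          O.valuation (iK d) < 1) ∧
      ∀ τ : K →+* ℂ, ‖τ d‖ ≤ (100 * H * N) ^ (27 * ∑ e ∈ N.divisors, e) := by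
  classical
  obtain ⟨S0, s1, s2⟩ := subs_card (G := Pt (iK A) (iK B)) (fun n hn => by
    obtain ⟨C, h1, h2⟩ := torsion_card hG three_ne_zero (t := n) (by simpa using hn)
    exact ⟨C, by simpa using h1, by exact_mod_cast h2⟩) hN
  set S := S0.filter fun C => dl C ≠ 0 with hS
  have sm : ∀ C, C ∈ S ↔ IsSub C ∧ C.card = N ∧ dl C ≠ 0 := fun C => by
    rw [hS, Finset.mem_filter, s1]
    exact ⟨fun h => ⟨⟨h.1.1.1, h.1.1.2⟩, h.1.2, h.2⟩, fun h => ⟨⟨⟨h.1.1, h.1.2⟩, h.2.1⟩, h.2.2⟩⟩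
  set δ := ∏ C ∈ S, (N : AlgebraicClosure K) ^ 6 * dl C with hδ
  have fm : ∀ O : ValuationSubring (AlgebraicClosure K), iK A ∈ O → iK B ∈ O → ∀ C ∈ S,
      (N : AlgebraicClosure K) ^ 6 * dl C ∈ O := fun O a b C hC => by
    rw [← ((sm C).1 hC).2.1]
    exact dl_mem O a b ((sm C).1 hC).1
  have fix : ∀ σ : Gal(AlgebraicClosure K/K), σ δ = δ := by
    intro σ
    have a : σ.toRingEquiv.toRingHom (iK A) = iK A := σ.commutes (A : K)
    have b : σ.toRingEquiv.toRingHom (iK B) = iK B := σ.commutes (B : K)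
    have inj : Function.Injective fun C : Finset (Pt (iK A) (iK B)) =>
        C.image (Sc.ofHom _ a b hG).map := Finset.image_injective (Sc.injective _)
    have im : S.image (fun C => C.image (Sc.ofHom _ a b hG).map) = S := by
      refine Finset.eq_of_subset_of_card_le (fun C hC => ?_)
        (by rw [Finset.card_image_of_injective _ inj])
      obtain ⟨C, h, rfl⟩ := Finset.mem_image.1 hC
      obtain ⟨h1, h2, h3⟩ := (sm C).1 h
      obtain ⟨k1, k2, k3⟩ := map_sub_data _ a b hG h1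
      exact (sm _).2 ⟨k1, k2.trans h2, by rw [k3]; exact (map_ne_zero _).2 h3⟩
    conv_rhs => rw [hδ, ← im, Finset.prod_image inj.injOn]
    rw [hδ, map_prod]
    refine Finset.prod_congr rfl fun C hC => ?_
    rw [(map_sub_data _ a b hG ((sm C).1 hC).1).2.2, map_mul, map_pow, map_natCast]
    rfl
  obtain ⟨d0, hd0⟩ := (InfiniteGalois.mem_range_algebraMap_iff_fixed δ).2 fix
  have int : IsIntegral ℤ δ := by
    have h1 : δ ∈ (integralClosure (Subring.closure {iK A, iK B}) (AlgebraicClosure K)).toSubring := by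
      rw [← iInf_valuationSubring_superset, Subring.mem_iInf]
      rintro ⟨O, hO⟩
      exact prod_mem (S := O) (fm O (hO (by simp)) (hO (by simp)))
    haveI : Algebra.IsIntegral ℤ (Subring.closure {iK A, iK B}) := ⟨fun x => by
      have : Subring.closure {iK A, iK B} ≤ (integralClosure ℤ (AlgebraicClosure K)).toSubring := by
        rw [Subring.closure_le]
        rintro y (rfl | rfl)
        · exact A.isIntegral_coe.map (IsScalarTower.toAlgHom ℤ K (AlgebraicClosure K))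
        · exact B.isIntegral_coe.map (IsScalarTower.toAlgHom ℤ K (AlgebraicClosure K))
      exact (isIntegral_algebraMap_iff (B := AlgebraicClosure K) Subtype.val_injective).1 (this x.2)⟩
    exact isIntegral_trans (A := Subring.closure {iK A, iK B}) δ h1
  rw [← hd0, isIntegral_algebraMap_iff (algebraMap K _).injective] at int
  have ed : iK (⟨d0, int⟩ : 𝓞 K) = δ := hd0
  refine ⟨⟨d0, int⟩, fun h => ?_, fun O hO C c1 c2 c3 c4 => ?_, fun τ => ?_⟩
  · rw [h, map_zero] at ed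
    exact Finset.prod_ne_zero_iff.2 (fun C hC => mul_ne_zero (pow_ne_zero _ (Nat.cast_ne_zero.2 hN))
      ((sm C).1 hC).2.2) ed.symm
  · rw [ed, hδ, ← Finset.mul_prod_erase _ _ ((sm C).2 ⟨c1, c2, c3⟩), map_mul, map_mul]
    refine lt_of_le_of_lt (mul_le_of_le_one_right' ((O.valuation_le_one_iff _).2 (prod_mem
      fun C hC => fm O (hO A) (hO B) C (Finset.mem_of_mem_erase hC)))) ?_
    exact lt_of_le_of_lt (mul_le_of_le_one_left' ((O.valuation_le_one_iff _).2
      (pow_mem (natCast_mem O N) 6))) c4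
  · letI : Algebra K ℂ := τ.toAlgebra
    set τ' : AlgebraicClosure K →ₐ[K] ℂ := IsAlgClosed.lift with hτ
    have e1 : τ d0 = τ' δ := by rw [← hd0, τ'.commutes]; rfl
    have a : τ'.toRingHom (iK A) = τ A := τ'.commutes (A : K)
    have b : τ'.toRingHom (iK B) = τ B := τ'.commutes (B : K)
    have g : Good (τ A) (τ B) := by rw [← a, ← b]; exact hG.map _
    change ‖τ d0‖ ≤ _
    have N1 : (1 : ℝ) ≤ N := by exact_mod_cast Nat.pos_of_ne_zero hN
    rw [e1, hδ, map_prod, norm_prod, pow_mul]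
    refine (Finset.prod_le_prod (g := fun _ => (100 * H * N) ^ 27) (fun _ _ => norm_nonneg _)
      fun C hC => ?_).trans ?_
    · obtain ⟨k1, k2, k3⟩ := map_sub_data _ a b g ((sm C).1 hC).1
      have := dl_arch hH (hA τ) (hB τ) k1
      rw [k2, k3, ((sm C).1 hC).2.1] at this
      rw [map_mul, map_pow, map_natCast]
      exact this
    · rw [Finset.prod_const]
      exact pow_le_pow_right₀ (one_le_pow₀ (by nlinarith)) ((Finset.card_filter_le _ _).trans s2)

lemma sum_log_le {d : 𝓞 K} (hd : d ≠ 0) {T : ℝ} (hT : ∀ τ : K →+* ℂ, ‖τ d‖ ≤ T)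
    (S : Finset (Ideal (𝓞 K))) (hS : ∀ P ∈ S, P.IsMaximal ∧ d ∈ P) :
    ∑ P ∈ S, Real.log (Ideal.absNorm P) ≤ Module.finrank ℚ K * Real.log T := by
  have nb : ∀ P ∈ S, P ≠ ⊥ := fun P hP h => hd (by simpa [h] using (hS P hP).2)
  have h1 : ∏ P ∈ S, P ∣ Ideal.span {d} := Finset.prod_primes_dvd _
    (fun P hP => Ideal.prime_of_isPrime (nb P hP) (hS P hP).1.isPrime)
    (fun P hP => Ideal.dvd_span_singleton.2 (hS P hP).2)
  have h2 := map_dvd Ideal.absNorm h1
  rw [map_prod, Ideal.absNorm_span_singleton] at h2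
  have h3 := Nat.le_of_dvd (Int.natAbs_pos.2 (Algebra.norm_ne_zero_iff.2 hd)) h2
  have h4 : ((Algebra.norm ℤ d).natAbs : ℝ) ≤ T ^ Module.finrank ℚ K := by
    have e := congrArg norm (Algebra.norm_eq_prod_embeddings ℚ ℂ (d : K))
    rw [← Algebra.coe_norm_int, norm_prod] at e
    simp only [eq_ratCast, Rat.cast_intCast, Complex.norm_intCast] at e
    rw [Nat.cast_natAbs, Int.cast_abs, e, ← AlgHom.card ℚ K ℂ, ← Finset.card_univ,
      ← Finset.prod_const]
    exact Finset.prod_le_prod (fun _ _ => norm_nonneg _) fun τ _ => hT τ.toRingHom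
  have nz : ∀ P ∈ S, (Ideal.absNorm P : ℝ) ≠ 0 := fun P hP => by
    rw [Nat.cast_ne_zero, Ne, Ideal.absNorm_eq_zero_iff]
    exact nb P hP
  rw [← Real.log_prod nz, ← Real.log_pow]
  refine Real.log_le_log (Finset.prod_pos fun P hP => lt_of_le_of_ne (Nat.cast_nonneg _)
    (nz P hP).symm) (le_trans ?_ h4)
  exact_mod_cast h3

lemma sigma_sum (m : ℕ) :
    ∑ N ∈ Finset.Ioo (m ^ 2) ((m + 1) ^ 2), ∑ e ∈ N.divisors, e ≤ 7 * (m + 1) ^ 3 := by
  set M := (m + 1) ^ 2 with hM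
  have c : ∀ e ∈ Finset.Icc 1 M,
      (((Finset.Ioo (m ^ 2) M).filter fun N => e ∣ N).card : ℝ) ≤ 2 * m / e + 1 := by
    intro e he
    have e0 : 0 < e := (Finset.mem_Icc.1 he).1
    have : (Finset.Ioo (m ^ 2) M).filter (fun N => e ∣ N)
        ⊆ (Finset.Ioc 0 (m ^ 2 + 2 * m)).filter (fun N => e ∣ N)
          \ (Finset.Ioc 0 (m ^ 2)).filter (fun N => e ∣ N) := by
      intro N hN
      simp only [Finset.mem_filter, Finset.mem_Ioo, Finset.mem_sdiff, Finset.mem_Ioc] at hN ⊢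
      refine ⟨⟨⟨by omega, by nlinarith [hN.1.2]⟩, hN.2⟩, fun h => by omega⟩
    have h1 := Finset.card_le_card this
    rw [Finset.card_sdiff_of_subset (Finset.filter_subset_filter _ (Finset.Ioc_subset_Ioc_right
      (by omega))), Nat.Ioc_filter_dvd_card_eq_div, Nat.Ioc_filter_dvd_card_eq_div,
      Nat.add_div e0] at h1
    have h2 : ((Finset.Ioo (m ^ 2) M).filter fun N => e ∣ N).card ≤ 2 * m / e + 1 := by
      generalize 2 * m / e = f, m ^ 2 / e = g at h1 ⊢
      split_ifs at h1 <;> omega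
    calc _ ≤ ((2 * m / e + 1 : ℕ) : ℝ) := by exact_mod_cast h2
      _ ≤ _ := by
        push_cast
        gcongr
        exact_mod_cast Nat.cast_div_le (α := ℝ) (m := 2 * m) (n := e)
  have key : ((∑ N ∈ Finset.Ioo (m ^ 2) M, ∑ e ∈ N.divisors, e : ℕ) : ℝ) ≤ 7 * (m + 1) ^ 3 := by
    calc _ ≤ ∑ N ∈ Finset.Ioo (m ^ 2) M, ∑ e ∈ (Finset.Icc 1 M).filter (fun e => e ∣ N),
          (M : ℝ) / e := by
          push_cast
          refine Finset.sum_le_sum fun N hN => ?_
          rw [Finset.mem_Ioo] at hN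
          rw [← Nat.sum_div_divisors N fun e => (e : ℝ)]
          refine (Finset.sum_le_sum fun e _ => ?_).trans
            (Finset.sum_le_sum_of_subset_of_nonneg (fun e he => ?_) fun _ _ _ => by positivity)
          · refine Nat.cast_div_le.trans ?_
            gcongr
            exact hN.2.le
          · have h := Nat.dvd_of_mem_divisors he
            rw [Finset.mem_filter, Finset.mem_Icc]
            exact ⟨⟨Nat.pos_of_mem_divisors he, (Nat.le_of_dvd (by omega) h).trans hN.2.le⟩, h⟩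
      _ = ∑ e ∈ Finset.Icc 1 M, (((Finset.Ioo (m ^ 2) M).filter fun N => e ∣ N).card : ℝ)
          * ((M : ℝ) / e) := by
          simp only [Finset.sum_filter, Finset.card_filter]
          rw [Finset.sum_comm]
          refine Finset.sum_congr rfl fun e _ => ?_
          push_cast
          rw [Finset.sum_mul]
          exact Finset.sum_congr rfl fun N _ => by split_ifs <;> simp
      _ ≤ ∑ e ∈ Finset.Icc 1 M, (2 * m / e + 1) * ((M : ℝ) / e) :=
          Finset.sum_le_sum fun e he => mul_le_mul_of_nonneg_right (c e he) (by positivity)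
      _ = M * (2 * m * ∑ e ∈ Finset.Ioo 0 (M + 1), ((e : ℝ) ^ 2)⁻¹ + harmonic M) := by
          rw [harmonic_eq_sum_Icc, show Finset.Ioo 0 (M + 1) = Finset.Icc 1 M by
            ext; simp only [Finset.mem_Ioo, Finset.mem_Icc]; omega]
          push_cast
          rw [Finset.mul_sum, ← Finset.sum_add_distrib, Finset.mul_sum]
          exact Finset.sum_congr rfl fun e _ => by ring
      _ ≤ M * (2 * m * 2 + (1 + 2 * m)) := by
          gcongr
          · simpa using sum_Ioo_inv_sq_le (α := ℝ) 0 (M + 1)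
          · refine (harmonic_le_one_add_log M).trans ?_
            rw [hM]
            push_cast
            rw [Real.log_pow]
            have := Real.log_le_sub_one_of_pos (x := (m : ℝ) + 1) (by positivity)
            push_cast
            linarith
      _ ≤ _ := by
          rw [hM]
          push_cast
          nlinarith [sq_nonneg ((m : ℝ) + 1), Nat.cast_nonneg (α := ℝ) m]
  exact_mod_cast key

open Classical in
theorem main_nat {A B : 𝓞 K} (hΔ : (Wc A B).Δ ≠ 0) (H : NoCM (iK A) (iK B)) :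
    ∃ c : ℝ, 1 ≤ c ∧ ∀ (m : ℕ) (S : Finset (Ideal (𝓞 K))),
      (∀ P ∈ S, P.IsMaximal ∧ (Wc A B).Δ ∉ P ∧ ∀ a : ℤ, a = Ideal.absNorm P + 1
          - Nat.card ((Wc A B).map (Ideal.Quotient.mk P)).toAffine.Point →
        0 < 4 * (Ideal.absNorm P : ℤ) - a ^ 2 ∧ 4 * (Ideal.absNorm P : ℤ) - a ^ 2 ≤ m ^ 2) →
      ∑ P ∈ S, Real.log (Ideal.absNorm P)
        ≤ Module.finrank ℚ K * (190 * (m + 1) ^ 3 * Real.log (c * (m + 1) ^ 2)) := by
  have hG : Good (iK A) (iK B) := good_of_ne (by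
    have e : Wc (iK A) (iK B) = (Wc A B).map iK := by ext <;> simp [Wc]
    rw [e, WeierstrassCurve.map_Δ]
    exact (map_ne_zero_iff _ iK_inj).2 hΔ)
  obtain ⟨T, hT⟩ : ∃ T : ℝ, T = 1 + ∑ τ : K →+* ℂ, (‖τ A‖ + ‖τ B‖) := ⟨_, rfl⟩
  have sb : ∀ τ : K →+* ℂ, ‖τ A‖ + ‖τ B‖ ≤ ∑ τ : K →+* ℂ, (‖τ A‖ + ‖τ B‖) := fun τ =>
    Finset.single_le_sum (f := fun τ : K →+* ℂ => ‖τ A‖ + ‖τ B‖) (fun _ _ => by positivity)
      (Finset.mem_univ τ)
  have T1 : 1 ≤ T := by
    rw [hT]; exact le_add_of_nonneg_right (Finset.sum_nonneg fun _ _ => by positivity)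
  have hA : ∀ τ : K →+* ℂ, ‖τ A‖ ≤ T := fun τ => by
    linarith [sb τ, norm_nonneg (τ B)]
  have hB : ∀ τ : K →+* ℂ, ‖τ B‖ ≤ T := fun τ => by
    linarith [sb τ, norm_nonneg (τ A)]
  choose! d d0 d1 d2 using fun (N : ℕ) (hN : N ≠ 0) => exists_delta hG T1 hA hB hN
  refine ⟨100 * T, by linarith, fun m S hS => ?_⟩
  set M := (m + 1) ^ 2 with hM
  have M1 : (1 : ℝ) ≤ M := by exact_mod_cast Nat.one_le_pow _ _ m.succ_pos
  have b1 : (1 : ℝ) ≤ 100 * T * M := by nlinarith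
  have nz : ∀ N ∈ Finset.Ioo (m ^ 2) M, N ≠ 0 := fun N hN => by
    have := (Finset.mem_Ioo.1 hN).1
    omega
  have D0 : ((M.factorial : ℕ) : 𝓞 K) * ∏ N ∈ Finset.Ioo (m ^ 2) M, d N ≠ 0 :=
    mul_ne_zero (Nat.cast_ne_zero.2 M.factorial_ne_zero)
      (Finset.prod_ne_zero_iff.2 fun N hN => d0 N (nz N hN))
  have := sum_log_le D0 (T := (100 * T * M) ^ (190 * (m + 1) ^ 3)) (fun τ => ?_) S fun P hP => ?_
  · rw [Real.log_pow, hM] at this
    exact_mod_cast this
  · have e : τ ((((M.factorial : ℕ) : 𝓞 K) * ∏ N ∈ Finset.Ioo (m ^ 2) M, d N : 𝓞 K) : K)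
        = (M.factorial : ℕ) * ∏ N ∈ Finset.Ioo (m ^ 2) M, τ (d N) := by
      change τ.comp (algebraMap (𝓞 K) K) _ = _
      rw [map_mul, map_natCast, map_prod]
      rfl
    rw [e, norm_mul, norm_prod, Complex.norm_natCast]
    calc _ ≤ (100 * T * M) ^ M * ∏ N ∈ Finset.Ioo (m ^ 2) M,
          (100 * T * M) ^ (27 * ∑ e ∈ N.divisors, e) := by
          gcongr with N hN
          · calc (M.factorial : ℝ) ≤ (M : ℝ) ^ M := by exact_mod_cast Nat.factorial_le_pow M
              _ ≤ _ := by gcongr; nlinarith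
          · refine (d2 N (nz N hN) τ).trans ?_
            gcongr
            exact (Finset.mem_Ioo.1 hN).2.le
      _ ≤ _ := by
          rw [Finset.prod_pow_eq_pow_sum, ← pow_add, ← Finset.mul_sum]
          refine pow_le_pow_right₀ b1 ?_
          have h1 := sigma_sum m
          have h2 : M ≤ (m + 1) ^ 3 := Nat.pow_le_pow_right m.succ_pos (by norm_num)
          rw [← hM] at h1
          omega
  · obtain ⟨p1, p2, p3⟩ := hS P hP
    refine ⟨p1, ?_⟩
    by_cases hm : ((M.factorial : ℕ) : 𝓞 K) ∈ P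
    · exact P.mul_mem_right _ hm
    obtain ⟨h0, h1⟩ := p3 _ rfl
    haveI : Finite (𝓞 K ⧸ P) := (Ideal.absNorm_ne_zero_iff P).1 (by
      intro h
      rw [h] at h0
      simp only [Nat.cast_zero, mul_zero, zero_sub, Left.neg_pos_iff] at h0
      exact absurd h0 (not_lt.2 (sq_nonneg _)))
    obtain ⟨O, o1, o2, C, c1, c2, c3, c4, c5⟩ := local_thm iK iK_inj hG H P p2 hm rfl h0 h1
    have hN : C.card ∈ Finset.Ioo (m ^ 2) M := Finset.mem_Ioo.2 ⟨c2, c3⟩
    rw [← Finset.mul_prod_erase _ _ hN]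
    exact P.mul_mem_left _ (P.mul_mem_right _ ((o2 _).1 (d1 _ (nz _ hN) O o1 C c1 rfl c4 c5)))

end Pool.Agent.MP_c481b3_nt.H81
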