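import Pool.Agent.MP_c481b3_nt.H81.Gen

set_option autoImplicit false

namespace Pool.Agent.MP_c481b3_nt.H81

open Polynomial

lemma exists_val {R L : Type*} [CommRing R] [Field L] (ψ : R →+* L) (hψ : Function.Injective ψ)
    (P : Ideal R) (hP : P.IsMaximal) :
    ∃ O : ValuationSubring L, (∀ r, ψ r ∈ O) ∧ ∀ r, O.valuation (ψ r) < 1 ↔ r ∈ P := by
  have hb : Function.Bijective ψ.rangeRestrict :=
    ⟨fun a b h => hψ (congrArg Subtype.val h), ψ.rangeRestrict_surjective⟩
  have hI : P.map ψ.rangeRestrict ≠ ⊤ := by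
    intro h
    have := Ideal.comap_map_of_bijective ψ.rangeRestrict hb (I := P)
    rw [h, Ideal.comap_top] at this
    exact hP.ne_top this.symm
  obtain ⟨O, h1, h2⟩ := Ideal.image_subset_nonunits_valuationSubring _ hI
  have hm : ∀ r, ψ r ∈ O := fun r => h1 ⟨r, rfl⟩
  refine ⟨O, hm, ?_⟩
  set J : Ideal R := (IsLocalRing.maximalIdeal O).comap (ψ.codRestrict O.toSubring hm) with hJ
  have hJm : ∀ r, r ∈ J ↔ O.valuation (ψ r) < 1 := fun r =>
    O.valuation_lt_one_iff ⟨ψ r, hm r⟩
  have hPJ : P ≤ J := fun r hr =>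
    (hJm r).2 (O.mem_nonunits_iff.1 (h2 ⟨_, Ideal.mem_map_of_mem _ hr, rfl⟩))
  have hJt : J ≠ ⊤ := by
    intro h
    have := (hJm 1).1 (h ▸ Submodule.mem_top)
    simp at this
  intro r
  rw [← hJm, hP.eq_of_le hJt hPJ]

/-- the residue map as a place -/
noncomputable def resPlc {L : Type*} [Field L] (O : ValuationSubring L) :
    Plc L (IsLocalRing.ResidueField O) :=
  ⟨O, IsLocalRing.residue O, fun a => by
    rw [IsLocalRing.residue_eq_zero_iff, O.valuation_lt_one_iff]⟩

lemma mem_range_of_alg {k M : Type*} [Field k] [IsAlgClosed k] [Field M] (j : k →+* M) {a : M}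
    {p : k[X]} (hp : p ≠ 0) (h : p.eval₂ j a = 0) : ∃ c, j c = a := by
  have hs : p.Splits := IsAlgClosed.splits p
  exact hs.mem_range_of_isRoot hp (by rwa [IsRoot, eval_map])

variable {k : Type*} [Field k]

lemma exists_prim {L : Type*} [Field L] (ψ : k[X] →+* L) (hψ : Function.Injective ψ) (x0 : k)
    (a : L) : ∀ (n : ℕ) (p : k[X][X]), p ≠ 0 → p.leadingCoeff.natDegree = n → p.eval₂ ψ a = 0 →
      ∃ q : k[X][X], q.map (evalRingHom x0) ≠ 0 ∧ q.eval₂ ψ a = 0 := by
  intro n
  induction n using Nat.strong_induction_on with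
  | _ n ih =>
    intro p hp hn h
    by_cases h0 : p.map (evalRingHom x0) = 0
    · have : C (X - C x0) ∣ p := by
        rw [C_dvd_iff_dvd_coeff]
        intro i
        rw [dvd_iff_isRoot]
        have := congrArg (fun t => coeff t i) h0
        simpa using this
      obtain ⟨q, rfl⟩ := this
      have hq : q ≠ 0 := right_ne_zero_of_mul hp
      rw [eval₂_mul, eval₂_C] at h
      have h1 : ψ (X - C x0) ≠ 0 := (map_ne_zero_iff _ hψ).2 (X_sub_C_ne_zero x0)
      refine ih _ ?_ q hq rfl ((mul_eq_zero.1 h).resolve_left h1)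
      rw [← hn, leadingCoeff_mul, leadingCoeff_C,
        natDegree_mul (X_sub_C_ne_zero x0) (leadingCoeff_ne_zero.2 hq), natDegree_X_sub_C]
      omega
    · exact ⟨p, h0, h⟩

/-- an algebraic closure of the field of rational functions -/
abbrev LL (k : Type*) [Field k] := AlgebraicClosure (RatFunc k)

/-- the inclusion of rational functions -/
noncomputable abbrev aL : RatFunc k →+* LL k := algebraMap (RatFunc k) (LL k)

/-- the inclusion of constants -/
noncomputable abbrev cL : k →+* LL k := algebraMap k (LL k)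

lemma aL_C (a : k) : aL (RatFunc.C a) = cL a :=
  (IsScalarTower.algebraMap_apply k (RatFunc k) (LL k) a).symm

/-- a place above the point `x0` -/
structure At (π : Plc (LL k) k) (x0 : k) : Prop where
  mem : ∀ p : k[X], aL (ap p) ∈ π.O
  ev : ∀ p : k[X], π.ev (aL (ap p)) = p.eval x0

lemma exists_at [IsAlgClosed k] (x0 : k) : ∃ π : Plc (LL k) k, At π x0 := by
  set ψ : k[X] →+* LL k := aL.comp ap with hψ
  have hinj : Function.Injective ψ := (aL (k := k)).injective.comp ap_inj
  have hmax : (Ideal.span {X - C x0} : Ideal k[X]).IsMaximal :=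
    PrincipalIdealRing.isMaximal_of_irreducible (irreducible_X_sub_C x0)
  obtain ⟨O, h1, h2⟩ := exists_val ψ hinj _ hmax
  set ψ' : k[X] →+* O := ψ.codRestrict O.toSubring h1 with hψ'
  set j : k →+* IsLocalRing.ResidueField O := (IsLocalRing.residue O).comp (ψ'.comp C) with hj
  have hres : ∀ c : k[X], IsLocalRing.residue O (ψ' c) = j (c.eval x0) := by
    intro c
    rw [hj, RingHom.comp_apply, RingHom.comp_apply, ← sub_eq_zero, ← map_sub, ← map_sub,
      IsLocalRing.residue_eq_zero_iff, O.valuation_lt_one_iff]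
    exact (h2 _).2 (Ideal.mem_span_singleton.2 X_sub_C_dvd_sub_C_eval)
  have hsurj : Function.Surjective j := by
    intro b
    obtain ⟨a, rfl⟩ := IsLocalRing.residue_surjective b
    have halg : IsAlgebraic (RatFunc k) (a : LL k) := Algebra.IsAlgebraic.isAlgebraic _
    rw [← IsFractionRing.isAlgebraic_iff k[X] (RatFunc k) (LL k)] at halg
    obtain ⟨p, hp, hpa⟩ := halg
    obtain ⟨q, hq, hqa⟩ := exists_prim ψ hinj x0 a _ p hp rfl hpa
    refine mem_range_of_alg j hq ?_
    have e1 : q.eval₂ ψ' a = 0 := by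
      apply Subtype.val_injective
      have := hom_eval₂ q ψ' O.subtype a
      exact this.trans hqa
    have e2 := hom_eval₂ q ψ' (IsLocalRing.residue O) a
    rw [e1, map_zero] at e2
    rw [eval₂_map]
    rw [e2]
    congr 1
    ext c
    · simpa using (hres (C c)).symm
    · simpa using (hres X).symm
  set e := RingEquiv.ofBijective j ⟨j.injective, hsurj⟩ with he
  let π : Plc (LL k) k := ⟨O, e.symm.toRingHom.comp (IsLocalRing.residue O), fun a => by
    rw [← O.valuation_lt_one_iff, ← IsLocalRing.residue_eq_zero_iff]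
    simp⟩
  refine ⟨π, h1, fun p => ?_⟩
  refine (π.ev_coe (ψ' p)).trans ?_
  change e.symm (IsLocalRing.residue O (ψ' p)) = _
  rw [hres, RingEquiv.symm_apply_eq]
  rfl

namespace At
variable {π : Plc (LL k) k} {x0 : k} (h : At π x0)
include h

lemma c_mem (a : k) : cL a ∈ π.O := by
  have := h.mem (C a)
  rwa [RatFunc.algebraMap_C, aL_C] at this

lemma ev_c (a : k) : π.ev (cL a) = a := by
  have := h.ev (C a)
  rwa [RatFunc.algebraMap_C, aL_C, eval_C] at this

lemma x_mem : aL RatFunc.X ∈ π.O := h.mem X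

lemma ev_x : π.ev (aL RatFunc.X) = x0 := by simpa using h.ev X

lemma mem_iff (r : RatFunc k) : aL r ∈ π.O ↔ r.denom.eval x0 ≠ 0 := by
  constructor
  · intro hr h0
    have e := congrArg (fun t => π.ev (aL t)) (num_eq r)
    simp only [map_mul] at e
    rw [π.ev_mul hr (h.mem _), h.ev, h.ev, h0, mul_zero] at e
    exact cop_eval r.isCoprime_num_denom x0 e h0
  · intro h0
    rw [← r.num_div_denom, map_div₀]
    exact π.div_mem (h.mem _) (h.mem _) (by rwa [h.ev])

lemma ev_eq (r : RatFunc k) (h0 : r.denom.eval x0 ≠ 0) :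
    π.ev (aL r) = r.num.eval x0 / r.denom.eval x0 := by
  conv_lhs => rw [← r.num_div_denom, map_div₀]
  rw [π.ev_div (h.mem _) (h.mem _) (by rwa [h.ev]), h.ev, h.ev]

lemma rd {A B : k} (hG : Good A B) : Rd π (cL A) (cL B) A B :=
  ⟨h.c_mem A, h.c_mem B, h.ev_c A, h.ev_c B, hG⟩

lemma bounded [DecidableEq (RatFunc k)] (σ : RatFunc k →ₐ[k] LL k) (hσ : σ RatFunc.X ∉ π.O)
    {r : RatFunc k} (hr : vi r ≤ 1) : σ r ∈ π.O := by
  by_cases h0 : r = 0
  · simp [h0]
  set w := π.O.valuation.comap σ.toRingHom with hw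
  haveI : w.IsTrivialOn k := ⟨fun a ha => by
    change π.O.valuation (σ (algebraMap k (RatFunc k) a)) = 1
    rw [σ.commutes]
    exact π.v_eq_one (h.c_mem a) (by rwa [h.ev_c])⟩
  have h1 : 1 < w RatFunc.X := not_le.1 fun h' => hσ ((π.O.valuation_le_one_iff _).1 h')
  have h2 := RatFunc.valuation_eq_valuation_X_zpow_intDegree_of_one_lt_valuation_X h1 h0
  rw [← π.O.valuation_le_one_iff]
  change w r ≤ 1
  rw [h2]
  refine zpow_le_one_of_nonpos₀ h1.le ?_
  rw [vi_eq h0, ← WithZero.exp_zero, WithZero.exp_le_exp] at hr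
  exact hr

end At

end Pool.Agent.MP_c481b3_nt.H81
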