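import Pool.Agent.MP_c481b3_nt.H81.Val

set_option autoImplicit false

namespace Pool.Agent.MP_c481b3_nt.H81

variable {A B : ℂ} {H : ℝ}

lemma aclosure_aux (hH : 1 ≤ H) (hA : ‖A‖ ≤ H) (hB : ‖B‖ ≤ H) {x1 x2 x3 : ℂ}
    (hid : (A - (x1 * x2 + x1 * x3 + x2 * x3)) ^ 2 = 4 * (x1 + x2 + x3) * (x1 * x2 * x3 + B))
    (h1 : 4 * H ≤ ‖x1‖) (h12 : ‖x1‖ ≤ ‖x2‖) : ‖x1‖ / 64 ≤ ‖x3‖ := by
  by_contra h3
  rw [not_le] at h3
  set a := ‖x1‖ with ha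
  set b := ‖x2‖ with hb
  set c := ‖x3‖ with hc
  have hc0 : 0 ≤ c := norm_nonneg _
  have ha4 : 4 ≤ a := by linarith
  have hab : 16 * H ≤ a * b := by nlinarith
  have e1 : a * b - H - a * c - b * c ≤ ‖A - (x1 * x2 + x1 * x3 + x2 * x3)‖ := by
    have t : x1 * x2 = A - (A - (x1 * x2 + x1 * x3 + x2 * x3)) - x1 * x3 - x2 * x3 := by ring
    have t2 : ‖x1 * x2‖ ≤ ‖A‖ + ‖A - (x1 * x2 + x1 * x3 + x2 * x3)‖ + ‖x1 * x3‖ + ‖x2 * x3‖ := by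
      conv_lhs => rw [t]
      refine (norm_sub_le _ _).trans ?_
      gcongr
      refine (norm_sub_le _ _).trans ?_
      gcongr
      exact norm_sub_le _ _
    simp only [norm_mul] at t2
    linarith
  have e1' : 9 / 10 * (a * b) ≤ ‖A - (x1 * x2 + x1 * x3 + x2 * x3)‖ := by
    have : a * c ≤ b * c := by gcongr
    have : b * c ≤ b * (a / 64) := by gcongr
    nlinarith
  have e2 : ‖x1 + x2 + x3‖ ≤ 3 * b := by
    have := norm_add₃_le (a := x1) (b := x2) (c := x3)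
    linarith
  have e3 : ‖x1 * x2 * x3 + B‖ ≤ a * a * b / 32 := by
    have t := norm_add_le (x1 * x2 * x3) B
    simp only [norm_mul] at t
    have : a * b * c ≤ a * b * (a / 64) := by gcongr
    have : 4 * (16 * H) ≤ a * (a * b) := by gcongr
    nlinarith
  have e5 := congrArg norm hid
  rw [norm_pow, norm_mul, norm_mul] at e5
  have e6 : ‖(4 : ℂ)‖ * ‖x1 + x2 + x3‖ * ‖x1 * x2 * x3 + B‖ ≤ 4 * (3 * b) * (a * a * b / 32) := by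
    have : ‖(4 : ℂ)‖ = 4 := by simp
    rw [this]; gcongr
  have e7 : (9 / 10 * (a * b)) ^ 2 ≤ ‖A - (x1 * x2 + x1 * x3 + x2 * x3)‖ ^ 2 := by gcongr
  have : 0 < a * b := by linarith
  nlinarith

lemma aclosure (hH : 1 ≤ H) (hA : ‖A‖ ≤ H) (hB : ‖B‖ ≤ H) {x1 x2 x3 : ℂ} {m : ℝ}
    (hid : (A - (x1 * x2 + x1 * x3 + x2 * x3)) ^ 2 = 4 * (x1 + x2 + x3) * (x1 * x2 * x3 + B))
    (hm : 4 * H ≤ m) (h1 : m ≤ ‖x1‖) (h2 : m ≤ ‖x2‖) : m / 64 ≤ ‖x3‖ := by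
  rcases le_total ‖x1‖ ‖x2‖ with h | h
  · have := aclosure_aux hH hA hB hid (hm.trans h1) h
    linarith
  · have := aclosure_aux hH hA hB (x1 := x2) (x2 := x1) (x3 := x3)
      (by linear_combination hid) (hm.trans h2) h
    linarith

lemma a_cubic (hH : 1 ≤ H) (hA : ‖A‖ ≤ H) (hB : ‖B‖ ≤ H) {x y : ℂ} (hx : 2 * H ≤ ‖x‖)
    (h : y ^ 2 = x ^ 3 + A * x + B) : ‖x‖ ^ 3 / 2 ≤ ‖y‖ ^ 2 ∧ ‖y‖ ^ 2 ≤ 2 * ‖x‖ ^ 3 := by
  have h2 : 2 ≤ ‖x‖ := by linarith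
  have t : ‖A * x + B‖ ≤ ‖x‖ ^ 3 / 2 := by
    have t1 := norm_add_le (A * x) B
    rw [norm_mul] at t1
    have t2 : ‖A‖ * ‖x‖ ≤ ‖x‖ / 2 * ‖x‖ := by gcongr; linarith
    have t3 : 2 * ‖x‖ ^ 2 ≤ ‖x‖ ^ 3 := by nlinarith [sq_nonneg ‖x‖]
    nlinarith
  rw [← norm_pow, ← norm_pow, h, add_assoc]
  rw [← norm_pow] at t
  have u1 := norm_add_le (x ^ 3) (A * x + B)
  have u2 := norm_sub_le (x ^ 3 + (A * x + B)) (A * x + B)
  rw [add_sub_cancel_right] at u2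
  have := norm_nonneg (x ^ 3)
  constructor <;> linarith

lemma azest (hH : 1 ≤ H) (hA : ‖A‖ ≤ H) (hB : ‖B‖ ≤ H) {l n x1 y1 x2 y2 x3 y3 : ℂ} {m : ℝ}
    (h : ColAt A B l n x1 y1 x2 y2 x3 y3) (q1 : y1 ^ 2 = x1 ^ 3 + A * x1 + B)
    (q2 : y2 ^ 2 = x2 ^ 3 + A * x2 + B) (q3 : y3 ^ 2 = x3 ^ 3 + A * x3 + B)
    (hm : 2 * H ≤ m) (h1 : m ≤ ‖x1‖) (h2 : m ≤ ‖x2‖) (h3 : m ≤ ‖x3‖) :
    ‖x1 / y1 + x2 / y2 + x3 / y3‖ ^ 2 * m ^ 3 ≤ 1568 * H ^ 2 := by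
  have w1 := (a_cubic hH hA hB (hm.trans h1) q1).1
  have w2 := (a_cubic hH hA hB (hm.trans h2) q2).1
  have w3 := (a_cubic hH hA hB (hm.trans h3) q3).1
  have hm2 : 2 ≤ m := by linarith
  have g1 : 1 ≤ ‖x1‖ := by linarith
  have g2 : 1 ≤ ‖x2‖ := by linarith
  have g3 : 1 ≤ ‖x3‖ := by linarith
  have nz : ∀ {x y : ℂ}, 1 ≤ ‖x‖ → ‖x‖ ^ 3 / 2 ≤ ‖y‖ ^ 2 → y ≠ 0 := by
    intro x y hx hy h0
    rw [h0, norm_zero] at hy
    have : 0 < ‖x‖ ^ 3 := by positivity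
    linarith
  have n1 := nz g1 w1
  have n2 := nz g2 w2
  have n3 := nz g3 w3
  set p := ‖x1‖ * ‖x2‖ * ‖x3‖ with hp
  have p1 : ‖x1‖ ≤ p := (le_mul_of_one_le_right (by positivity) g2).trans
    (le_mul_of_one_le_right (by positivity) g3)
  have p2 : ‖x2‖ ≤ p := (le_mul_of_one_le_left (by positivity) g1).trans
    (le_mul_of_one_le_right (by positivity) g3)
  have p3 : ‖x3‖ ≤ p := le_mul_of_one_le_left (by positivity) (one_le_mul_of_one_le_of_one_le g1 g2)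
  have hp0 : 0 < p := by linarith
  have hl : ‖l‖ ^ 2 ≤ 3 * p := by
    rw [← norm_pow, ← h.e1]
    have := norm_add₃_le (a := x1) (b := x2) (c := x3)
    linarith
  have hn : ‖n‖ ^ 2 ≤ 2 * p := by
    have e : n ^ 2 = x1 * x2 * x3 + B := by rw [h.e3]; ring
    rw [← norm_pow, e]
    have t := norm_add_le (x1 * x2 * x3) B
    simp only [norm_mul] at t
    linarith
  have hnum : ‖2 * A * l * n - 3 * B * l ^ 2‖ ≤ 14 * H * p := by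
    have t := norm_sub_le (2 * A * l * n) (3 * B * l ^ 2)
    simp only [norm_mul, norm_pow, Complex.norm_ofNat] at t
    have t1 : ‖l‖ * ‖n‖ ≤ 5 / 2 * p := by nlinarith [sq_nonneg (‖l‖ - ‖n‖)]
    have t2 : 2 * ‖A‖ * ‖l‖ * ‖n‖ ≤ 2 * H * (5 / 2 * p) := by
      rw [mul_assoc (2 * ‖A‖)]; gcongr
    have t3 : 3 * ‖B‖ * ‖l‖ ^ 2 ≤ 3 * H * (3 * p) := by gcongr
    nlinarith
  have hs : (x1 / y1 + x2 / y2 + x3 / y3) * (y1 * y2 * y3) = 2 * A * l * n - 3 * B * l ^ 2 := by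
    rw [← h.zsum]; field_simp
  have hs2 := congrArg (fun t => ‖t‖ ^ 2) hs
  simp only [norm_mul, mul_pow] at hs2
  set s := ‖x1 / y1 + x2 / y2 + x3 / y3‖ ^ 2 with hs'
  have hs0 : 0 ≤ s := by positivity
  have a1 : p ^ 3 / 8 ≤ ‖y1‖ ^ 2 * ‖y2‖ ^ 2 * ‖y3‖ ^ 2 := by
    calc p ^ 3 / 8 = (‖x1‖ ^ 3 / 2) * (‖x2‖ ^ 3 / 2) * (‖x3‖ ^ 3 / 2) := by rw [hp]; ring
      _ ≤ _ := by gcongr
  have a2 : s * (p ^ 3 / 8) ≤ (14 * H * p) ^ 2 :=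
    calc s * (p ^ 3 / 8) ≤ s * (‖y1‖ ^ 2 * ‖y2‖ ^ 2 * ‖y3‖ ^ 2) := by gcongr
      _ = _ := hs2
      _ ≤ _ := by gcongr
  have a3 : (s * p) * p ^ 2 ≤ (1568 * H ^ 2) * p ^ 2 := by nlinarith
  have a4 := le_of_mul_le_mul_right a3 (by positivity)
  refine le_trans ?_ a4
  gcongr
  rw [hp, pow_succ, sq]
  gcongr

lemma z_bounds (hH : 1 ≤ H) (hA : ‖A‖ ≤ H) (hB : ‖B‖ ≤ H) {P : Pt A B} (hP : P ≠ 0)
    (hx : 2 * H ≤ ‖xc P‖) : 1 / 2 ≤ ‖zc P‖ ^ 2 * ‖xc P‖ ∧ ‖zc P‖ ^ 2 * ‖xc P‖ ≤ 2 := by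
  obtain ⟨w1, w2⟩ := a_cubic hH hA hB hx (eqn hP)
  have h0 : 0 < ‖xc P‖ ^ 3 := by
    have : 0 < ‖xc P‖ := by linarith
    positivity
  have hy : 0 < ‖yc P‖ ^ 2 := by linarith
  have e : ‖zc P‖ ^ 2 * ‖xc P‖ = ‖xc P‖ ^ 3 / ‖yc P‖ ^ 2 := by
    rw [zc, norm_div, div_pow]; ring
  rw [e, le_div_iff₀ hy, div_le_iff₀ hy]
  constructor <;> linarith

variable [DecidableEq ℂ]

lemma torsion_arch (hH : 1 ≤ H) (hA : ‖A‖ ≤ H) (hB : ‖B‖ ≤ H) {P : Pt A B} {N : ℕ} (hN0 : 1 ≤ N)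
    (hN : N • P = 0) : ‖xc P‖ ≤ 2000000 * H * N ^ 3 := by
  by_contra hx
  rw [not_le] at hx
  have hN1 : (1 : ℝ) ≤ N := by exact_mod_cast hN0
  have hP : P ≠ 0 := by
    rintro rfl
    rw [xc_zero, norm_zero] at hx
    have : 0 < 2000000 * H * (N : ℝ) ^ 3 := by positivity
    linarith
  set M := ‖xc P‖ with hM
  have hN2 : (1 : ℝ) ≤ N ^ 2 := one_le_pow₀ hN1
  have hN3 : (N : ℝ) ^ 2 ≤ N ^ 3 := pow_le_pow_right₀ hN1 (by norm_num)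
  have hM1 : 2000000 * H * N ^ 2 ≤ M := le_trans (by gcongr) hx.le
  have hM2 : 2000000 * H ≤ M := le_trans (le_mul_of_one_le_right (by positivity) hN2) hM1
  have hM0 : 0 < M := by linarith
  obtain ⟨z1, z2⟩ := z_bounds hH hA hB hP (by linarith)
  rw [← hM] at z1 z2
  set m := M / (16 * N ^ 2) with hm
  have hmM : m ≤ M := div_le_self hM0.le (by linarith)
  have hm1 : 256 * H ≤ m := by
    rw [hm, le_div_iff₀ (by positivity)]; nlinarith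
  have hz0 : 0 < ‖zc P‖ := by
    rcases (norm_nonneg (zc P)).lt_or_eq with h | h
    · exact h
    · rw [← h] at z1; norm_num at z1
  have key : ∀ k : ℕ, k + 1 ≤ N → (k + 1) • P ≠ 0 ∧ m ≤ ‖xc ((k + 1) • P)‖ ∧
      ‖zc ((k + 1) • P) - (k + 1 : ℕ) * zc P‖ ≤ k * ‖zc P‖ := by
    intro k
    induction k with
    | zero => intro _; simpa using ⟨hP, hmM⟩
    | succ k ih =>
      intro hk
      obtain ⟨i1, i2, i3⟩ := ih (by omega)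
      have hk' : (k : ℝ) + 2 ≤ N := by exact_mod_cast hk
      rw [succ_nsmul]
      set Q := (k + 1) • P with hQ
      have hPQ : Q + P ≠ 0 := by
        intro h0
        rw [eq_neg_of_add_eq_zero_left h0] at i3
        have e : zc (-P) - (k + 1 : ℕ) * zc P = -(((k + 2 : ℕ) : ℂ) * zc P) := by
          simp only [zc, xc_neg, yc_neg, div_neg]; push_cast; ring
        rw [e, norm_neg, norm_mul, Complex.norm_natCast] at i3
        push_cast at i3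
        nlinarith
      have hR := neg_ne_zero.2 hPQ
      obtain ⟨l, n, h⟩ := col_of_sum i1 hP hR (add_neg_cancel (Q + P))
      have h3 := aclosure hH hA hB h.sym (by linarith) i2 hmM
      have h4 := azest hH hA hB h (eqn i1) (eqn hP) (eqn hR) (m := m / 64) (by linarith)
        (by linarith) (by linarith) h3
      have e : xc Q / yc Q + xc P / yc P + xc (-(Q + P)) / yc (-(Q + P))
          = -(zc (Q + P) - zc Q - zc P) := by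
        simp only [zc, xc_neg, yc_neg, div_neg]; ring
      rw [e, norm_neg] at h4
      rw [xc_neg] at h3
      set s := ‖zc (Q + P) - zc Q - zc P‖ with hs
      have hs1 : s ≤ ‖zc P‖ := by
        refine (pow_le_pow_iff_left₀ (by positivity) hz0.le two_ne_zero).1 ?_
        have b1 : (m / 64) ^ 3 = M ^ 3 / (2 ^ 30 * (N ^ 3) ^ 2) := by rw [hm]; field_simp; norm_num
        rw [b1, ← mul_div_assoc, div_le_iff₀ (by positivity)] at h4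
        have b2 : (2000000 * H * N ^ 3) ^ 2 ≤ M ^ 2 := by gcongr
        have b3 : s ^ 2 * M * M ^ 2 ≤ 1 / 2 * M ^ 2 := by nlinarith
        have b4 := le_of_mul_le_mul_right b3 (by positivity)
        exact le_of_mul_le_mul_right (b4.trans z1) hM0
      have i4 : ‖zc (Q + P) - (k + 1 + 1 : ℕ) * zc P‖ ≤ (k + 1 : ℕ) * ‖zc P‖ := by
        have e2 : zc (Q + P) - (k + 1 + 1 : ℕ) * zc P
            = (zc (Q + P) - zc Q - zc P) + (zc Q - (k + 1 : ℕ) * zc P) := by push_cast; ring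
        rw [e2]
        refine (norm_add_le _ _).trans ?_
        push_cast at i3 ⊢
        linarith
      refine ⟨hPQ, ?_, i4⟩
      have i5 : ‖zc (Q + P)‖ ≤ 2 * N * ‖zc P‖ := by
        have t := norm_add_le (zc (Q + P) - (k + 1 + 1 : ℕ) * zc P) ((k + 1 + 1 : ℕ) * zc P)
        rw [sub_add_cancel, norm_mul, Complex.norm_natCast] at t
        push_cast at t i4
        nlinarith
      obtain ⟨z3, -⟩ := z_bounds hH hA hB hPQ (by linarith)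
      have i6 : ‖zc (Q + P)‖ ^ 2 ≤ (2 * N * ‖zc P‖) ^ 2 := by gcongr
      have i7 : 1 / 2 ≤ (2 * N * ‖zc P‖) ^ 2 * ‖xc (Q + P)‖ := z3.trans (by gcongr)
      rw [hm, div_le_iff₀ (by positivity)]
      have i8 : 1 / 2 * M ≤ (2 * N * ‖zc P‖) ^ 2 * ‖xc (Q + P)‖ * M := by gcongr
      have i9 : (2 * N * ‖zc P‖) ^ 2 * ‖xc (Q + P)‖ * M
          = 4 * N ^ 2 * ‖xc (Q + P)‖ * (‖zc P‖ ^ 2 * M) := by ring
      have i10 : 4 * N ^ 2 * ‖xc (Q + P)‖ * (‖zc P‖ ^ 2 * M) ≤ 4 * N ^ 2 * ‖xc (Q + P)‖ * 2 := by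
        gcongr
      linarith
  obtain ⟨k, rfl⟩ : ∃ k, N = k + 1 := ⟨N - 1, by omega⟩
  exact (key k le_rfl).1 hN

end Pool.Agent.MP_c481b3_nt.H81
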