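import Pool.Agent.MP_c481b3_nt.H81.Frob
import Pool.Agent.MP_c481b3_nt.H81.Arch

set_option autoImplicit false

namespace Pool.Agent.MP_c481b3_nt.H81

open Polynomial

lemma resid_closed {L : Type*} [Field L] [IsAlgClosed L] (O : ValuationSubring L) :
    IsAlgClosed (IsLocalRing.ResidueField O) := by
  refine IsAlgClosed.of_exists_root _ fun p hp hi => ?_
  obtain ⟨q, rfl, h1, h2⟩ := lifts_and_natDegree_eq_and_monic
    (f := IsLocalRing.residue O) ((mem_lifts p).2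
      (map_surjective _ IsLocalRing.residue_surjective p)) hp
  have h3 : (q.map (algebraMap O L)).degree ≠ 0 := by
    rw [h2.degree_map]
    exact (natDegree_pos_iff_degree_pos.1 (h1 ▸ hi.natDegree_pos)).ne'
  obtain ⟨x, hx⟩ := IsAlgClosed.exists_root _ h3
  rw [IsRoot, eval_map] at hx
  obtain ⟨y, rfl⟩ := (IsIntegrallyClosed.isIntegral_iff (R := O) (K := L)).1 ⟨q, h2, hx⟩
  refine ⟨IsLocalRing.residue O y, ?_⟩
  rw [eval₂_at_apply, map_eq_zero_iff _ (IsFractionRing.injective O L)] at hx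
  rw [eval_map, eval₂_at_apply, hx, map_zero]

lemma exists_t {a q : ℤ} {m : ℕ} (h0 : 0 < 4 * q - a ^ 2) (h1 : 4 * q - a ^ 2 ≤ m ^ 2) :
    ∃ t : ℤ, (m : ℤ) ^ 2 < t ^ 2 - a * t + q ∧ t ^ 2 - a * t + q < (m + 1) ^ 2 := by
  classical
  have ex : ∃ u : ℕ, (m : ℤ) ^ 2 < (a / 2 + u) ^ 2 - a * (a / 2 + u) + q := by
    refine ⟨m + 1, ?_⟩
    have : 2 * (a / 2) = a ∨ 2 * (a / 2) = a - 1 := by omega
    push_cast
    rcases this with h | h <;> nlinarith [Int.natCast_nonneg m]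
  have m1 : (1 : ℤ) ≤ m ^ 2 := by omega
  refine ⟨a / 2 + Nat.find ex, Nat.find_spec ex, ?_⟩
  rcases h : Nat.find ex with _ | u
  · have h1 := Nat.find_spec ex
    rw [h] at h1
    have h2 : 2 * (a / 2) = a ∨ 2 * (a / 2) = a - 1 := by omega
    simp only [Nat.cast_zero, add_zero] at h1 ⊢
    rcases h2 with h | h <;> nlinarith
  · have h2 := not_lt.1 (Nat.find_min ex (m := u) (by omega))
    have h3 : 2 * (a / 2 + u) - a < 2 * m := by
      by_contra h3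
      nlinarith [Int.natCast_nonneg m]
    push_cast
    nlinarith

variable {L : Type*} [Field L] [DecidableEq L] {A B : L}

lemma IsSub.nsmul_card {C : Finset (Pt A B)} (h : IsSub C) {P : Pt A B} (hP : P ∈ C) :
    C.card • P = 0 := by
  let K : AddSubgroup (Pt A B) :=
    AddSubgroup.ofSub C ⟨0, h.zero⟩ fun P hP Q hQ => h.add hP (h.neg hQ)
  have := card_nsmul_eq_zero' (x := (⟨P, hP⟩ : K))
  rw [show Nat.card K = C.card from Nat.subtype_card C fun _ => Iff.rfl] at this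
  exact congrArg Subtype.val this

lemma dl_mem (O : ValuationSubring L) (hA : A ∈ O) (hB : B ∈ O) {C : Finset (Pt A B)}
    (h : IsSub C) : (C.card : L) ^ 6 * dl C ∈ O := by
  have hx : ∀ P ∈ C.erase 0, (C.card : L) * xc P ∈ O := fun P hP =>
    (O.valuation_le_one_iff _).1 (torsion_int O.valuation ((O.valuation_le_one_iff _).2 hA)
      ((O.valuation_le_one_iff _).2 hB) (h.nsmul_card (Finset.mem_of_mem_erase hP)))
  have hN : (C.card : L) ∈ O := natCast_mem O _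
  generalize (C.card : L) = N at *
  have n2 : (2 : L) ∈ O := ofNat_mem O 2
  have n3 : (3 : L) ∈ O := ofNat_mem O 3
  have h1 : N ^ 2 * vA C ∈ O := by
    rw [vA, mul_sub, mul_left_comm, Finset.mul_sum]
    refine sub_mem (mul_mem (pow_mem hN 2) hA) (mul_mem (ofNat_mem O 5) (sum_mem fun P hP => ?_))
    have := hx P hP
    rw [show N ^ 2 * ca P = 3 * (N * xc P) ^ 2 + N ^ 2 * A by rw [ca]; ring]
    exact add_mem (mul_mem n3 (pow_mem this 2)) (mul_mem (pow_mem hN 2) hA)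
  have h2 : N ^ 3 * vB C ∈ O := by
    rw [vB, mul_sub, mul_left_comm, Finset.mul_sum]
    refine sub_mem (mul_mem (pow_mem hN 3) hB) (mul_mem (ofNat_mem O 7) (sum_mem fun P hP => ?_))
    have := hx P hP
    rw [show N ^ 3 * (ca P * xc P + cb P) = 5 * (N * xc P) ^ 3 + 3 * (N ^ 2 * A * (N * xc P))
      + 2 * (N ^ 3 * B) by rw [ca, cb]; ring]
    exact add_mem (add_mem (mul_mem (ofNat_mem O 5) (pow_mem this 3))
      (mul_mem n3 (mul_mem (mul_mem (pow_mem hN 2) hA) this))) (mul_mem n2 (mul_mem (pow_mem hN 3) hB))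
  rw [show N ^ 6 * dl C = (N ^ 2 * vA C) ^ 3 * B ^ 2 - A ^ 3 * (N ^ 3 * vB C) ^ 2 by rw [dl]; ring]
  exact sub_mem (mul_mem (pow_mem h1 3) (pow_mem hB 2)) (mul_mem (pow_mem hA 3) (pow_mem h2 2))

variable {M : Type*} [Field M] [DecidableEq M] {A' B' : M}

lemma map_sub_data (σ : L →+* M) (hA : σ A = A') (hB : σ B = B')
    (hG : Good A' B') {C : Finset (Pt A B)} (h : IsSub C) :
    IsSub (C.image (Sc.ofHom σ hA hB hG).map) ∧ (C.image (Sc.ofHom σ hA hB hG).map).card = C.card ∧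
      dl (C.image (Sc.ofHom σ hA hB hG).map) = σ (dl C) := by
  have inj := (Sc.ofHom σ hA hB hG).injective
  refine ⟨⟨Finset.mem_image.2 ⟨0, h.zero, map_zero _⟩, ?_⟩, Finset.card_image_of_injective _ inj, ?_⟩
  · simp only [Finset.mem_image]
    rintro _ ⟨P, hP, rfl⟩ _ ⟨Q, hQ, rfl⟩
    exact ⟨P - Q, h.sub P hP Q hQ, map_sub _ _ _⟩
  · have e : ∀ g : Pt A' B' → M, ∑ P ∈ (C.image (Sc.ofHom σ hA hB hG).map).erase 0, g P
        = ∑ P ∈ C.erase 0, g ((Sc.ofHom σ hA hB hG).map P) := by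
      intro g
      refine (Finset.sum_nbij _ ?_ inj.injOn ?_ fun _ _ => rfl).symm
      · intro P hP
        rw [Finset.mem_erase] at hP ⊢
        exact ⟨Sc.map_ne _ hP.1, Finset.mem_image_of_mem _ hP.2⟩
      · intro Q hQ
        rw [Finset.mem_coe, Finset.mem_erase, Finset.mem_image] at hQ
        obtain ⟨h0, P, hP, rfl⟩ := hQ
        exact ⟨P, Finset.mem_erase.2 ⟨fun e => h0 (by rw [e, map_zero]), hP⟩, rfl⟩
    rw [dl, dl, vA, vA, vB, vB, e, e (fun P => ca P * xc P + cb P)]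
    simp [ca, cb, xc_ofHom, hA, hB, map_ofNat]

lemma lift_sub {π : Plc L M} (r : Rd π A B A' B') {N : ℕ} (hN : (N : M) ≠ 0)
    {D : Finset (Pt A B)} (hD : ∀ P, P ∈ D ↔ N • P = 0) {D' : Finset (Pt A' B')}
    (hD' : ∀ P, P ∈ D' ↔ N • P = 0) (hc : D'.card ≤ D.card) {C' : Finset (Pt A' B')}
    (h : IsSub C') (hC' : C'.card = N) :
    ∃ C : Finset (Pt A B), IsSub C ∧ C.card = N ∧ vA C ∈ π.O ∧ vB C ∈ π.O ∧
      π.ev (vA C) = vA C' ∧ π.ev (vB C) = vB C' := by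
  classical
  have hx : ∀ P, N • P = 0 → xc (A := A) (B := B) P ∈ π.O := by
    intro P hP
    have := torsion_int π.O.valuation ((π.O.valuation_le_one_iff _).2 r.mA)
      ((π.O.valuation_le_one_iff _).2 r.mB) hP
    rwa [map_mul, π.v_eq_one (natCast_mem _ N) (by rwa [π.ev_nat]), one_mul,
      π.O.valuation_le_one_iff] at this
  have inj : Set.InjOn r.red D := by
    intro P hP Q hQ e
    by_contra h0
    refine r.red_ne (sub_ne_zero.2 h0) (hx _ ?_) (by rw [map_sub, e, sub_self])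
    rw [nsmul_sub, (hD P).1 hP, (hD Q).1 hQ, sub_zero]
  have im : D.image r.red = D' := by
    refine Finset.eq_of_subset_of_card_le (fun Q hQ => ?_) (by rwa [Finset.card_image_of_injOn inj])
    obtain ⟨P, hP, rfl⟩ := Finset.mem_image.1 hQ
    rw [hD', ← map_nsmul, (hD P).1 hP, map_zero]
  set C := D.filter fun P => r.red P ∈ C' with hC
  have hm : ∀ P, P ∈ C ↔ N • P = 0 ∧ r.red P ∈ C' := fun P => by rw [hC, Finset.mem_filter, hD]
  have injC : Set.InjOn r.red C := inj.mono (Finset.coe_subset.2 (Finset.filter_subset _ _))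
  have sur : ∀ Q ∈ C', ∃ P ∈ C, r.red P = Q := by
    intro Q hQ
    have : Q ∈ D.image r.red := by rw [im, hD', ← hC']; exact h.nsmul_card hQ
    obtain ⟨P, hP, rfl⟩ := Finset.mem_image.1 this
    exact ⟨P, (hm P).2 ⟨(hD P).1 hP, hQ⟩, rfl⟩
  have e : ∀ g : Pt A' B' → M, ∑ P ∈ C'.erase 0, g P = ∑ P ∈ C.erase 0, g (r.red P) := by
    intro g
    refine (Finset.sum_nbij _ ?_ (injC.mono (Finset.coe_subset.2 (Finset.erase_subset _ _))) ?_
      fun _ _ => rfl).symm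
    · intro P hP
      rw [Finset.mem_erase] at hP ⊢
      exact ⟨r.red_ne hP.1 (hx P ((hm P).1 hP.2).1), ((hm P).1 hP.2).2⟩
    · intro Q hQ
      rw [Finset.mem_coe, Finset.mem_erase] at hQ
      obtain ⟨P, hP, rfl⟩ := sur Q hQ.2
      exact ⟨P, Finset.mem_erase.2 ⟨fun e => hQ.1 (by rw [e, map_zero]), hP⟩, rfl⟩
  have n2 : (2 : L) ∈ π.O := ofNat_mem π.O 2
  have n3 : (3 : L) ∈ π.O := ofNat_mem π.O 3
  have v2 : π.ev 2 = 2 := by simpa using π.ev_nat 2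
  have v3 : π.ev 3 = 3 := by simpa using π.ev_nat 3
  have v5 : π.ev 5 = 5 := by simpa using π.ev_nat 5
  have v7 : π.ev 7 = 7 := by simpa using π.ev_nat 7
  have t : ∀ P ∈ C.erase 0, (ca P ∈ π.O ∧ ca P * xc P + cb P ∈ π.O) ∧ π.ev (ca P) = ca (r.red P) ∧
      π.ev (ca P * xc P + cb P) = ca (r.red P) * xc (r.red P) + cb (r.red P) := by
    intro P hP
    rw [Finset.mem_erase] at hP
    have m := hx P ((hm P).1 hP.2).1
    have m1 : ca P ∈ π.O := add_mem (mul_mem n3 (pow_mem m 2)) r.mA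
    have m2 := add_mem (pow_mem m 3) (mul_mem r.mA m)
    have m3 : cb P ∈ π.O := mul_mem n2 (add_mem m2 r.mB)
    have e1 : π.ev (ca P) = ca (r.red P) := by
      rw [ca, ca, r.xc_red hP.1 m, π.ev_add (mul_mem n3 (pow_mem m 2)) r.mA,
        π.ev_mul n3 (pow_mem m 2), π.ev_pow m, v3, r.hA]
    refine ⟨⟨m1, add_mem (mul_mem m1 m) m3⟩, e1, ?_⟩
    rw [π.ev_add (mul_mem m1 m) m3, π.ev_mul m1 m, e1, cb, cb, r.xc_red hP.1 m,
      π.ev_mul n2 (add_mem m2 r.mB), π.ev_add m2 r.mB, π.ev_add (pow_mem m 3) (mul_mem r.mA m),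
      π.ev_pow m, π.ev_mul r.mA m, v2, r.hA, r.hB]
  have s1 := sum_mem (S := π.O) fun P hP => (t P hP).1.1
  have s2 := sum_mem (S := π.O) fun P hP => (t P hP).1.2
  refine ⟨C, ⟨(hm 0).2 ⟨nsmul_zero N, by simpa using h.zero⟩, fun P hP Q hQ => (hm _).2 ⟨?_, ?_⟩⟩,
    ?_, sub_mem r.mA (mul_mem (ofNat_mem π.O 5) s1), sub_mem r.mB (mul_mem (ofNat_mem π.O 7) s2),
    ?_, ?_⟩
  · rw [nsmul_sub, ((hm P).1 hP).1, ((hm Q).1 hQ).1, sub_zero]
  · rw [map_sub]; exact h.sub _ ((hm P).1 hP).2 _ ((hm Q).1 hQ).2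
  · rw [← hC']
    exact Finset.card_nbij r.red (fun P hP => ((hm P).1 hP).2) injC fun Q hQ => sur Q hQ
  · rw [vA, vA, π.ev_sub r.mA (mul_mem (ofNat_mem π.O 5) s1), π.ev_mul (ofNat_mem π.O 5) s1, r.hA,
      v5, π.ev_sum _ _ fun P hP => (t P hP).1.1, Finset.sum_congr rfl fun P hP => (t P hP).2.1, ← e]
  · rw [vB, vB, π.ev_sub r.mB (mul_mem (ofNat_mem π.O 7) s2), π.ev_mul (ofNat_mem π.O 7) s2, r.hB,
      v7, π.ev_sum _ _ fun P hP => (t P hP).1.2, Finset.sum_congr rfl fun P hP => (t P hP).2.2,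
      ← e fun P => ca P * xc P + cb P]

omit [DecidableEq L] [DecidableEq M] in
lemma card_fixed [Fintype L] (j : L →+* M) (hA : j A = A') (hB : j B = B') (hG : Good A' B') :
    Nat.card {P : Pt A' B' // xc P ^ Fintype.card L = xc P ∧ yc P ^ Fintype.card L = yc P}
      = Nat.card (Pt A B) := by
  classical
  have rg : ∀ x : M, x ^ Fintype.card L = x → ∃ a, j a = x := by
    intro x hx
    refine (splits_iff_card_roots.2 ?_ : (X ^ Fintype.card L - X : L[X]).Splits).mem_range_of_isRoot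
      (FiniteField.X_pow_card_sub_X_ne_zero L Fintype.one_lt_card) (by simp [hx])
    rw [FiniteField.roots_X_pow_card_sub_X,
      FiniteField.X_pow_card_sub_X_natDegree_eq L Fintype.one_lt_card]
    rfl
  have hG0 : Good A B := ⟨fun h => hG.two (by simpa [map_ofNat] using congrArg j h),
    fun h => hG.disc (by simpa [map_ofNat, hA, hB] using congrArg j h)⟩
  refine (Nat.card_congr (Equiv.ofBijective (fun P => ⟨(Sc.ofHom j hA hB hG).map P, by
    rw [xc_ofHom, yc_ofHom, ← map_pow, ← map_pow, FiniteField.pow_card, FiniteField.pow_card]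
    exact ⟨rfl, rfl⟩⟩) ⟨?_, ?_⟩)).symm
  · exact fun P Q e => (Sc.ofHom j hA hB hG).injective (congrArg Subtype.val e)
  · rintro ⟨Q, h1, h2⟩
    by_cases h0 : Q = 0
    · exact ⟨0, Subtype.ext (by simp [h0])⟩
    obtain ⟨x, hx⟩ := rg _ h1
    obtain ⟨y, hy⟩ := rg _ h2
    have e : y ^ 2 = x ^ 3 + A * x + B := j.injective (by simpa [hx, hy, hA, hB] using eqn h0)
    exact ⟨pt A B x y, Subtype.ext (pt_ext (Sc.map_ne _ (pt_ne hG0 e)) h0
      (by rw [xc_ofHom, xc_pt hG0 e, hx]) (by rw [yc_ofHom, yc_pt hG0 e, hy]))⟩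

lemma dl_arch [DecidableEq ℂ] {A B : ℂ} {H : ℝ} (hH : 1 ≤ H) (hA : ‖A‖ ≤ H) (hB : ‖B‖ ≤ H)
    {C : Finset (Pt A B)} (h : IsSub C) :
    ‖(C.card : ℂ) ^ 6 * dl C‖ ≤ (100 * H * C.card) ^ 27 := by
  have N1 : 1 ≤ C.card := Finset.card_pos.2 ⟨0, h.zero⟩
  have hx : ∀ P ∈ C.erase 0, ‖xc P‖ ≤ 2000000 * H * C.card ^ 3 := fun P hP =>
    torsion_arch hH hA hB N1 (h.nsmul_card (Finset.mem_of_mem_erase hP))
  have N1' : (1 : ℝ) ≤ C.card := by exact_mod_cast N1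
  obtain ⟨T, hT⟩ : ∃ T, T = 2000000 * H * (C.card : ℝ) ^ 3 := ⟨_, rfl⟩
  have HT : H ≤ T := by
    have := one_le_pow₀ N1' (n := 3)
    rw [hT]; nlinarith
  have T1 : 1 ≤ T := hH.trans HT
  have T2 : T ≤ T ^ 2 := by nlinarith
  have T3 : T ^ 2 ≤ T ^ 3 := by nlinarith
  rw [← hT] at hx
  have sb : ∀ (g : Pt A B → ℂ) (c : ℝ), 0 ≤ c → (∀ P ∈ C.erase 0, ‖g P‖ ≤ c) →
      ‖∑ P ∈ C.erase 0, g P‖ ≤ C.card * c := by
    intro g c hc hg
    refine (norm_sum_le _ _).trans ((Finset.sum_le_card_nsmul _ _ c hg).trans ?_)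
    rw [nsmul_eq_mul]
    exact mul_le_mul_of_nonneg_right (by exact_mod_cast Finset.card_erase_le) hc
  have b1 := sb ca (4 * T ^ 2) (by positivity) fun P hP => by
    have := hx P hP
    calc ‖ca P‖ ≤ 3 * ‖xc P‖ ^ 2 + ‖A‖ := by
          refine (norm_add_le _ _).trans (le_of_eq ?_)
          simp
      _ ≤ 3 * T ^ 2 + H := by gcongr
      _ ≤ _ := by linarith
  have b2 := sb (fun P => ca P * xc P + cb P) (10 * T ^ 3) (by positivity) fun P hP => by
    have := hx P hP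
    calc ‖ca P * xc P + cb P‖ = ‖5 * xc P ^ 3 + 3 * (A * xc P) + 2 * B‖ := by
          rw [ca, cb]; congr 1; ring
      _ ≤ 5 * ‖xc P‖ ^ 3 + 3 * (‖A‖ * ‖xc P‖) + 2 * ‖B‖ := by
          refine (norm_add₃_le).trans (le_of_eq ?_)
          simp
      _ ≤ 5 * T ^ 3 + 3 * (T * T) + 2 * H := by gcongr; exact hA.trans HT
      _ ≤ _ := by nlinarith
  have c1 : ‖vA C‖ ≤ 21 * C.card * T ^ 2 := by
    refine (norm_sub_le _ _).trans ?_
    rw [norm_mul, Complex.norm_ofNat]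
    nlinarith
  have c2 : ‖vB C‖ ≤ 71 * C.card * T ^ 3 := by
    refine (norm_sub_le _ _).trans ?_
    rw [norm_mul, Complex.norm_ofNat]
    nlinarith
  have H0 : 0 ≤ H := by linarith
  calc ‖(C.card : ℂ) ^ 6 * dl C‖ ≤ C.card ^ 6 * (‖vA C‖ ^ 3 * ‖B‖ ^ 2 + ‖A‖ ^ 3 * ‖vB C‖ ^ 2) := by
        rw [norm_mul, norm_pow, Complex.norm_natCast]
        gcongr
        refine (norm_sub_le _ _).trans (le_of_eq ?_)
        simp
    _ ≤ C.card ^ 6 * ((21 * C.card * T ^ 2) ^ 3 * H ^ 2 + H ^ 3 * (71 * C.card * T ^ 3) ^ 2) := by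
        gcongr
    _ = 9261 * 2000000 ^ 6 * (H ^ 8 * C.card ^ 27) + 5041 * 2000000 ^ 6 * (H ^ 9 * C.card ^ 26) := by
        rw [hT]; ring
    _ ≤ 9261 * 2000000 ^ 6 * (H ^ 27 * C.card ^ 27) + 5041 * 2000000 ^ 6 * (H ^ 27 * C.card ^ 27) := by
        gcongr <;> first | assumption | norm_num
    _ ≤ _ := by
        rw [← add_mul, mul_pow, mul_pow, mul_assoc _ (H ^ 27)]
        gcongr
        norm_num

end Pool.Agent.MP_c481b3_nt.H81
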