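import Pool.Agent.MP_c481b3_nt.H81.Ker

set_option autoImplicit false

namespace Pool.Agent.MP_c481b3_nt.H81

open Polynomial

variable {k : Type*} [Field k] {A B : k}

/-- the cubic as a polynomial -/
noncomputable def fp (A B : k) : k[X] := X ^ 3 + C A * X + C B

lemma ap_fp : ap (fp A B) = ff A B := by simp [fp, ff]

lemma fp_mult [DecidableEq k] (hG : Good A B) (x : k) :
    (fp A B).rootMultiplicity x = if x ^ 3 + A * x + B = 0 then 1 else 0 := by
  have h0 : fp A B ≠ 0 := by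
    intro h
    have := congrArg (fun p => coeff p 3) h
    simp [fp, coeff_X] at this
  have e : (fp A B).IsRoot x ↔ x ^ 3 + A * x + B = 0 := by simp [fp]
  split_ifs with h
  · have h1 := (rootMultiplicity_pos h0).2 (e.2 h)
    have h2 : ¬1 < (fp A B).rootMultiplicity x := by
      rw [one_lt_rootMultiplicity_iff_isRoot h0]
      intro h2
      exact hG.not_sing h (by have := h2.2; simp [fp] at this; linear_combination this)
    omega
  · exact rootMultiplicity_eq_zero (fun h' => h (e.1 h'))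

lemma denom_mult [DecidableEq k] (hG : Good A B) {a b : k[X]} (hb : b ≠ 0) (ab : IsCoprime a b)
    {c : k} (hc : c ≠ 0)
    (h : fp A B * (derivative a * b - a * derivative b) ^ 2
      = C c * (b * (a ^ 3 + C A * a * b ^ 2 + C B * b ^ 3))) {x : k} (hx : b.eval x = 0) :
    b.rootMultiplicity x = if x ^ 3 + A * x + B = 0 then 1 else 2 := by
  have hax : a.eval x ≠ 0 := fun h => cop_eval ab x h hx
  have h3 : ¬(a ^ 3 + C A * a * b ^ 2 + C B * b ^ 3).IsRoot x := by simp [hx, hax]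
  have h4 : a ^ 3 + C A * a * b ^ 2 + C B * b ^ 3 ≠ 0 := by
    intro h; rw [h] at h3; simp at h3
  have h5 : C c * (b * (a ^ 3 + C A * a * b ^ 2 + C B * b ^ 3)) ≠ 0 :=
    mul_ne_zero (C_ne_zero.2 hc) (mul_ne_zero hb h4)
  have e := congrArg (rootMultiplicity x) h
  rw [rootMultiplicity_mul h5, rootMultiplicity_mul (mul_ne_zero hb h4), rootMultiplicity_C,
    rootMultiplicity_eq_zero h3] at e
  rw [← h] at h5
  have hW : derivative a * b - a * derivative b ≠ 0 := fun h' => h5 (by rw [h']; simp)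
  rw [rootMultiplicity_mul h5, sq, rootMultiplicity_mul (mul_ne_zero hW hW), fp_mult hG] at e
  have h1 := (rootMultiplicity_pos hb).2 hx
  have h2 : b.rootMultiplicity x - 1 ≤ (derivative a * b - a * derivative b).rootMultiplicity x := by
    rw [le_rootMultiplicity_iff hW]
    have d := b.pow_rootMultiplicity_dvd x
    exact dvd_sub (((pow_dvd_pow _ (Nat.sub_le _ _)).trans d).mul_left _)
      ((pow_sub_one_dvd_derivative_of_pow_dvd d).mul_left _)
  split_ifs at e ⊢ <;> omega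

variable [DecidableEq (RatFunc k)]

lemma vi_pos : 0 < vi (RatFunc.X : RatFunc k) := lt_trans zero_lt_one one_lt_vi_X

lemma C_eq_zero {c : k} (h : vi (RatFunc.C c) < 1) : c = 0 := by
  by_contra h0
  exact absurd (RatFunc.inftyValuation.C k h0) h.ne

lemma quad_zero {R : RatFunc k} (hR : 1 < vi R) {a b c : k}
    (h : RatFunc.C a * R ^ 2 + RatFunc.C b * R + RatFunc.C c = 0) : a = 0 ∧ b = 0 ∧ c = 0 := by
  have R0 : R ≠ 0 := by rintro rfl; simp at hR
  have hu : vi R⁻¹ < 1 := by rw [map_inv₀]; exact inv_lt_one_of_one_lt₀ hR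
  have sm : ∀ t : RatFunc k, vi t ≤ 1 → vi (R⁻¹ * t) < 1 := fun t ht => by
    rw [map_mul]; exact lt_of_le_of_lt (mul_le_of_le_one_right' ht) hu
  have ha : a = 0 := by
    apply C_eq_zero
    have : RatFunc.C a = R⁻¹ * -(RatFunc.C b + R⁻¹ * RatFunc.C c) := by
      field_simp; linear_combination h
    rw [this]
    refine sm _ ?_
    rw [Valuation.map_neg]
    exact (vi (k := k)).map_add_le (vi_C _) (sm _ (vi_C _)).le
  rw [ha, map_zero, zero_mul, zero_add] at h
  have hb : b = 0 := by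
    apply C_eq_zero
    have : RatFunc.C b = R⁻¹ * RatFunc.C (-c) := by
      rw [map_neg]; field_simp; linear_combination h
    rw [this]
    exact sm _ (vi_C _)
  rw [hb, map_zero, zero_mul, zero_add] at h
  exact ⟨ha, hb, (map_eq_zero _).1 h⟩

lemma ode_deg {R : RatFunc k} (hR : 1 < vi R) {c : k} (hc : c ≠ 0)
    (h : ff A B * DD R ^ 2 = RatFunc.C c * (R ^ 3 + RatFunc.C A * R + RatFunc.C B)) :
    R.num.natDegree = R.denom.natDegree + 1 := by
  have R0 : R ≠ 0 := by rintro rfl; simp at hR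
  have e := congrArg vi h
  rw [map_mul, map_mul, v_cubic vi (vi_C A) (vi_C B) hR, vi_ff,
    show vi (RatFunc.C c) = 1 from RatFunc.inftyValuation.C k hc, one_mul, map_pow] at e
  have h1 := vi_DD R
  have h2 : vi R ^ 3 ≤ vi R ^ 2 * vi (RatFunc.X : RatFunc k) := by
    calc vi R ^ 3 = (vi (DD R) * vi (RatFunc.X : RatFunc k)) ^ 2 * vi (RatFunc.X : RatFunc k) := by
          rw [← e, mul_pow, pow_succ _ 2]; ac_rfl
      _ ≤ _ := by gcongr
  rw [pow_succ _ 2, mul_le_mul_iff_right₀ (pow_pos (lt_trans zero_lt_one hR) 2), vi_eq R0, vi_X,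
    WithZero.exp_le_exp] at h2
  rw [vi_eq R0, ← WithZero.exp_zero, WithZero.exp_lt_exp] at hR
  omega

lemma ode_lead {R : RatFunc k} (hR : 1 < vi R) {c : k} (hc : c ≠ 0)
    (h : ff A B * DD R ^ 2 = RatFunc.C c * (R ^ 3 + RatFunc.C A * R + RatFunc.C B)) :
    vi (RatFunc.C c * R - RatFunc.X) ≤ 1 := by
  have hd := ode_deg hR hc h
  have h1 : (R.num /ₘ R.denom).natDegree = 1 := by
    rw [natDegree_divByMonic _ R.monic_denom]; omega
  obtain ⟨α, β, hq⟩ := exists_eq_X_add_C_of_natDegree_le_one h1.le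
  have hα : α ≠ 0 := by
    rintro rfl
    rw [hq] at h1
    simp at h1
  have hb : vi (R - RatFunc.C α * RatFunc.X) ≤ 1 := by
    have e := congrArg ap (modByMonic_add_div R.num R.denom)
    rw [hq, num_eq] at e
    simp only [map_add, map_mul, RatFunc.algebraMap_C, RatFunc.algebraMap_X] at e
    have n0 := ap_ne R.denom_ne_zero
    have e2 : R - RatFunc.C α * RatFunc.X
        = RatFunc.C β + ap (R.num %ₘ R.denom) / ap R.denom := by
      field_simp; linear_combination -e
    rw [e2]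
    refine (vi (k := k)).map_add_le (vi_C _) ?_
    by_cases h0 : R.num %ₘ R.denom = 0
    · simp [h0]
    rw [map_div₀, div_le_one₀ ((vi (k := k)).pos_iff.2 n0), vi_ap h0, vi_ap R.denom_ne_zero,
      WithZero.exp_le_exp, Nat.cast_le]
    exact natDegree_le_natDegree (degree_modByMonic_lt _ R.monic_denom).le
  obtain ⟨b, hb'⟩ : ∃ b, b = R - RatFunc.C α * RatFunc.X := ⟨_, rfl⟩
  rw [← hb'] at hb
  have hR' : R = RatFunc.C α * RatFunc.X + b := by rw [hb']; ring
  have hb1 : vi (DD b * RatFunc.X) ≤ 1 := by rw [map_mul]; exact (vi_DD b).trans hb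
  have hD : DD R = RatFunc.C α + DD b := by rw [hR', DD_add, DD_C_mul, DD_X, mul_one]
  have hcα : c * α = 1 := by
    have : α ^ 2 * (1 - c * α) = 0 := by
      apply C_eq_zero
      have hu := vi_inv (k := k)
      have n2 : (RatFunc.X : RatFunc k) ≠ 0 := RatFunc.X_ne_zero
      rw [hD, ff] at h
      rw [hR'] at h
      simp only [map_mul, map_sub, map_pow, map_one RatFunc.C]
      rw [← map_pow, ← map_mul]
      have m1 : RatFunc.C α ∈ Oi k := vi_C _
      have m2 : RatFunc.C c ∈ Oi k := vi_C _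
      have m3 : RatFunc.C A ∈ Oi k := vi_C _
      have m4 : RatFunc.C B ∈ Oi k := vi_C _
      have m5 : DD b * RatFunc.X ∈ Oi k := hb1
      have m6 : b ∈ Oi k := hb
      have m7 : (RatFunc.X : RatFunc k)⁻¹ ∈ Oi k := hu.le
      have n2' : (2 : RatFunc k) ∈ Oi k := ofNat_mem _ 2
      have n3' : (3 : RatFunc k) ∈ Oi k := ofNat_mem _ 3
      obtain ⟨d, hd⟩ : ∃ d, d = DD b * RatFunc.X := ⟨_, rfl⟩
      have hd' : DD b = d * RatFunc.X⁻¹ := by rw [hd]; field_simp
      rw [← hd] at m5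
      rw [hd'] at h
      generalize RatFunc.C α = a at *
      generalize RatFunc.C c = c' at *
      generalize RatFunc.C A = A' at *
      generalize RatFunc.C B = B' at *
      obtain ⟨u, hu'⟩ : ∃ u : RatFunc k, u = RatFunc.X⁻¹ := ⟨_, rfl⟩
      have hX : (RatFunc.X : RatFunc k) = u⁻¹ := by rw [hu', inv_inv]
      have u0 : u ≠ 0 := by rw [hu']; exact inv_ne_zero n2
      rw [← hu'] at hu m7 h
      rw [hX] at h
      have e : a ^ 2 * (1 - c' * a) = u * (c' * (3 * a ^ 2 * b + 3 * a * b ^ 2 * u + b ^ 3 * u ^ 2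
          + A' * u * (a + b * u) + B' * u ^ 2) - (2 * a * d + d ^ 2 * u)
          - (A' * u + B' * u ^ 2) * (a + d * u) ^ 2) := by
        field_simp at h
        linear_combination h
      rw [e, map_mul]
      refine lt_of_le_of_lt (mul_le_of_le_one_right' ?_) hu
      change _ ∈ Oi k
      repeat' first | assumption | apply pow_mem | apply add_mem | apply sub_mem | apply mul_mem
    exact (sub_eq_zero.1 ((mul_eq_zero.1 this).resolve_left (pow_ne_zero 2 hα))).symm
  have : RatFunc.C c * R - RatFunc.X = RatFunc.C c * b := by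
    rw [hR', mul_add, ← mul_assoc, ← map_mul, hcα, map_one]; ring
  rw [this, map_mul]
  exact mul_le_one' (vi_C c) hb

variable [DecidableEq (LL k)] [DecidableEq k]

/-- a rational map together with the maps it induces on points -/
structure Ind (hG : Good A B) (h : Tw A B) (φ : Pt A B →+ Pt A B)
    (ψ : Pt (cL A) (cL B) →+ Pt (cL A) (cL B)) : Prop where
  inc : ∀ P, ψ (io hG P) = io hG (φ P)
  gen : ∀ g : Gp A B, ψ (g.pt hG) = g.ev hG h
  red : ∀ (π : Plc (LL k) k) (x0 : k) (a : At π x0) (Q : Pt (cL A) (cL B)),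
    (a.rd hG).red (ψ Q) = φ ((a.rd hG).red Q)

lemma Ind.zsmul (hG : Good A B) (t : ℤ) :
    Ind hG (t • g1 A B) (t • AddMonoidHom.id _) (t • AddMonoidHom.id _) :=
  ⟨fun P => by simp, fun g => by simp [Gp.pt], fun π x0 a Q => by simp⟩

lemma Ind.sub {hG : Good A B} {h h' : Tw A B} {φ φ' : Pt A B →+ Pt A B}
    {ψ ψ' : Pt (cL A) (cL B) →+ Pt (cL A) (cL B)} (a : Ind hG h φ ψ) (b : Ind hG h' φ' ψ') :
    Ind hG (h - h') (φ - φ') (ψ - ψ') :=
  ⟨fun P => by simp [a.inc, b.inc], fun g => by simp [a.gen, b.gen],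
    fun π x0 c Q => by simp [a.red π x0 c, b.red π x0 c]⟩

variable [IsAlgClosed k]

lemma Ind.ker_iff {hG : Good A B} {h : Tw A B} {φ : Pt A B →+ Pt A B}
    {ψ : Pt (cL A) (cL B) →+ Pt (cL A) (cL B)} (a : Ind hG h φ ψ) (h0 : h ≠ 0) {P : Pt A B}
    (hP : P ≠ 0) : φ P = 0 ↔ (Rr h).denom.eval (xc P) = 0 := by
  obtain ⟨π, c⟩ := exists_at (xc P)
  obtain ⟨n0, x1⟩ := red_G0 hG c
  have e1 : φ P = 0 ↔ φ ((c.rd hG).red ((G0 A B).pt hG)) = 0 := by
    rcases eq_or_neg n0 hP x1 with e | e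
    · rw [e]
    · rw [e, map_neg, neg_eq_zero]
  rw [e1, ← a.red π _ c, a.gen, ← not_iff_not, ← Ne, ← Ne, ← c.mem_iff, ← G0_σ (A := A) (B := B),
    ← Gp.xc_ev _ hG]
  exact ⟨fun h1 => by_contra fun h2 => h1 (Rd.red_of_not _ h2),
    fun h1 => Rd.red_ne _ (Gp.ev_ne _ hG h0) h1⟩

omit [DecidableEq (RatFunc k)] [DecidableEq (LL k)] in
lemma card_fibre (hG : Good A B) (x : k) {s : Finset (Pt A B)}
    (hs : ∀ P, P ∈ s ↔ P ≠ 0 ∧ xc P = x) : s.card = if x ^ 3 + A * x + B = 0 then 1 else 2 := by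
  classical
  obtain ⟨P, h1, h2⟩ := exists_pt hG x
  have e : s = {P, -P} := by
    ext Q
    rw [hs, Finset.mem_insert, Finset.mem_singleton]
    constructor
    · exact fun h => eq_or_neg h.1 h1 (h.2.trans h2.symm)
    · rintro (rfl | rfl)
      · exact ⟨h1, h2⟩
      · exact ⟨neg_ne_zero.2 h1, by rwa [xc_neg]⟩
  have q := eqn h1
  rw [h2] at q
  rw [e, ← q]
  split_ifs with h
  · have : -P = P := pt_ext (neg_ne_zero.2 h1) h1 (xc_neg P)
      (by rw [yc_neg, pow_eq_zero_iff two_ne_zero |>.1 h, neg_zero])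
    rw [this]; simp
  · refine Finset.card_pair fun e => h ?_
    have := congrArg yc e
    rw [yc_neg] at this
    have : yc P = 0 := mul_left_cancel₀ hG.two (by linear_combination this)
    rw [this]; simp

theorem Ind.kernel {hG : Good A B} {h : Tw A B} {φ : Pt A B →+ Pt A B}
    {ψ : Pt (cL A) (cL B) →+ Pt (cL A) (cL B)} (a : Ind hG h φ ψ) (hh : h ∈ Hinf A B) {c : k}
    (hc : c ≠ 0) (hcc : cc h = RatFunc.C c) (h3 : (3 : k) ≠ 0) :
    ∃ C : Finset (Pt A B), (∀ P, P ∈ C ↔ φ P = 0) ∧ C.card = dg h ∧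
      vA C = c ^ 4 * A ∧ vB C = c ^ 6 * B := by
  classical
  have h0 : h ≠ 0 := by
    rintro rfl
    exact hc ((map_eq_zero RatFunc.C).1 (by rw [← hcc]; simp [cc]))
  have hR := Hinf.lt hh h0
  have hS := Hinf.S_ne hh h0
  have hD : DD (Rr h) = RatFunc.C c * Ss h := by rw [← hcc, cc, div_mul_cancel₀ _ hS]
  have q := eqnT h0
  have ode : ff A B * DD (Rr h) ^ 2
      = RatFunc.C (c ^ 2) * (Rr h ^ 3 + RatFunc.C A * Rr h + RatFunc.C B) := by
    rw [hD, ← q, map_pow]; ring
  have c2 := pow_ne_zero 2 hc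
  have b0 := (Rr h).denom_ne_zero
  have fin : ∀ x : k, {P : Pt A B | P ≠ 0 ∧ xc P = x}.Finite := by
    intro x
    obtain ⟨P, h1, h2⟩ := exists_pt hG x
    exact (Set.toFinite {P, -P}).subset fun Q hQ => eq_or_neg hQ.1 h1 (hQ.2.trans h2.symm)
  have hfin : {P : Pt A B | φ P = 0}.Finite := by
    refine (((Rr h).denom.roots.toFinset.finite_toSet.biUnion fun x _ => fin x).insert 0).subset ?_
    intro P hP
    by_cases p0 : P = 0
    · exact Or.inl p0
    · refine Or.inr (Set.mem_biUnion (x := xc P) ?_ ⟨p0, rfl⟩)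
      simpa [b0] using (a.ker_iff h0 p0).1 hP
  set C := hfin.toFinset with hC
  have hm : ∀ P, P ∈ C ↔ φ P = 0 := fun P => hfin.mem_toFinset
  have hsub : IsSub C := ⟨(hm 0).2 (map_zero φ), fun P hP Q hQ => (hm _).2 (by
    rw [map_sub, (hm P).1 hP, (hm Q).1 hQ, sub_zero])⟩
  refine ⟨C, hm, ?_, ?_⟩
  · have pode : fp A B * (derivative (Rr h).num * (Rr h).denom
        - (Rr h).num * derivative (Rr h).denom) ^ 2 = Polynomial.C (c ^ 2) * ((Rr h).denom
        * ((Rr h).num ^ 3 + Polynomial.C A * (Rr h).num * (Rr h).denom ^ 2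
          + Polynomial.C B * (Rr h).denom ^ 3)) := by
      apply ap_inj
      rw [DD] at ode
      have n0 := ap_ne b0
      rw [map_mul, map_pow, ap_fp]
      simp only [map_add, map_mul, map_pow, num_eq (Rr h), RatFunc.algebraMap_C] at ode ⊢
      field_simp at ode
      linear_combination ode
    rw [← Finset.card_erase_add_one hsub.zero, dg, ode_deg hR c2 ode,
      ← IsAlgClosed.card_roots_eq_natDegree, ← Multiset.toFinset_sum_count_eq,
      Finset.card_eq_sum_card_fiberwise (f := xc) (t := (Rr h).denom.roots.toFinset)]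
    · congr 1
      refine Finset.sum_congr rfl fun x hx => ?_
      have hx' : (Rr h).denom.eval x = 0 := by simpa [b0] using hx
      rw [count_roots, denom_mult hG b0 (Rr h).isCoprime_num_denom c2 pode hx']
      refine card_fibre hG x fun P => ?_
      rw [Finset.mem_filter, Finset.mem_erase, hm]
      exact ⟨fun h => ⟨h.1.1, h.2⟩, fun h => ⟨⟨h.1, (a.ker_iff h0 h.1).2 (h.2 ▸ hx')⟩, h.2⟩⟩
    · intro P hP
      rw [Finset.mem_coe, Finset.mem_erase, hm] at hP
      simpa [b0] using (a.ker_iff h0 hP.1).1 hP.2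
  · obtain ⟨β, hβ⟩ := liouville hG hsub
      (G := RatFunc.C (c ^ 2) * Rr h - vX C RatFunc.C RatFunc.X)
      (by
        rw [← sub_sub_sub_cancel_right _ _ RatFunc.X]
        exact (vi (k := k)).map_sub_le (ode_lead hR c2 ode) (vX_sub C))
      (by
        intro π x0 c0 hx
        rw [map_sub, map_mul, aL_C]
        refine sub_mem (mul_mem (c0.c_mem _) ((c0.mem_iff _).2 fun hb => ?_)) (velu_mem c0 hx).1
        obtain ⟨P, h1, h2⟩ := exists_pt hG x0
        exact hx P (Finset.mem_erase.2 ⟨h1, (hm P).2 ((a.ker_iff h0 h1).2 (by rwa [h2]))⟩) h2)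
      (by
        intro P hP g hg
        rw [map_sub, map_mul, map_sub, map_mul, (velu_gen hG hsub hP hg).1, g.σ_C, aL_C,
          ← g.xc_ev hG, ← a.gen, hg, map_add, a.inc, (hm P).1 hP, map_zero, add_zero, a.gen,
          Gp.xc_ev, G0_σ])
    have e1 : vX C RatFunc.C RatFunc.X = RatFunc.C (c ^ 2) * Rr h - RatFunc.C β := by
      rw [← hβ]; ring
    have e2 : vS C RatFunc.C RatFunc.X = RatFunc.C (c ^ 2) * (RatFunc.C c * Ss h) := by
      rw [← DD_vX, e1, DD_sub, DD_C_mul, DD_C, sub_zero, hD]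
    have o := velu_ode hG hsub
    rw [e1, e2] at o
    obtain ⟨z1, z2, z3⟩ := quad_zero hR (a := -3 * β * c ^ 4)
      (b := 3 * β ^ 2 * c ^ 2 + vA C * c ^ 2 - c ^ 6 * A)
      (c := -β ^ 3 - vA C * β + vB C - c ^ 6 * B) (by
        simp only [map_add, map_sub, map_mul, map_neg, map_pow, map_ofNat] at o ⊢
        linear_combination RatFunc.C c ^ 6 * q - o)
    have hβ0 : β = 0 := by
      simpa [h3, hc] using z1
    rw [hβ0] at z2 z3
    exact ⟨mul_right_cancel₀ c2 (by linear_combination z2), by linear_combination z3⟩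

end Pool.Agent.MP_c481b3_nt.H81
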