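import Pool.Agent.MP_c481b3_nt.H81.Velu

set_option autoImplicit false

namespace Pool.Agent.MP_c481b3_nt.H81

open Polynomial

variable {k : Type*} [Field k] {A B : k}

/-- a generic point of the curve -/
structure Gp (A B : k) where
  σ : RatFunc k →ₐ[k] LL k
  η : LL k
  hη : η ^ 2 = σ (ff A B)

lemma Gp.σ_C (g : Gp A B) (a : k) : g.σ (RatFunc.C a) = cL a := g.σ.commutes a

lemma Gp.comp (g : Gp A B) : g.σ.toRingHom.comp RatFunc.C = cL := RingHom.ext g.σ_C

/-- the standard generic point -/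
noncomputable def G0 (A B : k) : Gp A B :=
  ⟨IsScalarTower.toAlgHom k (RatFunc k) (LL k),
    (IsAlgClosed.exists_pow_nat_eq (aL (ff A B)) two_pos).choose,
    (IsAlgClosed.exists_pow_nat_eq (aL (ff A B)) two_pos).choose_spec⟩

lemma G0_σ (r : RatFunc k) : (G0 A B).σ r = aL r := rfl

variable [DecidableEq (RatFunc k)]

lemma Gp.η_ne (g : Gp A B) : g.η ≠ 0 := by
  intro h
  have := g.hη
  rw [h, zero_pow two_ne_zero] at this
  exact (map_ne_zero g.σ).2 ff_ne this.symm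

/-- the scaling attached to a generic point -/
noncomputable def Gp.sc (g : Gp A B) (hG : Good A B) :
    Sc (RatFunc.C A * ff A B ^ 2) (RatFunc.C B * ff A B ^ 3) (cL A) (cL B) where
  σ := g.σ.toRingHom
  u := g.η
  hu := g.η_ne
  hA := by
    change g.σ _ = _
    rw [map_mul, map_pow, g.σ_C, ← g.hη]; ring
  hB := by
    change g.σ _ = _
    rw [map_mul, map_pow, g.σ_C, ← g.hη]; ring
  good := hG.map cL

omit [DecidableEq (RatFunc k)] in
/-- the point of the twist with given rational maps -/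
noncomputable def tw (A B : k) (R S : RatFunc k) : Tw A B :=
  pt _ _ (R * ff A B) (S * ff A B ^ 2)

lemma tw_spec (hG : Good A B) {R S : RatFunc k}
    (h : ff A B * S ^ 2 = R ^ 3 + RatFunc.C A * R + RatFunc.C B) :
    tw A B R S ≠ 0 ∧ Rr (tw A B R S) = R ∧ Ss (tw A B R S) = S := by
  have e : (S * ff A B ^ 2) ^ 2 = (R * ff A B) ^ 3 + RatFunc.C A * ff A B ^ 2 * (R * ff A B)
      + RatFunc.C B * ff A B ^ 3 := by linear_combination ff A B ^ 3 * h
  have hf := ff_ne (A := A) (B := B)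
  refine ⟨pt_ne hG.tw e, ?_, ?_⟩
  · rw [Rr, tw, xc_pt hG.tw e, mul_div_cancel_right₀ _ hf]
  · rw [Ss, tw, yc_pt hG.tw e, mul_div_cancel_right₀ _ (pow_ne_zero 2 hf)]

omit [DecidableEq (RatFunc k)] in
/-- the identity map -/
noncomputable def g1 (A B : k) : Tw A B := tw A B RatFunc.X 1

lemma g1_spec (hG : Good A B) : g1 A B ≠ 0 ∧ Rr (g1 A B) = RatFunc.X ∧ Ss (g1 A B) = 1 :=
  tw_spec hG (by rw [ff]; ring)

lemma g1_mem (hG : Good A B) : g1 A B ∈ Hinf A B :=
  Or.inr (by rw [(g1_spec hG).2.1]; exact one_lt_vi_X)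

lemma cc_g1 (hG : Good A B) : cc (g1 A B) = 1 := by
  rw [cc, (g1_spec hG).2.1, (g1_spec hG).2.2, DD_X, div_one]

lemma dg_g1 (hG : Good A B) : dg (g1 A B) = 1 := by
  rw [dg, (g1_spec hG).2.1, RatFunc.num_X, natDegree_X]

variable [DecidableEq (LL k)]

/-- evaluation of a rational map at a generic point -/
noncomputable def Gp.ev (g : Gp A B) (hG : Good A B) : Tw A B →+ Pt (cL A) (cL B) := (g.sc hG).map

lemma Gp.ev_ne (g : Gp A B) (hG : Good A B) {h : Tw A B} (h0 : h ≠ 0) : g.ev hG h ≠ 0 :=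
  (g.sc hG).map_ne h0

lemma Gp.xc_ev (g : Gp A B) (hG : Good A B) (h : Tw A B) : xc (g.ev hG h) = g.σ (Rr h) := by
  rw [Gp.ev, Sc.xc_map, Rr, map_div₀, ← g.hη]; rfl

lemma Gp.yc_ev (g : Gp A B) (hG : Good A B) (h : Tw A B) :
    yc (g.ev hG h) = g.η * g.σ (Ss h) := by
  rw [Gp.ev, Sc.yc_map, Ss, map_div₀, map_pow, ← g.hη]
  change g.σ (yc h) / g.η ^ 3 = _
  have := g.η_ne
  field_simp

/-- the generic point itself -/
noncomputable def Gp.pt (g : Gp A B) (hG : Good A B) : Pt (cL A) (cL B) := g.ev hG (g1 A B)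

lemma Gp.pt_ne (g : Gp A B) (hG : Good A B) : g.pt hG ≠ 0 := g.ev_ne hG (g1_spec hG).1

lemma Gp.xc_pt (g : Gp A B) (hG : Good A B) : xc (g.pt hG) = g.σ RatFunc.X := by
  rw [Gp.pt, g.xc_ev, (g1_spec hG).2.1]

lemma Gp.yc_pt (g : Gp A B) (hG : Good A B) : yc (g.pt hG) = g.η := by
  rw [Gp.pt, g.yc_ev, (g1_spec hG).2.2, map_one, mul_one]

variable [DecidableEq k]

omit [DecidableEq (RatFunc k)] in
/-- inclusion of constant points -/
noncomputable def io (hG : Good A B) : Pt A B →+ Pt (cL A) (cL B) :=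
  (Sc.ofHom cL rfl rfl (hG.map cL)).map

omit [DecidableEq (RatFunc k)] in
lemma xc_io (hG : Good A B) (P : Pt A B) : xc (io hG P) = cL (xc P) := xc_ofHom _ _ _ _ P

omit [DecidableEq (RatFunc k)] in
lemma yc_io (hG : Good A B) (P : Pt A B) : yc (io hG P) = cL (yc P) := yc_ofHom _ _ _ _ P

omit [DecidableEq (RatFunc k)] in
lemma io_ne (hG : Good A B) {P : Pt A B} (hP : P ≠ 0) : io hG P ≠ 0 := Sc.map_ne _ hP

lemma Gp.ne_io (g : Gp A B) (hG : Good A B) (P : Pt A B) : g.pt hG ≠ io hG P := by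
  intro e
  have := congrArg xc e
  rw [g.xc_pt, xc_io, ← g.σ_C] at this
  exact X_sub_C_ne (xc P) (sub_eq_zero.2 (g.σ.injective this))

omit [DecidableEq (RatFunc k)] in
lemma red_io (hG : Good A B) {π : Plc (LL k) k} {x0 : k} (h : At π x0) (P : Pt A B) :
    (h.rd hG).red (io hG P) = P := by
  by_cases hP : P = 0
  · simp [hP]
  rw [Rd.red_of_mem _ (io_ne hG hP) (by rw [xc_io]; exact h.c_mem _), xc_io, yc_io, h.ev_c, h.ev_c,
    pt_self hP]

lemma red_G0 (hG : Good A B) {π : Plc (LL k) k} {x0 : k} (h : At π x0) :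
    (h.rd hG).red ((G0 A B).pt hG) ≠ 0 ∧ xc ((h.rd hG).red ((G0 A B).pt hG)) = x0 := by
  have hx : xc ((G0 A B).pt hG) ∈ π.O := by rw [Gp.xc_pt]; exact h.x_mem
  refine ⟨Rd.red_ne _ (Gp.pt_ne _ _) hx, ?_⟩
  rw [Rd.xc_red _ (Gp.pt_ne _ _) hx, Gp.xc_pt]
  exact h.ev_x

variable [IsAlgClosed k]

omit [DecidableEq (RatFunc k)] [DecidableEq (LL k)] [DecidableEq k] in
lemma exists_pt (hG : Good A B) (x : k) : ∃ P : Pt A B, P ≠ 0 ∧ xc P = x := by
  obtain ⟨y, hy⟩ := IsAlgClosed.exists_pow_nat_eq (x ^ 3 + A * x + B) two_pos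
  exact ⟨pt A B x y, pt_ne hG hy, xc_pt hG hy⟩

lemma exists_gen (hG : Good A B) (P : Pt A B) :
    ∃ g : Gp A B, g.pt hG = (G0 A B).pt hG + io hG P := by
  set Q := (G0 A B).pt hG + io hG P with hQ
  have hne : ∀ P', Q ≠ io hG P' := fun P' e =>
    (G0 A B).ne_io hG (P' - P) (by rw [map_sub, ← e, hQ, add_sub_cancel_right])
  have h0 : Q ≠ 0 := by simpa using hne 0
  have hx : ∀ c, cL c ≠ xc Q := by
    intro c hc
    obtain ⟨P', h1, h2⟩ := exists_pt hG c
    rcases eq_or_neg h0 (io_ne hG h1) (by rw [xc_io, h2, hc]) with e | e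
    · exact hne P' e
    · exact hne (-P') (by rw [map_neg, e])
  have hinj : Function.Injective (aeval (xc Q) : k[X] →ₐ[k] LL k) := by
    rw [injective_iff_map_eq_zero]
    intro p hp
    by_contra hp0
    obtain ⟨c, hc⟩ := mem_range_of_alg (cL (k := k)) hp0 hp
    exact hx c hc
  set σ := RatFunc.liftAlgHom (aeval (xc Q) : k[X] →ₐ[k] LL k)
    (nonZeroDivisors_le_comap_nonZeroDivisors_of_injective _ hinj) with hσ
  have hX : σ RatFunc.X = xc Q := by
    rw [hσ, RatFunc.liftAlgHom_apply]; simp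
  have hC : ∀ a, σ (RatFunc.C a) = cL a := σ.commutes
  refine ⟨⟨σ, yc Q, ?_⟩, pt_ext (Gp.pt_ne _ _) h0 ?_ ?_⟩
  · rw [eqn h0, ff, map_add, map_add, map_mul, map_pow, hX, hC, hC]
  · rw [Gp.xc_pt]; exact hX
  · rw [Gp.yc_pt]

lemma liouville (hG : Good A B) {C : Finset (Pt A B)} (hC : IsSub C) {G : RatFunc k}
    (h1 : vi G ≤ 1)
    (h2 : ∀ (π : Plc (LL k) k) (x0 : k), At π x0 → (∀ P ∈ C.erase 0, xc P ≠ x0) → aL G ∈ π.O)
    (h3 : ∀ P ∈ C, ∀ g : Gp A B, g.pt hG = (G0 A B).pt hG + io hG P → g.σ G = aL G) :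
    ∃ c, G = RatFunc.C c := by
  have key : ∀ x0, G.denom.eval x0 ≠ 0 := by
    intro x0
    obtain ⟨π, h⟩ := exists_at x0
    rw [← h.mem_iff]
    by_cases hx : ∀ P ∈ C.erase 0, xc P ≠ x0
    · exact h2 π x0 h hx
    push Not at hx
    obtain ⟨P, hP, hx⟩ := hx
    rw [Finset.mem_erase] at hP
    obtain ⟨n0, x1⟩ := red_G0 hG h
    have hm : (h.rd hG).red ((G0 A B).pt hG) ∈ C := by
      rcases eq_or_neg n0 hP.1 (by rw [x1, hx]) with e | e
      · rw [e]; exact hP.2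
      · rw [e]; exact hC.neg hP.2
    obtain ⟨g, hg⟩ := exists_gen hG (-(h.rd hG).red ((G0 A B).pt hG))
    rw [← h3 _ (hC.neg hm) g hg]
    refine h.bounded g.σ (fun hX => ?_) h1
    refine (h.rd hG).red_ne (g.pt_ne hG) (by rwa [g.xc_pt]) ?_
    rw [hg, map_add, red_io hG h, add_neg_cancel]
  have hd : G.denom = 1 := by
    have : G.denom.degree = 0 := by
      by_contra hd
      obtain ⟨x, hx⟩ := IsAlgClosed.exists_root _ hd
      exact key x hx
    exact (G.monic_denom.degree_le_zero_iff_eq_one).1 this.le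
  by_cases h0 : G = 0
  · exact ⟨0, by simp [h0]⟩
  rw [vi_eq h0, ← WithZero.exp_zero, WithZero.exp_le_exp, hd, natDegree_one] at h1
  have hn : G.num.natDegree = 0 := by omega
  refine ⟨G.num.coeff 0, ?_⟩
  have := num_eq G
  rw [hd, map_one, mul_one, eq_C_of_natDegree_eq_zero hn, RatFunc.algebraMap_C] at this
  exact this.symm

omit [DecidableEq (RatFunc k)] [DecidableEq (LL k)] [IsAlgClosed k] in
lemma velu_mem {C : Finset (Pt A B)} {π : Plc (LL k) k} {x0 : k} (h : At π x0)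
    (hx : ∀ P ∈ C.erase 0, xc P ≠ x0) :
    aL (vX C RatFunc.C RatFunc.X) ∈ π.O ∧ aL (vS C RatFunc.C RatFunc.X) ∈ π.O := by
  have e : (aL (k := k)).comp RatFunc.C = cL := RingHom.ext aL_C
  rw [map_vX, map_vS, e]
  have d : ∀ P ∈ C.erase 0, ∀ (a : LL k) (n : ℕ), a ∈ π.O →
      a / (aL RatFunc.X - cL (xc P)) ^ n ∈ π.O := by
    intro P hP a n ha
    have hm := sub_mem h.x_mem (h.c_mem (xc P))
    refine π.div_mem ha (pow_mem hm n) ?_
    rw [π.ev_pow hm, π.ev_sub h.x_mem (h.c_mem _), h.ev_x, h.ev_c]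
    exact pow_ne_zero _ (sub_ne_zero.2 (hx P hP).symm)
  constructor
  · refine add_mem h.x_mem (sum_mem fun P hP => add_mem ?_ (d P hP _ _ (h.c_mem _)))
    simpa using d P hP _ 1 (h.c_mem (ca P))
  · exact sub_mem (one_mem _) (sum_mem fun P hP => add_mem (d P hP _ _ (h.c_mem _))
      (d P hP _ _ (mul_mem (ofNat_mem _ 2) (h.c_mem _))))

omit [IsAlgClosed k] in
lemma velu_gen (hG : Good A B) {C : Finset (Pt A B)} (hC : IsSub C) {P : Pt A B} (hP : P ∈ C)
    {g : Gp A B} (hg : g.pt hG = (G0 A B).pt hG + io hG P) :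
    g.σ (vX C RatFunc.C RatFunc.X) = aL (vX C RatFunc.C RatFunc.X) ∧
    g.η * g.σ (vS C RatFunc.C RatFunc.X) = (G0 A B).η * aL (vS C RatFunc.C RatFunc.X) := by
  have := velu_inv cL rfl rfl (hG.map cL) hC (fun P _ => (G0 A B).ne_io hG P) hP
  change vX C cL (xc ((G0 A B).pt hG + io hG P)) = _ ∧
    yc ((G0 A B).pt hG + io hG P) * vS C cL (xc ((G0 A B).pt hG + io hG P)) = _ at this
  rw [← hg, g.xc_pt, g.yc_pt, Gp.xc_pt, Gp.yc_pt, ← g.comp] at this
  have e : (aL (k := k)).comp RatFunc.C = g.σ.toRingHom.comp RatFunc.C :=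
    (RingHom.ext aL_C).trans g.comp.symm
  rw [map_vX aL, map_vS aL, e]
  exact ⟨(map_vX g.σ.toRingHom C _ _).trans this.1,
    (congrArg _ (map_vS g.σ.toRingHom C _ _)).trans this.2⟩

lemma velu_ode (hG : Good A B) {C : Finset (Pt A B)} (hC : IsSub C) :
    ff A B * vS C RatFunc.C RatFunc.X ^ 2 = vX C RatFunc.C RatFunc.X ^ 3
      + RatFunc.C (vA C) * vX C RatFunc.C RatFunc.X + RatFunc.C (vB C) := by
  have h1 := velu_small C
  obtain ⟨c, hc⟩ := liouville hG hC h1.le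
    (by
      intro π x0 h hx
      obtain ⟨m1, m2⟩ := velu_mem h hx
      have m3 : aL (ff A B) ∈ π.O := by
        simp only [ff, map_add, map_mul, map_pow, aL_C]
        exact add_mem (add_mem (pow_mem h.x_mem 3) (mul_mem (h.c_mem _) h.x_mem)) (h.c_mem _)
      simp only [map_add, map_sub, map_mul, map_pow, aL_C]
      exact sub_mem (mul_mem m3 (pow_mem m2 2))
        (add_mem (add_mem (pow_mem m1 3) (mul_mem (h.c_mem _) m1)) (h.c_mem _)))
    (by
      intro P hP g hg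
      obtain ⟨e1, e2⟩ := velu_gen hG hC hP hg
      have e3 : aL (ff A B) = (G0 A B).η ^ 2 := (G0 A B).hη.symm
      simp only [map_add, map_sub, map_mul, map_pow, aL_C, g.σ_C, e1, e3, ← g.hη, ← mul_pow, e2])
  rw [hc] at h1
  have : c = 0 := by
    by_contra h0
    exact absurd (RatFunc.inftyValuation.C k h0) h1.ne
  rw [this, map_zero, sub_eq_zero] at hc
  exact hc

end Pool.Agent.MP_c481b3_nt.H81
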