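import Pool.Agent.MP_c481b3_nt.H81.Basic

set_option autoImplicit false

namespace Pool.Agent.MP_c481b3_nt.H81

variable {L : Type*} [Field L] {A B : L}

section val
variable {Γ : Type*} [LinearOrderedCommGroupWithZero Γ] (v : Valuation L Γ)

lemma v_nat (n : ℕ) : v n ≤ 1 := by
  induction n with
  | zero => simp
  | succ n ih => push_cast; exact v.map_add_le ih (by simp)

lemma closure_aux (hA : v A ≤ 1) (hB : v B ≤ 1) {x1 x2 x3 : L}
    (hid : (A - (x1 * x2 + x1 * x3 + x2 * x3)) ^ 2 = 4 * (x1 + x2 + x3) * (x1 * x2 * x3 + B))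
    (h1 : 1 < v x1) (h12 : v x1 ≤ v x2) : v x1 ≤ v x3 := by
  by_contra h3
  rw [not_le] at h3
  have ha : 0 < v x1 := lt_trans zero_lt_one h1
  have hb : 0 < v x2 := lt_of_lt_of_le ha h12
  have h2 : 1 < v x2 := lt_of_lt_of_le h1 h12
  have hab : 1 < v x1 * v x2 := lt_of_lt_of_le h2 (le_mul_of_one_le_left' h1.le)
  have e1 : v (A - (x1 * x2 + x1 * x3 + x2 * x3)) = v x1 * v x2 := by
    have : A - (x1 * x2 + x1 * x3 + x2 * x3) = -(x1 * x2) + (A - x1 * x3 - x2 * x3) := by ring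
    rw [this, v.map_add_eq_of_lt_left, v.map_neg, v.map_mul]
    rw [v.map_neg, v.map_mul]
    refine v.map_sub_lt (v.map_sub_lt (lt_of_le_of_lt hA hab) ?_) ?_
    · rw [v.map_mul]; exact mul_lt_mul_of_pos_left (lt_of_lt_of_le h3 h12) ha
    · rw [v.map_mul, mul_comm (v x1)]; exact mul_lt_mul_of_pos_left h3 hb
  have e2 : v (x1 + x2 + x3) ≤ v x2 :=
    v.map_add_le (v.map_add_le h12 le_rfl) (h3.le.trans h12)
  have e3 : v (x1 * x2 * x3 + B) < v x1 * v x2 * v x1 := by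
    refine v.map_add_lt ?_ (lt_of_le_of_lt hB (lt_of_lt_of_le h1 (le_mul_of_one_le_left' hab.le)))
    rw [v.map_mul, v.map_mul]
    exact mul_lt_mul_of_pos_left h3 (mul_pos ha hb)
  have e4 : v (4 : L) ≤ 1 := by exact_mod_cast v_nat v 4
  have e5 := congrArg v hid
  rw [v.map_pow, e1, v.map_mul, v.map_mul] at e5
  have e6 : v (4 : L) * v (x1 + x2 + x3) * v (x1 * x2 * x3 + B) < v x2 * (v x1 * v x2 * v x1) :=
    calc v (4 : L) * v (x1 + x2 + x3) * v (x1 * x2 * x3 + B)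
        ≤ 1 * v x2 * v (x1 * x2 * x3 + B) := by gcongr
      _ = v x2 * v (x1 * x2 * x3 + B) := by rw [one_mul]
      _ < v x2 * (v x1 * v x2 * v x1) := mul_lt_mul_of_pos_left e3 hb
  rw [← e5] at e6
  exact absurd e6 (by rw [not_lt, sq]; apply le_of_eq; ac_rfl)

lemma closure (hA : v A ≤ 1) (hB : v B ≤ 1) {x1 x2 x3 : L} {m : Γ}
    (hid : (A - (x1 * x2 + x1 * x3 + x2 * x3)) ^ 2 = 4 * (x1 + x2 + x3) * (x1 * x2 * x3 + B))
    (hm : 1 < m) (h1 : m ≤ v x1) (h2 : m ≤ v x2) : m ≤ v x3 := by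
  rcases le_total (v x1) (v x2) with h | h
  · exact h1.trans (closure_aux v hA hB hid (lt_of_lt_of_le hm h1) h)
  · exact h2.trans (closure_aux v hA hB (x1 := x2) (x2 := x1) (x3 := x3)
      (by linear_combination hid) (lt_of_lt_of_le hm h2) h)

lemma v_cubic (hA : v A ≤ 1) (hB : v B ≤ 1) {x : L} (hx : 1 < v x) :
    v (x ^ 3 + A * x + B) = v x ^ 3 := by
  have h0 : 0 < v x := lt_trans zero_lt_one hx
  have h3 : v x < v x ^ 3 := by
    calc v x = v x ^ 1 := (pow_one _).symm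
      _ < v x ^ 3 := pow_lt_pow_right₀ hx (by norm_num)
  rw [add_assoc, v.map_add_eq_of_lt_left, v.map_pow]
  rw [v.map_pow]
  refine v.map_add_lt ?_ (lt_of_le_of_lt hB (hx.trans h3))
  rw [v.map_mul]
  exact lt_of_le_of_lt (mul_le_of_le_one_left' hA) h3

lemma zest (hA : v A ≤ 1) (hB : v B ≤ 1) {l n x1 y1 x2 y2 x3 y3 : L} {m : Γ}
    (h : ColAt A B l n x1 y1 x2 y2 x3 y3) (q1 : y1 ^ 2 = x1 ^ 3 + A * x1 + B)
    (q2 : y2 ^ 2 = x2 ^ 3 + A * x2 + B) (q3 : y3 ^ 2 = x3 ^ 3 + A * x3 + B)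
    (hm : 1 < m) (h1 : m ≤ v x1) (h2 : m ≤ v x2) (h3 : m ≤ v x3) :
    v (x1 / y1 + x2 / y2 + x3 / y3) ^ 2 * m ^ 3 ≤ 1 := by
  have g1 := lt_of_lt_of_le hm h1
  have g2 := lt_of_lt_of_le hm h2
  have g3 := lt_of_lt_of_le hm h3
  have w1 : v y1 ^ 2 = v x1 ^ 3 := by rw [← v.map_pow, q1, v_cubic v hA hB g1]
  have w2 : v y2 ^ 2 = v x2 ^ 3 := by rw [← v.map_pow, q2, v_cubic v hA hB g2]
  have w3 : v y3 ^ 2 = v x3 ^ 3 := by rw [← v.map_pow, q3, v_cubic v hA hB g3]
  have nz : ∀ {x y : L}, 1 < v x → v y ^ 2 = v x ^ 3 → y ≠ 0 := by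
    intro x y hx hy h0
    rw [h0, v.map_zero, zero_pow two_ne_zero] at hy
    exact (pow_pos (lt_trans zero_lt_one hx) 3).ne hy
  have n1 := nz g1 w1
  have n2 := nz g2 w2
  have n3 := nz g3 w3
  set p := v x1 * v x2 * v x3 with hp
  have p1 : v x1 ≤ p := le_mul_of_le_of_one_le (le_mul_of_one_le_right' g2.le) g3.le
  have p2 : v x2 ≤ p := le_mul_of_le_of_one_le (le_mul_of_one_le_left' g1.le) g3.le
  have p3 : v x3 ≤ p := le_mul_of_one_le_left' (one_le_mul g1.le g2.le)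
  have hp1 : 1 < p := lt_of_lt_of_le g1 p1
  have hp0 : 0 < p := lt_trans zero_lt_one hp1
  have hl : v l ^ 2 ≤ p := by
    rw [← v.map_pow, ← h.e1]; exact v.map_add_le (v.map_add_le p1 p2) p3
  have hn : v n ^ 2 ≤ p := by
    have : n ^ 2 = x1 * x2 * x3 + B := by rw [h.e3]; ring
    rw [← v.map_pow, this]
    exact v.map_add_le (by rw [v.map_mul, v.map_mul]) (hB.trans hp1.le)
  have hln : v l * v n ≤ p := by
    rcases le_total (v l) (v n) with h' | h'
    · exact le_trans (by rw [sq]; gcongr) hn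
    · exact le_trans (by rw [sq]; gcongr) hl
  have hnum : v (2 * A * l * n - 3 * B * l ^ 2) ≤ p := by
    have e2 : v (2 : L) ≤ 1 := by exact_mod_cast v_nat v 2
    have e3 : v (3 : L) ≤ 1 := by exact_mod_cast v_nat v 3
    refine v.map_sub_le ?_ ?_
    · rw [v.map_mul, v.map_mul, v.map_mul, mul_assoc]
      exact le_trans (mul_le_of_le_one_left' (mul_le_one' e2 hA)) hln
    · rw [v.map_mul, v.map_mul, v.map_pow]
      exact le_trans (mul_le_of_le_one_left' (mul_le_one' e3 hB)) hl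
  have hs : (x1 / y1 + x2 / y2 + x3 / y3) * (y1 * y2 * y3) = 2 * A * l * n - 3 * B * l ^ 2 := by
    rw [← h.zsum]; field_simp
  have hs2 := congrArg (fun t => v t ^ 2) hs
  simp only [v.map_mul, mul_pow, w1, w2, w3] at hs2
  have hs3 : v (x1 / y1 + x2 / y2 + x3 / y3) ^ 2 * p * p ^ 2 ≤ 1 * p ^ 2 := by
    calc v (x1 / y1 + x2 / y2 + x3 / y3) ^ 2 * p * p ^ 2
        = v (x1 / y1 + x2 / y2 + x3 / y3) ^ 2 * (v x1 ^ 3 * v x2 ^ 3 * v x3 ^ 3) := by
          rw [mul_assoc, ← pow_succ', hp, mul_pow, mul_pow]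
      _ = v (2 * A * l * n - 3 * B * l ^ 2) ^ 2 := hs2
      _ ≤ p ^ 2 := by gcongr
      _ = 1 * p ^ 2 := (one_mul _).symm
  have hs4 := le_of_mul_le_mul_right hs3 (pow_pos hp0 2)
  refine le_trans ?_ hs4
  gcongr
  rw [hp, pow_succ, sq]
  gcongr

variable [DecidableEq L]

/-- the local coordinate at the origin -/
noncomputable def zc (P : Pt A B) : L := xc P / yc P

lemma near_add (hA : v A ≤ 1) (hB : v B ≤ 1) {m : Γ} (hm : 1 < m) {P Q : Pt A B}
    (hP : P = 0 ∨ m ≤ v (xc P)) (hQ : Q = 0 ∨ m ≤ v (xc Q)) :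
    (P + Q = 0 ∨ m ≤ v (xc (P + Q))) ∧ v (zc (P + Q) - zc P - zc Q) ^ 2 * m ^ 3 ≤ 1 := by
  by_cases hP0 : P = 0
  · subst hP0; simpa [zc] using hQ
  by_cases hQ0 : Q = 0
  · subst hQ0; simpa [zc] using hP
  by_cases hPQ : P + Q = 0
  · refine ⟨Or.inl hPQ, ?_⟩
    rw [hPQ, eq_neg_of_add_eq_zero_left hPQ]
    simp [zc, div_neg]
  have hP' := hP.resolve_left hP0
  have hQ' := hQ.resolve_left hQ0
  have hR := neg_ne_zero.2 hPQ
  obtain ⟨l, n, h⟩ := col_of_sum hP0 hQ0 hR (add_neg_cancel (P + Q))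
  have h3 := closure v hA hB h.sym hm hP' hQ'
  have h4 := zest v hA hB h (eqn hP0) (eqn hQ0) (eqn hR) hm hP' hQ' h3
  refine ⟨Or.inr (by rwa [xc_neg] at h3), ?_⟩
  have e : zc (P + Q) - zc P - zc Q
      = -(xc P / yc P + xc Q / yc Q + xc (-(P + Q)) / yc (-(P + Q))) := by
    simp only [zc, xc_neg, yc_neg, div_neg]
    ring
  rw [e, v.map_neg]
  exact h4

lemma torsion_int (hA : v A ≤ 1) (hB : v B ≤ 1) {P : Pt A B} {N : ℕ} (hN : N • P = 0) :
    v (N * xc P) ≤ 1 := by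
  by_cases hx : v (xc P) ≤ 1
  · rw [v.map_mul]; exact mul_le_one' (v_nat v N) hx
  rw [not_le] at hx
  have hP : P ≠ 0 := by
    rintro rfl
    simp at hx
  have key : ∀ k : ℕ, (k • P = 0 ∨ v (xc P) ≤ v (xc (k • P))) ∧
      v (zc (k • P) - k * zc P) ^ 2 * v (xc P) ^ 3 ≤ 1 := by
    intro k
    induction k with
    | zero => simp [zc]
    | succ k ih =>
      have := near_add v hA hB hx ih.1 (Or.inr le_rfl)
      rw [succ_nsmul]
      refine ⟨this.1, ?_⟩
      have e : zc (k • P + P) - ((k + 1 : ℕ) : L) * zc P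
          = (zc (k • P + P) - zc (k • P) - zc P) + (zc (k • P) - k * zc P) := by
        push_cast; ring
      rw [e]
      rcases le_max_iff.1 (v.map_add (zc (k • P + P) - zc (k • P) - zc P)
        (zc (k • P) - k * zc P)) with h | h
      · exact le_trans (by gcongr) this.2
      · exact le_trans (by gcongr) ih.2
  have h1 := (key N).2
  rw [hN] at h1
  have w : v (yc P) ^ 2 = v (xc P) ^ 3 := by rw [← v.map_pow, eqn hP, v_cubic v hA hB hx]
  have h0 : 0 < v (xc P) := lt_trans zero_lt_one hx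
  have h2 : v (zc (0 : Pt A B) - N * zc P) ^ 2 * v (xc P) ^ 3 = v (N * xc P) ^ 2 := by
    have hy : v (yc P) ^ 2 ≠ 0 := by rw [w]; exact (pow_pos h0 3).ne'
    simp only [zc, xc_zero, zero_div, zero_sub, v.map_neg, v.map_mul, map_div₀, mul_pow, div_pow]
    rw [← w, mul_assoc, div_mul_cancel₀ _ hy]
  rw [h2] at h1
  by_contra h
  rw [not_le] at h
  exact absurd h1 (not_le.2 (one_lt_pow₀ h two_ne_zero))

end val

/-! ## Places and reduction -/

/-- a place of `L` with values in `κ` -/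
structure Plc (L κ : Type*) [Field L] [Field κ] where
  O : ValuationSubring L
  ρ : O →+* κ
  loc : ∀ a : O, ρ a = 0 ↔ O.valuation a < 1

variable {κ : Type*} [Field κ]

open Classical in
/-- value of an element at a place -/
noncomputable def Plc.ev (π : Plc L κ) (x : L) : κ := if h : x ∈ π.O then π.ρ ⟨x, h⟩ else 0

namespace Plc
variable (π : Plc L κ)

@[simp] lemma ev_coe (a : π.O) : π.ev a = π.ρ a := by simp [ev]

lemma ev_add {a b : L} (ha : a ∈ π.O) (hb : b ∈ π.O) : π.ev (a + b) = π.ev a + π.ev b := by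
  lift a to π.O using ha
  lift b to π.O using hb
  rw [← AddMemClass.coe_add, ev_coe, ev_coe, ev_coe, map_add]

lemma ev_mul {a b : L} (ha : a ∈ π.O) (hb : b ∈ π.O) : π.ev (a * b) = π.ev a * π.ev b := by
  lift a to π.O using ha
  lift b to π.O using hb
  rw [← MulMemClass.coe_mul, ev_coe, ev_coe, ev_coe, map_mul]

lemma ev_neg {a : L} (ha : a ∈ π.O) : π.ev (-a) = -π.ev a := by
  lift a to π.O using ha
  rw [← NegMemClass.coe_neg, ev_coe, ev_coe, map_neg]

lemma ev_sub {a b : L} (ha : a ∈ π.O) (hb : b ∈ π.O) : π.ev (a - b) = π.ev a - π.ev b := by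
  rw [sub_eq_add_neg, π.ev_add ha (neg_mem hb), π.ev_neg hb, sub_eq_add_neg]

lemma ev_pow {a : L} (ha : a ∈ π.O) (n : ℕ) : π.ev (a ^ n) = π.ev a ^ n := by
  lift a to π.O using ha
  rw [← SubmonoidClass.coe_pow, ev_coe, ev_coe, map_pow]

lemma ev_nat (n : ℕ) : π.ev n = n := by
  have := π.ev_coe (n : π.O)
  simpa using this

lemma ev_sum {ι : Type*} (s : Finset ι) (g : ι → L) (h : ∀ i ∈ s, g i ∈ π.O) :
    π.ev (∑ i ∈ s, g i) = ∑ i ∈ s, π.ev (g i) := by
  classical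
  induction s using Finset.induction_on with
  | empty => simpa using π.ev_nat 0
  | insert a s ha ih =>
    rw [Finset.sum_insert ha, Finset.sum_insert ha,
      π.ev_add (h a (Finset.mem_insert_self _ _))
        (sum_mem fun i hi => h i (Finset.mem_insert_of_mem hi)),
      ih fun i hi => h i (Finset.mem_insert_of_mem hi)]

lemma ev_eq_zero {a : L} (ha : a ∈ π.O) : π.ev a = 0 ↔ π.O.valuation a < 1 := by
  lift a to π.O using ha
  rw [ev_coe, π.loc]

lemma v_eq_one {a : L} (ha : a ∈ π.O) (h : π.ev a ≠ 0) : π.O.valuation a = 1 :=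
  le_antisymm ((π.O.valuation_le_one_iff a).2 ha) (not_lt.1 fun h' => h ((π.ev_eq_zero ha).2 h'))

lemma div_mem {a b : L} (ha : a ∈ π.O) (hb : b ∈ π.O) (h : π.ev b ≠ 0) : a / b ∈ π.O := by
  rw [← π.O.valuation_le_one_iff, map_div₀, π.v_eq_one hb h, div_one]
  exact (π.O.valuation_le_one_iff a).2 ha

lemma ev_div {a b : L} (ha : a ∈ π.O) (hb : b ∈ π.O) (h : π.ev b ≠ 0) :
    π.ev (a / b) = π.ev a / π.ev b := by
  have hb0 : b ≠ 0 := by
    rintro rfl
    exact h (by simpa using π.ev_nat 0)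
  rw [eq_div_iff h, ← π.ev_mul (π.div_mem ha hb h) hb, div_mul_cancel₀ _ hb0]

lemma mem_of_pow {a : L} {n : ℕ} (hn : n ≠ 0) (h : a ^ n ∈ π.O) : a ∈ π.O := by
  rw [← π.O.valuation_le_one_iff] at h ⊢
  by_contra h'
  rw [map_pow] at h
  exact absurd h (not_le.2 (one_lt_pow₀ (not_le.1 h') hn))

end Plc

/-- data for reduction at a place -/
structure Rd (π : Plc L κ) (A B : L) (A' B' : κ) : Prop where
  mA : A ∈ π.O
  mB : B ∈ π.O
  hA : π.ev A = A'
  hB : π.ev B = B'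
  good : Good A' B'

variable {π : Plc L κ} {A' B' : κ}

lemma Rd.y_mem (r : Rd π A B A' B') {P : Pt A B} (hx : xc P ∈ π.O) : yc P ∈ π.O := by
  by_cases hP : P = 0
  · simp [hP]
  refine π.mem_of_pow two_ne_zero ?_
  rw [eqn hP]
  exact add_mem (add_mem (pow_mem hx 3) (mul_mem r.mA hx)) r.mB

lemma Rd.eqn (r : Rd π A B A' B') {P : Pt A B} (hP : P ≠ 0) (hx : xc P ∈ π.O) :
    π.ev (yc P) ^ 2 = π.ev (xc P) ^ 3 + A' * π.ev (xc P) + B' := by
  rw [← π.ev_pow (r.y_mem hx), H81.eqn hP,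
    π.ev_add (add_mem (pow_mem hx 3) (mul_mem r.mA hx)) r.mB,
    π.ev_add (pow_mem hx 3) (mul_mem r.mA hx), π.ev_pow hx, π.ev_mul r.mA hx, r.hA, r.hB]

open Classical in
/-- reduction of a point, as a function -/
noncomputable def redF (π : Plc L κ) (A' B' : κ) (P : Pt A B) : Pt A' B' :=
  if P ≠ 0 ∧ xc P ∈ π.O then pt A' B' (π.ev (xc P)) (π.ev (yc P)) else 0

lemma redF_of_mem {P : Pt A B} (hP : P ≠ 0) (hx : xc P ∈ π.O) :
    redF π A' B' P = pt A' B' (π.ev (xc P)) (π.ev (yc P)) := by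
  simp [redF, hP, hx]

lemma redF_of_not {P : Pt A B} (hx : xc P ∉ π.O) : redF π A' B' P = 0 := by
  simp [redF, hx]

variable [DecidableEq L] [DecidableEq κ]

omit [DecidableEq L] in
lemma Rd.two_int (r : Rd π A B A' B') {P Q R : Pt A B} (hP : P ≠ 0) (hQ : Q ≠ 0) (hR : R ≠ 0)
    {l n : L} (h : ColAt A B l n (xc P) (yc P) (xc Q) (yc Q) (xc R) (yc R))
    (h1 : xc P ∈ π.O) (h2 : xc Q ∈ π.O) :
    redF π A' B' P + redF π A' B' Q + redF π A' B' R = 0 := by
  have y1 := r.y_mem h1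
  have y2 := r.y_mem h2
  have q1 := r.eqn hP h1
  have q2 := r.eqn hQ h2
  rw [redF_of_mem hP h1, redF_of_mem hQ h2]
  by_cases h3 : xc R ∈ π.O
  · have y3 := r.y_mem h3
    have q3 := r.eqn hR h3
    have hl : l ∈ π.O := π.mem_of_pow two_ne_zero (by
      rw [← h.e1]; exact add_mem (add_mem h1 h2) h3)
    have hn : n ∈ π.O := by
      have : n = yc P - l * xc P := by rw [h.h1]; ring
      rw [this]; exact sub_mem y1 (mul_mem hl h1)
    have hc : ColAt (⟨A, r.mA⟩ : π.O) ⟨B, r.mB⟩ ⟨l, hl⟩ ⟨n, hn⟩ ⟨_, h1⟩ ⟨_, y1⟩ ⟨_, h2⟩ ⟨_, y2⟩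
        ⟨_, h3⟩ ⟨_, y3⟩ := ColAt.of_map π.O.subtype Subtype.val_injective h
    have hc' := hc.map π.ρ
    simp only [← π.ev_coe, r.hA, r.hB] at hc'
    rw [redF_of_mem hR h3]
    refine sum_of_col r.good (pt_ne r.good q1) (pt_ne r.good q2) (pt_ne r.good q3)
      (l := π.ev l) (n := π.ev n) ?_
    rw [xc_pt r.good q1, xc_pt r.good q2, xc_pt r.good q3, yc_pt r.good q1, yc_pt r.good q2,
      yc_pt r.good q3]
    exact hc'
  · have hl : l ∉ π.O := by
      intro hl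
      have : xc R = l ^ 2 - xc P - xc Q := by rw [← h.e1]; ring
      exact h3 (this ▸ sub_mem (sub_mem (pow_mem hl 2) h1) h2)
    have small : ∀ {a b : L}, a ∈ π.O → b ∈ π.O → l * a = b → π.ev a = 0 := by
      intro a b ha hb hab
      by_contra h0
      have ha0 : a ≠ 0 := by
        rintro rfl
        exact h0 (by simpa using π.ev_nat 0)
      exact hl (by rw [← eq_div_iff ha0] at hab; rw [hab]; exact π.div_mem hb ha h0)
    have hx : π.ev (xc P) = π.ev (xc Q) := by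
      rw [← sub_eq_zero, ← π.ev_sub h1 h2]
      exact small (sub_mem h1 h2) (sub_mem y1 y2) (by rw [h.h1, h.h2]; ring)
    have hy : π.ev (yc P) = -π.ev (yc Q) := by
      rw [eq_neg_iff_add_eq_zero, ← π.ev_add y1 y2]
      exact small (add_mem y1 y2)
        (add_mem (add_mem (add_mem (pow_mem h1 2) (mul_mem h1 h2)) (pow_mem h2 2)) r.mA) h.slope
    rw [redF_of_not h3, hx, hy, pt_neg r.good q2, neg_add_cancel, add_zero]

/-- the reduction homomorphism -/
noncomputable def Rd.red (r : Rd π A B A' B') : Pt A B →+ Pt A' B' :=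
  homOf (redF π A' B') (by simp [redF])
    (by
      intro P
      by_cases hP : P = 0
      · simp [hP, redF]
      by_cases hx : xc P ∈ π.O
      · rw [redF_of_mem hP hx, redF_of_mem (neg_ne_zero.2 hP) (by simpa using hx), xc_neg, yc_neg,
          π.ev_neg (r.y_mem hx), pt_neg r.good (r.eqn hP hx)]
      · rw [redF_of_not hx, redF_of_not (by simpa using hx), neg_zero])
    (by
      intro P Q R hP hQ hR h
      obtain ⟨l, n, hc⟩ := col_of_sum hP hQ hR h
      have cl : ∀ {l n x1 y1 x2 y2 x3 y3 : L}, ColAt A B l n x1 y1 x2 y2 x3 y3 →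
          x1 ∉ π.O → x2 ∉ π.O → x3 ∉ π.O := by
        intro l n x1 y1 x2 y2 x3 y3 hc h1 h2
        rw [← π.O.valuation_le_one_iff, not_le] at h1 h2 ⊢
        exact lt_of_lt_of_le (lt_min h1 h2) (closure π.O.valuation
          ((π.O.valuation_le_one_iff A).2 r.mA) ((π.O.valuation_le_one_iff B).2 r.mB) hc.sym
          (lt_min h1 h2) (min_le_left _ _) (min_le_right _ _))
      by_cases h1 : xc P ∈ π.O
      · by_cases h2 : xc Q ∈ π.O
        · exact r.two_int hP hQ hR hc h1 h2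
        · have h3 : xc R ∈ π.O := by
            by_contra h3
            exact cl hc.rot h2 h3 h1
          have := r.two_int hR hP hQ hc.rot.rot h3 h1
          rw [← this]; abel
      · by_cases h2 : xc Q ∈ π.O
        · have h3 : xc R ∈ π.O := by
            by_contra h3
            exact cl hc.rot.rot h3 h1 h2
          have := r.two_int hQ hR hP hc.rot h2 h3
          rw [← this]; abel
        · rw [redF_of_not h1, redF_of_not h2, redF_of_not (cl hc h1 h2), add_zero, add_zero])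

lemma Rd.red_of_mem (r : Rd π A B A' B') {P : Pt A B} (hP : P ≠ 0) (hx : xc P ∈ π.O) :
    r.red P = pt A' B' (π.ev (xc P)) (π.ev (yc P)) := redF_of_mem hP hx

lemma Rd.red_of_not (r : Rd π A B A' B') {P : Pt A B} (hx : xc P ∉ π.O) : r.red P = 0 :=
  redF_of_not hx

lemma Rd.red_ne (r : Rd π A B A' B') {P : Pt A B} (hP : P ≠ 0) (hx : xc P ∈ π.O) : r.red P ≠ 0 := by
  rw [r.red_of_mem hP hx]; exact pt_ne r.good (r.eqn hP hx)

lemma Rd.xc_red (r : Rd π A B A' B') {P : Pt A B} (hP : P ≠ 0) (hx : xc P ∈ π.O) :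
    xc (r.red P) = π.ev (xc P) := by
  rw [r.red_of_mem hP hx, xc_pt r.good (r.eqn hP hx)]

lemma Rd.yc_red (r : Rd π A B A' B') {P : Pt A B} (hP : P ≠ 0) (hx : xc P ∈ π.O) :
    yc (r.red P) = π.ev (yc P) := by
  rw [r.red_of_mem hP hx, yc_pt r.good (r.eqn hP hx)]

end Pool.Agent.MP_c481b3_nt.H81
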