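import Pool.Agent.MP_c481b3_nt.H81.Place

set_option autoImplicit false

namespace Pool.Agent.MP_c481b3_nt.H81

variable {k : Type*} [Field k] {A B : k}

/-- `3 x^2 + A` -/
def ca (P : Pt A B) : k := 3 * xc P ^ 2 + A

/-- `2 y^2` -/
def cb (P : Pt A B) : k := 2 * (xc P ^ 3 + A * xc P + B)

variable [DecidableEq k]

/-- a finite subgroup -/
structure IsSub (C : Finset (Pt A B)) : Prop where
  zero : (0 : Pt A B) ∈ C
  sub : ∀ P ∈ C, ∀ Q ∈ C, P - Q ∈ C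

lemma IsSub.neg {C : Finset (Pt A B)} (h : IsSub C) {P : Pt A B} (hP : P ∈ C) : -P ∈ C := by
  simpa using h.sub 0 h.zero P hP

lemma IsSub.add {C : Finset (Pt A B)} (h : IsSub C) {P Q : Pt A B} (hP : P ∈ C) (hQ : Q ∈ C) :
    P + Q ∈ C := by
  simpa using h.sub P hP (-Q) (h.neg hQ)

lemma pair_add {P Q : Pt A B} (hQ : Q ≠ 0) (hP : P ≠ 0) (hx : xc Q ≠ xc P) :
    xc (Q + P) = ((yc Q - yc P) / (xc Q - xc P)) ^ 2 - xc Q - xc P ∧
    yc (Q + P) = -((yc Q - yc P) / (xc Q - xc P) * (xc (Q + P) - xc Q) + yc Q) := by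
  have h0 : Q + P ≠ 0 := fun h => hx (by rw [eq_neg_of_add_eq_zero_left h, xc_neg])
  obtain ⟨l, n, h⟩ := col_of_sum hQ hP (neg_ne_zero.2 h0) (add_neg_cancel _)
  have hl : (yc Q - yc P) / (xc Q - xc P) = l := by
    rw [div_eq_iff (sub_ne_zero.2 hx), h.h1, h.h2]; ring
  have e1 := h.e1
  have e3 := h.h3
  rw [xc_neg] at e1 e3
  rw [yc_neg] at e3
  rw [hl]
  exact ⟨by linear_combination e1, by linear_combination -e3 + h.h1⟩

lemma pair_sum {P Q : Pt A B} (hQ : Q ≠ 0) (hP : P ≠ 0) (hx : xc Q ≠ xc P) :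
    xc (Q + P) + xc (Q + -P)
      = 2 * (xc P + (ca P / (xc Q - xc P) + cb P / (xc Q - xc P) ^ 2)) ∧
    yc (Q + P) + yc (Q + -P)
      = 2 * (-(yc Q * (ca P / (xc Q - xc P) ^ 2 + 2 * cb P / (xc Q - xc P) ^ 3))) := by
  obtain ⟨a1, a2⟩ := pair_add hQ hP hx
  obtain ⟨b1, b2⟩ := pair_add hQ (neg_ne_zero.2 hP) (by rwa [xc_neg])
  rw [a2, b2, a1, b1]
  simp only [xc_neg, yc_neg, ca, cb]
  have q1 := eqn hQ
  have q2 := eqn hP
  have hd := sub_ne_zero.2 hx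
  constructor
  · field_simp
    linear_combination 2 * q1 + 2 * q2
  · field_simp
    linear_combination (-2 * yc Q) * q1 - 6 * yc Q * q2

section sums
variable {M : Type*} [Field M]

/-- first coordinate of the quotient map -/
noncomputable def vX (C : Finset (Pt A B)) (φ : k →+* M) (ξ : M) : M :=
  ξ + ∑ P ∈ C.erase 0, (φ (ca P) / (ξ - φ (xc P)) + φ (cb P) / (ξ - φ (xc P)) ^ 2)

/-- second coordinate of the quotient map, divided by `y` -/
noncomputable def vS (C : Finset (Pt A B)) (φ : k →+* M) (ξ : M) : M :=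
  1 - ∑ P ∈ C.erase 0, (φ (ca P) / (ξ - φ (xc P)) ^ 2 + 2 * φ (cb P) / (ξ - φ (xc P)) ^ 3)

lemma map_vX {M' : Type*} [Field M'] (σ : M →+* M') (C : Finset (Pt A B)) (φ : k →+* M) (ξ : M) :
    σ (vX C φ ξ) = vX C (σ.comp φ) (σ ξ) := by
  simp [vX, map_sum]

lemma map_vS {M' : Type*} [Field M'] (σ : M →+* M') (C : Finset (Pt A B)) (φ : k →+* M) (ξ : M) :
    σ (vS C φ ξ) = vS C (σ.comp φ) (σ ξ) := by
  simp [vS, map_sum, map_ofNat]

variable [DecidableEq M] {A' B' : M}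

lemma sum_half {C : Finset (Pt A B)} (hC : IsSub C) (h2 : (2 : M) ≠ 0) (g t : Pt A B → M)
    (h : ∀ P ∈ C.erase 0, g P + g (-P) = 2 * t P) :
    ∑ P ∈ C.erase 0, g P = ∑ P ∈ C.erase 0, t P := by
  have e : ∑ P ∈ C.erase 0, g (-P) = ∑ P ∈ C.erase 0, g P := by
    refine Finset.sum_nbij' (fun P => -P) (fun P => -P) ?_ ?_ (by simp) (by simp) (by simp)
    all_goals
      intro P hP
      rw [Finset.mem_erase] at hP ⊢
      exact ⟨neg_ne_zero.2 hP.1, hC.neg hP.2⟩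
  refine mul_left_cancel₀ h2 ?_
  rw [Finset.mul_sum _ t, ← Finset.sum_congr rfl h, Finset.sum_add_distrib, e, two_mul]

variable (φ : k →+* M) (hA : φ A = A') (hB : φ B = B') (hG : Good A' B')

lemma off_x {C : Finset (Pt A B)} (hC : IsSub C) {Q : Pt A' B'}
    (hQ : ∀ P ∈ C, Q ≠ (Sc.ofHom φ hA hB hG).map P) :
    Q ≠ 0 ∧ ∀ P ∈ C.erase 0, xc Q ≠ φ (xc P) := by
  have h0 : Q ≠ 0 := by simpa using hQ 0 hC.zero
  refine ⟨h0, fun P hP hx => ?_⟩
  rw [Finset.mem_erase] at hP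
  rw [← xc_ofHom φ hA hB hG] at hx
  rcases eq_or_neg h0 ((Sc.ofHom φ hA hB hG).map_ne hP.1) hx with h | h
  · exact hQ P hP.2 h
  · exact hQ (-P) (hC.neg hP.2) (by rw [map_neg, h])

lemma sum_formula {C : Finset (Pt A B)} (hC : IsSub C) {Q : Pt A' B'}
    (hQ : ∀ P ∈ C, Q ≠ (Sc.ofHom φ hA hB hG).map P) :
    ∑ P ∈ C, xc (Q + (Sc.ofHom φ hA hB hG).map P)
      = vX C φ (xc Q) + ∑ P ∈ C.erase 0, φ (xc P) ∧
    ∑ P ∈ C, yc (Q + (Sc.ofHom φ hA hB hG).map P) = yc Q * vS C φ (xc Q) := by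
  obtain ⟨h0, hx⟩ := off_x φ hA hB hG hC hQ
  set ι := (Sc.ofHom φ hA hB hG).map with hι
  have hp : ∀ P ∈ C.erase 0, _ := fun P hP => pair_sum h0
    ((Sc.ofHom φ hA hB hG).map_ne (Finset.mem_erase.1 hP).1)
    (by rw [xc_ofHom]; exact hx P hP)
  have ea : ∀ P, ca (ι P) = φ (ca P) := fun P => by
    simp [ca, hι, xc_ofHom, hA, map_ofNat]
  have eb : ∀ P, cb (ι P) = φ (cb P) := fun P => by
    simp [cb, hι, xc_ofHom, hA, hB, map_ofNat]
  have ex : ∀ P, xc (ι P) = φ (xc P) := xc_ofHom φ hA hB hG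
  simp only [← hι, ea, eb, ex] at hp
  constructor
  · rw [← Finset.add_sum_erase C _ hC.zero, map_zero, add_zero,
      sum_half hC hG.two (fun P => xc (Q + ι P)) _ (fun P hP => by rw [map_neg]; exact (hp P hP).1),
      Finset.sum_add_distrib, vX]
    ring
  · rw [← Finset.add_sum_erase C _ hC.zero, map_zero, add_zero,
      sum_half hC hG.two (fun P => yc (Q + ι P)) _ (fun P hP => by rw [map_neg]; exact (hp P hP).2),
      Finset.sum_neg_distrib, ← Finset.mul_sum, vS]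
    ring

lemma off_add {C : Finset (Pt A B)} (hC : IsSub C) {Q : Pt A' B'}
    (hQ : ∀ P ∈ C, Q ≠ (Sc.ofHom φ hA hB hG).map P) {P0 : Pt A B} (h0 : P0 ∈ C) :
    ∀ P ∈ C, Q + (Sc.ofHom φ hA hB hG).map P0 ≠ (Sc.ofHom φ hA hB hG).map P :=
  fun P hP e => hQ (P - P0) (hC.sub P hP P0 h0) (by rw [map_sub, ← e, add_sub_cancel_right])

lemma velu_inv {C : Finset (Pt A B)} (hC : IsSub C) {Q : Pt A' B'}
    (hQ : ∀ P ∈ C, Q ≠ (Sc.ofHom φ hA hB hG).map P) {P0 : Pt A B} (h0 : P0 ∈ C) :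
    vX C φ (xc (Q + (Sc.ofHom φ hA hB hG).map P0)) = vX C φ (xc Q) ∧
    yc (Q + (Sc.ofHom φ hA hB hG).map P0) * vS C φ (xc (Q + (Sc.ofHom φ hA hB hG).map P0))
      = yc Q * vS C φ (xc Q) := by
  obtain ⟨a1, a2⟩ := sum_formula φ hA hB hG hC hQ
  obtain ⟨b1, b2⟩ := sum_formula φ hA hB hG hC (off_add φ hA hB hG hC hQ h0)
  have e : ∀ g : Pt A' B' → M, ∑ P ∈ C, g (Q + (Sc.ofHom φ hA hB hG).map P0
      + (Sc.ofHom φ hA hB hG).map P) = ∑ P ∈ C, g (Q + (Sc.ofHom φ hA hB hG).map P) := by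
    intro g
    refine Finset.sum_nbij' (fun P => P0 + P) (fun P => P - P0) (fun P hP => hC.add h0 hP)
      (fun P hP => hC.sub P hP P0 h0) (by simp) (by simp) ?_
    intro P _
    rw [map_add, add_assoc]
  rw [e, a1] at b1
  rw [e, a2] at b2
  exact ⟨(add_right_cancel b1).symm, b2.symm⟩

end sums

/-- coefficient `A` of the quotient curve -/
noncomputable def vA (C : Finset (Pt A B)) : k := A - 5 * ∑ P ∈ C.erase 0, ca P

/-- coefficient `B` of the quotient curve -/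
noncomputable def vB (C : Finset (Pt A B)) : k :=
  B - 7 * ∑ P ∈ C.erase 0, (ca P * xc P + cb P)

/-! ## Expansion at infinity -/

variable [DecidableEq (RatFunc k)]

omit [DecidableEq k] in
lemma X_sub_C_ne (a : k) : (RatFunc.X : RatFunc k) - RatFunc.C a ≠ 0 := by
  intro h
  have := vi_C a
  rw [← sub_eq_zero.1 h] at this
  exact absurd one_lt_vi_X (not_lt.2 this)

omit [DecidableEq k] in
lemma vi_inv : vi ((RatFunc.X : RatFunc k)⁻¹) < 1 := by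
  rw [map_inv₀]
  exact inv_lt_one_of_one_lt₀ one_lt_vi_X

omit [DecidableEq k] in
lemma vi_w (a : k) : vi ((RatFunc.X : RatFunc k) / (RatFunc.X - RatFunc.C a)) ≤ 1 := by
  rw [map_div₀, (vi (k := k)).map_sub_eq_of_lt_left (lt_of_le_of_lt (vi_C a) one_lt_vi_X),
    div_self (lt_trans zero_lt_one one_lt_vi_X).ne']

/-- functions that are bounded at infinity -/
noncomputable abbrev Oi (k : Type*) [Field k] [DecidableEq (RatFunc k)] : Subring (RatFunc k) :=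
  (vi (k := k)).integer

omit [DecidableEq k] in
lemma term_exp (a b x : k) : ∃ b1 ∈ Oi k, ∃ b2 ∈ Oi k,
    RatFunc.C a / (RatFunc.X - RatFunc.C x) + RatFunc.C b / (RatFunc.X - RatFunc.C x) ^ 2
      = RatFunc.C a * RatFunc.X⁻¹ + RatFunc.C (a * x + b) * RatFunc.X⁻¹ ^ 2
        + RatFunc.X⁻¹ ^ 3 * b1 ∧
    RatFunc.C a / (RatFunc.X - RatFunc.C x) ^ 2 + 2 * RatFunc.C b / (RatFunc.X - RatFunc.C x) ^ 3
      = RatFunc.C a * RatFunc.X⁻¹ ^ 2 + 2 * RatFunc.C (a * x + b) * RatFunc.X⁻¹ ^ 3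
        + RatFunc.X⁻¹ ^ 4 * b2 := by
  have hw : (RatFunc.X : RatFunc k) / (RatFunc.X - RatFunc.C x) ∈ Oi k := vi_w x
  have hu : (RatFunc.X : RatFunc k)⁻¹ ∈ Oi k := vi_inv.le
  have ha : RatFunc.C a ∈ Oi k := vi_C a
  have hb : RatFunc.C b ∈ Oi k := vi_C b
  have hx : RatFunc.C x ∈ Oi k := vi_C x
  have n1 := X_sub_C_ne x
  have n2 : (RatFunc.X : RatFunc k) ≠ 0 := RatFunc.X_ne_zero
  simp only [map_add, map_mul]
  generalize RatFunc.C a = a' at *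
  generalize RatFunc.C b = b' at *
  generalize RatFunc.C x = x' at *
  generalize (RatFunc.X : RatFunc k) = X at *
  have n2' : (2 : RatFunc k) ∈ Oi k := ofNat_mem _ 2
  have n3' : (3 : RatFunc k) ∈ Oi k := ofNat_mem _ 3
  refine ⟨a' * x' ^ 2 * (X / (X - x')) + b' * (2 * x' * (X / (X - x'))
      + x' ^ 2 * X⁻¹ * (X / (X - x')) ^ 2), ?_,
    a' * (2 * x' ^ 2 * (X / (X - x')) + x' ^ 2 * (X / (X - x')) ^ 2)
      + 2 * b' * (3 * x' * (X / (X - x')) + 3 * x' ^ 2 * X⁻¹ * (X / (X - x')) ^ 2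
        + x' ^ 3 * X⁻¹ ^ 2 * (X / (X - x')) ^ 3), ?_, ?_, ?_⟩
  · generalize X / (X - x') = w at *
    repeat' first | assumption | apply pow_mem | apply add_mem | apply sub_mem | apply neg_mem | apply mul_mem
  · generalize X / (X - x') = w at *
    repeat' first | assumption | apply pow_mem | apply add_mem | apply sub_mem | apply neg_mem | apply mul_mem
  · field_simp; ring
  · field_simp; ring

lemma velu_exp (C : Finset (Pt A B)) : ∃ b1 ∈ Oi k, ∃ b2 ∈ Oi k,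
    vX C RatFunc.C RatFunc.X = RatFunc.X + RatFunc.C (∑ P ∈ C.erase 0, ca P) * RatFunc.X⁻¹
      + RatFunc.C (∑ P ∈ C.erase 0, (ca P * xc P + cb P)) * RatFunc.X⁻¹ ^ 2
      + RatFunc.X⁻¹ ^ 3 * b1 ∧
    vS C RatFunc.C RatFunc.X = 1 - RatFunc.C (∑ P ∈ C.erase 0, ca P) * RatFunc.X⁻¹ ^ 2
      - 2 * RatFunc.C (∑ P ∈ C.erase 0, (ca P * xc P + cb P)) * RatFunc.X⁻¹ ^ 3
      - RatFunc.X⁻¹ ^ 4 * b2 := by
  choose b1 h1 b2 h2 e1 e2 using fun P : Pt A B => term_exp (ca P) (cb P) (xc P)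
  refine ⟨∑ P ∈ C.erase 0, b1 P, sum_mem fun P _ => h1 P, ∑ P ∈ C.erase 0, b2 P,
    sum_mem fun P _ => h2 P, ?_, ?_⟩
  · rw [vX, map_sum, map_sum, Finset.sum_mul, Finset.sum_mul, Finset.mul_sum, add_assoc, add_assoc,
      ← Finset.sum_add_distrib, ← Finset.sum_add_distrib]
    exact congrArg _ (Finset.sum_congr rfl fun P _ => by rw [e1]; ring)
  · rw [vS, map_sum, map_sum, Finset.sum_mul, Finset.mul_sum, Finset.sum_mul, Finset.mul_sum, sub_sub,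
      sub_sub, ← Finset.sum_add_distrib, ← Finset.sum_add_distrib]
    exact congrArg _ (Finset.sum_congr rfl fun P _ => by rw [e2]; ring)

lemma vX_sub (C : Finset (Pt A B)) : vi (vX C RatFunc.C RatFunc.X - RatFunc.X) ≤ 1 := by
  obtain ⟨b1, h1, -, -, e, -⟩ := velu_exp C
  have hu : (RatFunc.X : RatFunc k)⁻¹ ∈ Oi k := vi_inv.le
  have : vX C RatFunc.C RatFunc.X - RatFunc.X ∈ Oi k := by
    rw [e, add_assoc, add_assoc, add_sub_cancel_left]
    exact add_mem (mul_mem (vi_C _) hu) (add_mem (mul_mem (vi_C _) (pow_mem hu _))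
      (mul_mem (pow_mem hu _) h1))
  exact this

lemma vi_vX (C : Finset (Pt A B)) : vi (vX C RatFunc.C RatFunc.X) = vi (RatFunc.X : RatFunc k) := by
  rw [← add_sub_cancel RatFunc.X (vX C RatFunc.C RatFunc.X)]
  exact (vi (k := k)).map_add_eq_of_lt_left (lt_of_le_of_lt (vX_sub C) one_lt_vi_X)

lemma velu_small (C : Finset (Pt A B)) :
    vi (ff A B * vS C RatFunc.C RatFunc.X ^ 2 - (vX C RatFunc.C RatFunc.X ^ 3
      + RatFunc.C (vA C) * vX C RatFunc.C RatFunc.X + RatFunc.C (vB C))) < 1 := by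
  obtain ⟨b1, h1, b2, h2, e1, e2⟩ := velu_exp C
  rw [e1, e2]
  simp only [vA, vB, map_sub, map_mul, map_ofNat, ff]
  have hT := vi_C (∑ P ∈ C.erase 0, ca P)
  have hW := vi_C (∑ P ∈ C.erase 0, (ca P * xc P + cb P))
  have hA := vi_C A
  have hB := vi_C B
  have hu := vi_inv (k := k)
  have n2 : (RatFunc.X : RatFunc k) ≠ 0 := RatFunc.X_ne_zero
  generalize RatFunc.C (∑ P ∈ C.erase 0, ca P) = T at *
  generalize RatFunc.C (∑ P ∈ C.erase 0, (ca P * xc P + cb P)) = W at *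
  generalize RatFunc.C A = a at *
  generalize RatFunc.C B = b at *
  obtain ⟨u, hu'⟩ : ∃ u : RatFunc k, u = RatFunc.X⁻¹ := ⟨_, rfl⟩
  have hX : (RatFunc.X : RatFunc k) = u⁻¹ := by rw [hu', inv_inv]
  have u0 : u ≠ 0 := by rw [hu']; exact inv_ne_zero n2
  rw [← hu'] at hu
  rw [← hu', hX]
  obtain ⟨s, hs⟩ : ∃ s, s = T + u * (2 * W + u * b2) := ⟨_, rfl⟩
  obtain ⟨t, ht⟩ : ∃ t, t = T + u * (W + u * b1) := ⟨_, rfl⟩
  have e : (u⁻¹ ^ 3 + a * u⁻¹ + b) * (1 - T * u ^ 2 - 2 * W * u ^ 3 - u ^ 4 * b2) ^ 2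
      - ((u⁻¹ + T * u + W * u ^ 2 + u ^ 3 * b1) ^ 3
        + (a - 5 * T) * (u⁻¹ + T * u + W * u ^ 2 + u ^ 3 * b1) + (b - 7 * W))
      = u * (-2 * b2 + s ^ 2 + (a + b * u) * (-2 * s + u ^ 2 * s ^ 2) - 3 * b1 - 3 * t ^ 2
        - u ^ 2 * t ^ 3 - (a - 5 * T) * t) := by
    rw [hs, ht]; field_simp; ring
  rw [e, map_mul]
  have hu1 : u ∈ Oi k := hu.le
  have hT1 : T ∈ Oi k := hT
  have hW1 : W ∈ Oi k := hW
  have hA1 : a ∈ Oi k := hA
  have hB1 : b ∈ Oi k := hB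
  have n2' : (2 : RatFunc k) ∈ Oi k := ofNat_mem _ 2
  have n3' : (3 : RatFunc k) ∈ Oi k := ofNat_mem _ 3
  have n5' : (5 : RatFunc k) ∈ Oi k := ofNat_mem _ 5
  have hs1 : s ∈ Oi k := by rw [hs]; apply_rules [add_mem, mul_mem]
  have ht1 : t ∈ Oi k := by rw [ht]; apply_rules [add_mem, mul_mem]
  have : -2 * b2 + s ^ 2 + (a + b * u) * (-2 * s + u ^ 2 * s ^ 2) - 3 * b1 - 3 * t ^ 2
      - u ^ 2 * t ^ 3 - (a - 5 * T) * t ∈ Oi k := by
    repeat' first | assumption | apply pow_mem | apply add_mem | apply sub_mem | apply neg_mem | apply mul_mem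
  exact lt_of_le_of_lt (mul_le_of_le_one_right' this) hu

lemma DD_vX (C : Finset (Pt A B)) : DD (vX C RatFunc.C RatFunc.X) = vS C RatFunc.C RatFunc.X := by
  rw [vX, vS, DD_add, DD_X, DD_sum, sub_eq_add_neg, ← Finset.sum_neg_distrib]
  congr 1
  refine Finset.sum_congr rfl fun P _ => ?_
  have n1 := X_sub_C_ne (xc P)
  have h1 : DD ((RatFunc.X : RatFunc k) - RatFunc.C (xc P)) = 1 := by rw [DD_sub, DD_X, DD_C, sub_zero]
  generalize (RatFunc.X : RatFunc k) - RatFunc.C (xc P) = h at *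
  have h2 : DD h⁻¹ = -(h⁻¹ ^ 2) := by
    have := DD_mul h h⁻¹
    rw [mul_inv_cancel₀ n1, ← map_one RatFunc.C, DD_C, h1] at this
    refine mul_left_cancel₀ n1 ?_
    field_simp at this ⊢
    linear_combination -this
  rw [div_eq_mul_inv, div_eq_mul_inv (RatFunc.C (cb P)), ← inv_pow, DD_add, DD_C_mul, DD_C_mul, DD_sq,
    h2]
  field_simp
  ring

end Pool.Agent.MP_c481b3_nt.H81
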